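import Pool.Agent.MP_51db15_ag.Nc.Spec
import Pool.Agent.MP_51db15_ag.Hy.P13
import Pool.Agent.MP_51db15_ag.Hy.MINP

/-! Presentations, homogeneous components and the tangent cone. -/

set_option linter.unusedSectionVars false

namespace Pool.Agent.MP_51db15_ag.Nc

open MvPowerSeries Matrix Hy

variable {ι R : Type} [Fintype ι] [CommRing R] [Algebra ℂ R]

section Pres

variable {q : PS ι →ₐ[ℂ] R} {m : Ideal R}

theorem Pres.mem_pow (h : Pres q m) {n : ℕ} {r : R} :
    r ∈ m ^ n ↔ ∃ g : PS ι, (n : ℕ∞) ≤ g.order ∧ q g = r := by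
  rw [h.mx, ← Ideal.map_pow, Ideal.mem_map_iff_of_surjective q h.surj]
  simp only [mem_pow_iff_order]

theorem Pres.q_mem (h : Pres q m) {n : ℕ} {g : PS ι} (hg : (n : ℕ∞) ≤ g.order) : q g ∈ m ^ n :=
  h.mem_pow.2 ⟨g, hg, rfl⟩

theorem Pres.q_mem' (h : Pres q m) {n : ℕ} {g : PS ι}
    (hg : g ∈ IsLocalRing.maximalIdeal (PS ι) ^ n) : q g ∈ m ^ n :=
  h.q_mem (mem_pow_iff_order.1 hg)

theorem Pres.X_mem (h : Pres q m) (i : ι) : q (X i) ∈ m := by
  rw [h.mx]
  exact Ideal.mem_map_of_mem _ (mem_max_iff.2 (constantCoeff_X i))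

theorem Pres.mem_iff (h : Pres q m) {r : R} :
    r ∈ m ↔ ∃ g : PS ι, constantCoeff g = 0 ∧ q g = r := by
  rw [h.mx, Ideal.mem_map_iff_of_surjective q h.surj]
  simp only [mem_max_iff]

/-- elements of `m` are combinations of the coordinates -/
theorem Pres.exists_sum (h : Pres q m) {n : ℕ} {r : R} (hr : r ∈ m ^ (n + 1)) :
    ∃ a : ι → R, (∀ i, a i ∈ m ^ n) ∧ r = ∑ i, q (X i) * a i := by
  obtain ⟨g, hg, rfl⟩ := h.mem_pow.1 hr
  obtain ⟨a, ha, rfl⟩ := exists_sum_X_mul hg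
  exact ⟨fun i => q (a i), fun i => h.q_mem (ha i), by simp⟩

theorem Pres.sep (h : Pres q m) {r : R} (hr : ∀ n, r ∈ m ^ n) : r = 0 := by
  obtain ⟨a, rfl⟩ := h.surj r
  refine mem_ideal_of_approx (RingHom.ker q) fun n => ?_
  obtain ⟨g, hg, e⟩ := h.mem_pow.1 (hr n)
  exact ⟨a - g, by rw [RingHom.mem_ker, map_sub, e, sub_self], by rwa [sub_sub_cancel]⟩

theorem Pres.const [Nontrivial R] (h : Pres q m) {g : PS ι} :
    q g ∈ m ↔ constantCoeff g = 0 := by
  refine ⟨fun hg => ?_, fun hg => h.mem_iff.2 ⟨g, hg, rfl⟩⟩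
  obtain ⟨g', h1, h2⟩ := h.mem_iff.1 hg
  by_contra h3
  have h4 : IsUnit (g - g') := isUnit_iff'.2 (by rwa [map_sub, h1, sub_zero])
  have h5 := h4.map q
  rw [map_sub, h2, sub_self] at h5
  exact not_isUnit_zero h5

theorem Pres.nonunit [Nontrivial R] (h : Pres q m) {r : R} : r ∈ m ↔ ¬ IsUnit r := by
  obtain ⟨g, rfl⟩ := h.surj r
  refine ⟨fun h1 h2 => ?_, fun h1 => h.const.2 ?_⟩
  · have h3 : q 1 ∈ m := by
      rw [map_one, ← Ideal.eq_top_iff_one]
      exact Ideal.eq_top_of_isUnit_mem _ h1 h2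
    simpa using h.const.1 h3
  · by_contra h2
    exact h1 ((isUnit_iff'.2 h2).map q)

theorem Pres.comp (h : Pres q m) (ψ : PS ι ≃ₐ[ℂ] PS ι) : Pres (q.comp (ψ : PS ι →ₐ[ℂ] PS ι)) m := by
  have hs : Function.Surjective (q.comp (ψ : PS ι →ₐ[ℂ] PS ι)) := h.surj.comp ψ.surjective
  refine ⟨hs, Ideal.ext fun r => ?_⟩
  rw [h.mem_iff, Ideal.mem_map_iff_of_surjective _ hs]
  constructor
  · rintro ⟨g, hg, rfl⟩
    refine ⟨ψ.symm g, mem_max_iff.2 ?_, by simp⟩
    exact ((p3.1 ℂ ι ι (ψ.symm : PS ι →ₐ[ℂ] PS ι)).1 g).trans hg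
  · rintro ⟨g, hg, rfl⟩
    exact ⟨ψ g, ((p3.1 ℂ ι ι (ψ : PS ι →ₐ[ℂ] PS ι)).1 g).trans (mem_max_iff.1 hg), rfl⟩

/-- chain rule -/
theorem Pres.chain (h : Pres q m) (D : Der R) (g : PS ι) :
    D (q g) = ∑ i, q (pderiv ℂ i g) * D (q (X i)) :=
  p1 ℂ ι R q.toRingHom ((D : R →ₗ[ℂ] R).toAddMonoidHom.comp q.toRingHom.toAddMonoidHom) m
    (fun a b => by
      change D (q (a * b)) = q a * D (q b) + D (q a) * q b
      rw [map_mul, Derivation.leibniz, smul_eq_mul, smul_eq_mul, mul_comm (q b)])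
    (fun c => by
      change D (q (C c)) = 0
      rw [show (C c : PS ι) = algebraMap ℂ _ c from rfl, AlgHom.commutes,
        Derivation.map_algebraMap])
    h.X_mem (fun _ => h.sep) g

theorem Pres.lf (h : Pres q m) {D : Der R} {x : ι → PS ι} (hx : ∀ i, q (x i) = D (q (X i))) :
    Lf q x D := fun g => by
  rw [h.chain, vf_apply, map_sum]
  exact Finset.sum_congr rfl fun i _ => by rw [map_mul, hx, mul_comm]

theorem Lf.X {D : Der R} {x : ι → PS ι} (h : Lf q x D) (i : ι) : D (q (X i)) = q (x i) := by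
  rw [h, vf_X]

theorem Lf.ker {D : Der R} {x : ι → PS ι} (h : Lf q x D) {f : PS ι} (hf : q f = 0) :
    q (vf x f) = 0 := by rw [← h, hf, map_zero]

theorem Lf.lie {D E : Der R} {x y : ι → PS ι} (hx : Lf q x D) (hy : Lf q y E) :
    Lf q (lie x y) ⁅D, E⁆ := fun g => by
  rw [Derivation.commutator_apply, hx, hy, hx, hy, vf_lie, map_sub]

theorem Pres.exists_lf (h : Pres q m) (D : Der R) : ∃ x, Lf q x D := by
  choose x hx using fun i => h.surj (D (q (X i)))
  exact ⟨x, h.lf hx⟩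

/-- a lift with components of high order -/
theorem Pres.exists_lf' (h : Pres q m) {D : Der R} {n : ℕ} (hD : ∀ i, D (q (X i)) ∈ m ^ n) :
    ∃ x : ι → PS ι, (∀ i, (n : ℕ∞) ≤ (x i).order) ∧ Lf q x D := by
  choose x h1 h2 using fun i => h.mem_pow.1 (hD i)
  exact ⟨x, h1, h.lf h2⟩

theorem Pres.exists_der (h : Pres q m) {x : ι → PS ι} (hx : ∀ f, q f = 0 → q (vf x f) = 0) :
    ∃ D : Der R, Lf q x D :=
  ⟨Derivation.liftOfSurjective h.surj (d := vf x) hx, fun g =>
    Derivation.liftOfSurjective_apply _ _ g⟩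

theorem Pres.der_ext (h : Pres q m) {D E : Der R} (e : ∀ i, D (q (X i)) = E (q (X i))) : D = E := by
  ext r
  obtain ⟨g, rfl⟩ := h.surj r
  simp only [h.chain D g, h.chain E g, e]

theorem Pres.sh (h : Pres q m) {D : Der R} {k : ℕ} (hD : ∀ i, D (q (X i)) ∈ m ^ (k + 1)) :
    Sh m k D := by
  intro n r hr
  obtain ⟨g, hg, rfl⟩ := h.mem_pow.1 hr
  rw [h.chain]
  refine Ideal.sum_mem _ fun i _ => ?_
  rcases n with _ | n
  · exact Ideal.mul_mem_left _ _ (Ideal.pow_le_pow_right (by omega) (hD i))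
  · rw [show n + 1 + k = n + (k + 1) by omega, pow_add]
    exact Ideal.mul_mem_mul (h.q_mem (le_order_pderiv hg i)) (hD i)

theorem Sh.X (h : Pres q m) {D : Der R} {k : ℕ} (hD : Sh m k D) (i : ι) :
    D (q (X i)) ∈ m ^ (k + 1) := by
  rw [add_comm]
  exact hD 1 _ (by rw [pow_one]; exact h.X_mem i)

theorem Sh.mono {D : Der R} {k l : ℕ} (hD : Sh m k D) (h : l ≤ k) : Sh m l D :=
  fun n r hr => Ideal.pow_le_pow_right (by omega) (hD n r hr)

theorem mul_mem_pow {a b : ℕ} {r s : R} (hr : r ∈ m ^ a) (hs : s ∈ m ^ b) {n : ℕ}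
    (h : n ≤ a + b) : r * s ∈ m ^ n :=
  Ideal.pow_le_pow_right h (by rw [pow_add]; exact Ideal.mul_mem_mul hr hs)

end Pres

/-- extension of a derivation to the fraction field -/
theorem ext_der [IsDomain R] (D : Der R) :
    ∃ D' : Derivation ℂ (FractionRing R) (FractionRing R),
      ∀ r, D' (algebraMap R _ r) = algebraMap R _ (D r) :=
  lift R (FractionRing R) (IsScalarTower.toAlgHom ℂ R _)
    ((IsScalarTower.toAlgHom ℂ R (FractionRing R)).toLinearMap.comp D.toLinearMap)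
    (fun w => by
      obtain ⟨a, b, -, e⟩ := IsFractionRing.div_surjective R w
      exact ⟨a, b, e.symm⟩)
    (fun a b => by simp)
    (fun a ha => by
      have h0 : a = 0 := IsFractionRing.injective R (FractionRing R) (ha.trans (map_zero _).symm)
      rw [h0, map_zero])

section Form

variable {ω : Frm R}

theorem skew (h : IsSymplecticForm ω) (D E : Der R) : ω D E = -ω E D := (h.1.neg_eq E D).symm

theorem nondeg (h : IsSymplecticForm ω) {D : Der R} (hD : ∀ E, ω D E = 0) : D = 0 := by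
  ext g
  obtain ⟨H, hH⟩ := h.2.2 g
  rw [← hH, skew h, hD, neg_zero]
  rfl

/-- the form is the differential of its contraction with a dilating field -/
theorem cartan (h : IsSymplecticForm ω) {ξ : Der R} (hξ : IsDilating ω ξ) (Y Z : Der R) :
    ω Y Z = Y (ω ξ Z) - Z (ω ξ Y) - ω ξ ⁅Y, Z⁆ := by
  have h1 := h.2.1 ξ Y Z
  have h2 := hξ Y Z
  rw [skew h ⁅ξ, Z⁆ Y, skew h ⁅Y, Z⁆ ξ] at h1
  linear_combination h1 - h2

/-- commutator of a dilating field with a Hamiltonian field -/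
theorem lie_ham {ξ H : Der R} {g : R} (hξ : IsDilating ω ξ) (hH : ∀ Y, ω H Y = Y g) (Y : Der R) :
    ω ⁅ξ, H⁆ Y = Y (ξ g) - Y g := by
  have h1 := hξ H Y
  rw [hH, hH, Derivation.commutator_apply] at h1
  linear_combination -h1

/-- Hamiltonian fields preserve the form -/
theorem ham_inv (h : IsSymplecticForm ω) {H : Der R} {g : R} (hH : ∀ Y, ω H Y = Y g)
    (Y Z : Der R) : H (ω Y Z) - ω ⁅H, Y⁆ Z - ω Y ⁅H, Z⁆ = 0 := by
  have h1 := h.2.1 H Y Z
  rw [skew h ⁅H, Z⁆ Y, skew h ⁅Y, Z⁆ H, hH, hH, hH, Derivation.commutator_apply] at h1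
  linear_combination h1

end Form

section Hc

theorem co_apply (F : PP ι) : co ι F = (F : PS ι) := rfl

theorem coeff_hc (n : ℕ) (g : PS ι) (α : ι →₀ ℕ) :
    MvPolynomial.coeff α (hc n g) = if Finsupp.degree α = n then coeff α g else 0 := by
  rw [hc, MvPolynomial.coeff_homogeneousComponent]
  split_ifs with h
  · exact coeff_truncTotal _ (by omega)
  · rfl

theorem hc_hom (n : ℕ) (g : PS ι) : (hc n g).IsHomogeneous n :=
  MvPolynomial.homogeneousComponent_isHomogeneous _ _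

theorem coe_hc (n : ℕ) (g : PS ι) : (hc n g : PS ι) = homogeneousComponent n g := by
  ext α
  rw [MvPolynomial.coeff_coe, coeff_hc, coeff_homogeneousComponent]

theorem hc_coe (n : ℕ) (F : PP ι) : hc n (F : PS ι) = MvPolynomial.homogeneousComponent n F := by
  ext α
  rw [coeff_hc, MvPolynomial.coeff_coe, MvPolynomial.coeff_homogeneousComponent]

theorem hc_coe_self {n : ℕ} {F : PP ι} (h : F.IsHomogeneous n) : hc n (F : PS ι) = F := by
  rw [hc_coe, MvPolynomial.homogeneousComponent_eq_self h]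

theorem hc_add (n : ℕ) (g h : PS ι) : hc n (g + h) = hc n g + hc n h := by simp [hc]

theorem hc_sub (n : ℕ) (g h : PS ι) : hc n (g - h) = hc n g - hc n h := by simp [hc]

theorem hc_zero (n : ℕ) : hc n (0 : PS ι) = 0 := by simp [hc]

theorem hc_sum {S : Type} (T : Finset S) (n : ℕ) (g : S → PS ι) :
    hc n (∑ s ∈ T, g s) = ∑ s ∈ T, hc n (g s) := by simp [hc]

theorem hc_eq_zero {n : ℕ} {g : PS ι} (h : ((n + 1 : ℕ) : ℕ∞) ≤ g.order) : hc n g = 0 := by
  ext α
  rw [coeff_hc, MvPolynomial.coeff_zero]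
  split_ifs with h1
  · exact coeff_of_lt_order (lt_of_lt_of_le (by rw [h1]; exact_mod_cast Nat.lt_succ_self n) h)
  · rfl

theorem le_order_coe {n : ℕ} {F : PP ι} (h : F.IsHomogeneous n) :
    (n : ℕ∞) ≤ (F : PS ι).order :=
  nat_le_order fun α hα => by rw [MvPolynomial.coeff_coe, h.coeff_eq_zero hα.ne]

theorem order_sub_hc {n : ℕ} {g : PS ι} (h : (n : ℕ∞) ≤ g.order) :
    ((n + 1 : ℕ) : ℕ∞) ≤ (g - (hc n g : PS ι)).order :=
  nat_le_order fun α hα => by
    rw [map_sub, MvPolynomial.coeff_coe, coeff_hc]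
    split_ifs with h1
    · exact sub_self _
    · rw [sub_zero]
      exact coeff_of_lt_order (lt_of_lt_of_le (by exact_mod_cast (by omega)) h)

theorem order_sub_sum_hc (n : ℕ) (g : PS ι) :
    (n : ℕ∞) ≤ (g - ∑ k ∈ Finset.range n, (hc k g : PS ι)).order :=
  nat_le_order fun α hα => by
    rw [map_sub, map_sum]
    simp only [MvPolynomial.coeff_coe, coeff_hc]
    rw [Finset.sum_ite_eq, if_pos (Finset.mem_range.2 hα), sub_self]

theorem hc_mul {a b : ℕ} {g h : PS ι} (hg : (a : ℕ∞) ≤ g.order) (hh : (b : ℕ∞) ≤ h.order) :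
    hc (a + b) (g * h) = hc a g * hc b h :=
  MvPolynomial.coe_injective ι ℂ (by
    simp only [MvPolynomial.coe_mul, coe_hc]
    exact homogeneousComponent_mul_of_le_order hg hh)

/-- the weights of the standard grading, as used in the hypersurface files -/
theorem coe_hc_comp (n : ℕ) (g : PS ι) :
    (hc n g : PS ι) = comp (fun _ : ι => ((1 : ℕ) : ℚ)) (n : ℚ) g := by
  ext α
  have e : Finsupp.weight (fun _ : ι => ((1 : ℕ) : ℚ)) α = (Finsupp.degree α : ℕ) := by
    simp [Finsupp.weight_apply, Finsupp.sum, Finsupp.degree]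
  rw [MvPolynomial.coeff_coe, coeff_hc, coeff_comp, e]
  simp only [Nat.cast_inj]

theorem isHom_coe {n : ℕ} {F : PP ι} (h : F.IsHomogeneous n) :
    IsHom (fun _ : ι => ((1 : ℕ) : ℚ)) (n : ℚ) (F : PS ι) := by
  rw [← hc_coe_self h, coe_hc_comp]
  exact isHom_comp _ _

theorem hc_hom_mul {d : ℕ} {F : PP ι} (h : F.IsHomogeneous d) (n : ℕ) (g : PS ι) :
    hc (d + n) ((F : PS ι) * g) = F * hc n g :=
  MvPolynomial.coe_injective ι ℂ (by
    simp only [MvPolynomial.coe_mul, coe_hc_comp, Nat.cast_add]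
    exact (isHom_coe h).comp_mul _ _)

theorem hc_hom_mul_lt {d n : ℕ} {F : PP ι} (h : F.IsHomogeneous d) (hn : n < d) (g : PS ι) :
    hc n ((F : PS ι) * g) = 0 :=
  hc_eq_zero (le_trans (le_trans (by exact_mod_cast hn) (le_order_coe h))
    (le_trans le_self_add le_order_mul))

end Hc

section Hat

variable {J : Ideal (PP ι)}

theorem HomI.of_comp {F : PP ι} (h : ∀ n, MvPolynomial.homogeneousComponent n F ∈ J) : F ∈ J := by
  rw [← MvPolynomial.sum_homogeneousComponent F]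
  exact Ideal.sum_mem _ fun n _ => h n

theorem mem_hat (hJ : HomI J) {g : PS ι} : g ∈ J.map (co ι) ↔ ∀ n, hc n g ∈ J := by
  constructor
  · intro hg
    have key : ∀ s : PS ι, ∀ n, hc n (g * s) ∈ J := by
      induction hg using Submodule.span_induction with
      | mem x hx =>
        obtain ⟨F, hF, rfl⟩ := hx
        intro s n
        rw [← MvPolynomial.sum_homogeneousComponent F, map_sum, Finset.sum_mul, hc_sum]
        refine Ideal.sum_mem _ fun d _ => ?_
        have h1 := MvPolynomial.homogeneousComponent_isHomogeneous d F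
        rcases lt_or_ge n d with h2 | h2
        · rw [co_apply, hc_hom_mul_lt h1 h2]
          exact J.zero_mem
        · obtain ⟨k, rfl⟩ := Nat.exists_eq_add_of_le h2
          rw [co_apply, hc_hom_mul h1]
          exact Ideal.mul_mem_right _ _ (hJ F hF d)
      | zero => intro s n; rw [zero_mul, hc_zero]; exact J.zero_mem
      | add x y _ _ hx hy => intro s n; rw [add_mul, hc_add]; exact J.add_mem (hx s n) (hy s n)
      | smul a x _ hx => intro s n; rw [smul_eq_mul, mul_comm a, mul_assoc]; exact hx _ n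
    simpa using key 1
  · intro h
    exact mem_ideal_of_approx _ fun r => ⟨_, Ideal.sum_mem _ fun k _ =>
      Ideal.mem_map_of_mem (co ι) (h k), order_sub_sum_hc r g⟩

theorem coe_mem_hat (hJ : HomI J) {F : PP ι} : (F : PS ι) ∈ J.map (co ι) ↔ F ∈ J :=
  ⟨fun h => HomI.of_comp fun n => hc_coe n F ▸ (mem_hat hJ).1 h n, Ideal.mem_map_of_mem (co ι)⟩

/-- modulo the completed ideal a series starts with a component outside `J` -/
theorem exists_first {g : PS ι} (hg : g ∉ J.map (co ι)) (hJ : HomI J) :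
    ∃ (n : ℕ) (g' : PS ι), g - g' ∈ J.map (co ι) ∧ (n : ℕ∞) ≤ g'.order ∧ hc n g' ∉ J := by
  classical
  have h : ∃ n, hc n g ∉ J := by
    by_contra h
    push Not at h
    exact hg ((mem_hat hJ).2 h)
  refine ⟨Nat.find h, _, ?_, order_sub_sum_hc (Nat.find h) g, ?_⟩
  · rw [sub_sub_cancel]
    exact Ideal.sum_mem _ fun k hk => Ideal.mem_map_of_mem (co ι)
      (not_not.1 (Nat.find_min h (Finset.mem_range.1 hk)))
  · rw [hc_sub, hc_sum, Finset.sum_eq_zero, sub_zero]
    · exact Nat.find_spec h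
    · intro k hk
      rw [hc_coe, MvPolynomial.homogeneousComponent_of_mem (hc_hom k g),
        if_neg (Finset.mem_range.1 hk).ne']

theorem hat_prime (hJ : HomI J) (hp : J.IsPrime) : (J.map (co ι)).IsPrime := by
  refine ⟨fun h => hp.ne_top ((Ideal.eq_top_iff_one _).2 ?_), fun {g h} hgh => ?_⟩
  · refine (coe_mem_hat hJ).1 ?_
    rw [h]
    trivial
  · by_contra hc'
    push Not at hc'
    obtain ⟨a, g', g1, g2, g3⟩ := exists_first hc'.1 hJ
    obtain ⟨b, h', h1, h2, h3⟩ := exists_first hc'.2 hJ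
    have h4 : g' * h' ∈ J.map (co ι) := by
      have e : g' * h' = g * h - (g - g') * h - g' * (h - h') := by ring
      rw [e]
      exact sub_mem (sub_mem hgh (Ideal.mul_mem_right _ _ g1)) (Ideal.mul_mem_left _ _ h1)
    have h5 := (mem_hat hJ).1 h4 (a + b)
    rw [hc_mul g2 h2] at h5
    exact (hp.mem_or_mem h5).elim g3 h3

end Hat

section Cone

variable {q : PS ι →ₐ[ℂ] R} {m : Ideal R} {J : Ideal (PP ι)}

theorem Pres.hom_mem (h : Pres q m) {n : ℕ} {F : PP ι} (hF : F.IsHomogeneous n) :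
    q (F : PS ι) ∈ m ^ n := h.q_mem (le_order_coe hF)

/-- initial forms -/
theorem Pres.exists_in (h : Pres q m) {n : ℕ} {r : R} (hr : r ∈ m ^ n) :
    ∃ F : PP ι, F.IsHomogeneous n ∧ r - q (F : PS ι) ∈ m ^ (n + 1) := by
  obtain ⟨g, hg, rfl⟩ := h.mem_pow.1 hr
  exact ⟨hc n g, hc_hom n g, by rw [← map_sub]; exact h.q_mem (order_sub_hc hg)⟩

theorem Pres.cone (h : Pres q m) : Cone q m (tangentCone (RingHom.ker q)) := by
  have h1 : ∀ (d : ℕ) (F : PP ι), F.IsHomogeneous d → q (F : PS ι) ∈ m ^ (d + 1) →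
      F ∈ tangentCone (RingHom.ker q) := fun d F hF hq => by
    obtain ⟨g, hg, e⟩ := h.mem_pow.1 hq
    refine Ideal.subset_span ⟨d, hF, (F : PS ι) - g, by rw [RingHom.mem_ker, map_sub, e, sub_self],
      ?_⟩
    rw [sub_sub_cancel_left, order_neg]
    exact lt_of_lt_of_le (by exact_mod_cast Nat.lt_succ_self d) hg
  have h2 : ∀ F ∈ tangentCone (RingHom.ker q), ∀ (s : PS ι) (n : ℕ),
      q (hc n ((F : PS ι) * s) : PS ι) ∈ m ^ (n + 1) := by
    intro F hF
    induction hF using Submodule.span_induction with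
    | mem x hx =>
      obtain ⟨d, hd, f, hf, ho⟩ := hx
      intro s n
      rcases lt_or_ge n d with h3 | h3
      · rw [hc_hom_mul_lt hd h3]
        simp
      · obtain ⟨k, rfl⟩ := Nat.exists_eq_add_of_le h3
        have h4 : q (x : PS ι) ∈ m ^ (d + 1) := by
          have h5 := h.q_mem (n := d + 1) (Order.add_one_le_of_lt ho)
          rw [map_sub, show q f = 0 from hf, zero_sub] at h5
          exact neg_mem_iff.1 h5
        rw [hc_hom_mul hd, MvPolynomial.coe_mul, map_mul]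
        exact mul_mem_pow h4 (h.hom_mem (hc_hom k s)) (by omega)
    | zero => intro s n; simp [hc_zero]
    | add x y _ _ hx hy =>
      intro s n
      rw [MvPolynomial.coe_add, add_mul, hc_add, MvPolynomial.coe_add, map_add]
      exact add_mem (hx s n) (hy s n)
    | smul a x _ hx =>
      intro s n
      rw [smul_eq_mul, MvPolynomial.coe_mul, mul_comm (a : PS ι), mul_assoc]
      exact hx _ n
  refine ⟨fun F hF n => h1 n _ (MvPolynomial.homogeneousComponent_isHomogeneous n F) ?_,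
    fun d F hF => ⟨fun h3 => ?_, h1 d F hF⟩⟩
  · have h3 := h2 F hF 1 n
    rwa [mul_one, hc_coe] at h3
  · have h4 := h2 F h3 1 d
    rwa [mul_one, hc_coe_self hF] at h4

theorem Cone.dom (h : Pres q m) (hc : Cone q m J) (hp : J.IsPrime) : Dom m := by
  intro k l r s h1 h2 h3
  induction l with
  | zero => simp
  | succ l ih =>
    obtain ⟨F, hF, e⟩ := h.exists_in h1
    have h4 := ih (Ideal.pow_le_pow_right (by omega) h3)
    obtain ⟨G, hG, e'⟩ := h.exists_in h4
    have h5 : F * G ∈ J := (hc.mem (k + l) _ (hF.mul hG)).2 (by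
      have e2 : q ((F * G : PP ι) : PS ι) =
          r * s - (r - q (F : PS ι)) * s - q (F : PS ι) * (s - q (G : PS ι)) := by
        rw [MvPolynomial.coe_mul, map_mul]; ring
      rw [e2]
      exact sub_mem (sub_mem h3 (mul_mem_pow e h4 (by omega)))
        (mul_mem_pow (h.hom_mem hF) e' (by omega)))
    rcases hp.mem_or_mem h5 with h6 | h6
    · exact absurd (by simpa using add_mem e ((hc.mem k F hF).1 h6)) h2
    · simpa using add_mem e' ((hc.mem l G hG).1 h6)

end Cone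

end Pool.Agent.MP_51db15_ag.Nc
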