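import Pool.Agent.MP_51db15_ag.Nc.Base
import Pool.Agent.MP_51db15_ag.Hy.D2
import Pool.Agent.MP_51db15_ag.Hy.D3

/-! The rational form on the cone and its regularity along discrete valuations. -/

namespace Pool.Agent.MP_51db15_ag.Nc

open MvPowerSeries Matrix Hy

namespace D23

theorem exists_hom {P K L : Type} [CommRing P] [Field K] [Field L] (φ : P →+* K) (ψ : P →+* L)
    (h : ∀ g, φ g = 0 ↔ ψ g = 0) (hK : ∀ y : K, ∃ a b, y = φ a / φ b) :
    ∃ j : K →+* L, ∀ g, j (φ g) = ψ g := by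
  let _ := (RingHom.kerLift φ).toAlgebra
  have := (faithfulSMul_iff_algebraMap_injective (P ⧸ RingHom.ker φ) K).2 φ.kerLift_injective
  have : IsFractionRing (P ⧸ RingHom.ker φ) K := IsFractionRing.of_field _ _ fun z => by
    obtain ⟨a, b, e⟩ := hK z
    exact ⟨Ideal.Quotient.mk _ a, Ideal.Quotient.mk _ b, e⟩
  have hi := RingHom.lift_injective_of_ker_le_ideal (RingHom.ker φ) (f := ψ)
    (fun a ha => (h a).1 ha) fun a ha => (h a).2 ha
  exact ⟨IsFractionRing.lift hi, fun g =>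
    IsFractionRing.lift_algebraMap hi (Ideal.Quotient.mk _ g)⟩

theorem descend {K L ι : Type} [Field K] [Field L] [Fintype ι] (j : K →+* L) (M : ι → ι → K)
    (t : ι → K) (ξ : ι → L) (h : ∀ k, j (t k) = ∑ i, ξ i * j (M i k)) :
    ∃ η : ι → K, ∀ k, t k = ∑ i, η i * M i k := by
  let _ := j.toAlgebra
  obtain ⟨r, hr⟩ := (Algebra.linearMap K L).exists_leftInverse_of_injective
    (LinearMap.ker_eq_bot.2 j.injective)
  refine ⟨fun i => r (ξ i), fun k => ?_⟩
  rw [← show r (j (t k)) = t k from LinearMap.congr_fun hr (t k), h, map_sum]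
  refine Finset.sum_congr rfl fun i _ => ?_
  rw [mul_comm, mul_comm (r _), ← smul_eq_mul (M i k), ← map_smul]
  rfl

end D23

open D23

theorem d2 (hS : S_SPAN) : Nc.S_D2 := by
  intro ι R _ _ _ _ _ q m J ω H₀ Θ M K _ _ φ hker hK
  have hq : ∀ g : PP ι, φ g = 0 ↔ q (g : PS ι) = 0 := fun g => by
    rw [hker, M.ker, coe_mem_hat M.hom]
  have hL : ∀ i, Lf q (fun k => (Θ i k : PS ι)) (H₀ i) := fun i =>
    M.pres.lf fun k => (M.th i k).symm
  have hH : ∀ i, ∃ H : Derivation ℂ K K,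
      ∀ a, H (φ a) = φ (∑ k, Θ i k * MvPolynomial.pderiv k a) := fun i => by
    refine lift _ K φ (φ.toLinearMap ∘ₗ ∑ k, LinearMap.mulLeft ℂ (Θ i k) ∘ₗ
      (MvPolynomial.pderiv k).toLinearMap) hK (fun a b => ?_) (fun a ha => ?_) |>.imp
      fun H h a => by simpa using h a
    · simp only [LinearMap.comp_apply, LinearMap.sum_apply, LinearMap.mulLeft_apply,
        Derivation.coeFn_coe, AlgHom.toLinearMap_apply, Derivation.leibniz, smul_eq_mul, map_sum,
        map_mul, map_add, Finset.mul_sum, ← Finset.sum_add_distrib]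
      exact Finset.sum_congr rfl fun k _ => by ring
    · simp only [LinearMap.comp_apply, LinearMap.sum_apply, LinearMap.mulLeft_apply,
        Derivation.coeFn_coe, AlgHom.toLinearMap_apply]
      rw [hq, D2.coe_vf]
      exact (hL i).ker ((hq a).mp ha)
  choose H hH using hH
  have hX : ∀ i k, H i (φ (.X k)) = φ (Θ i k) := fun i k => by
    rw [hH, Finset.sum_eq_single k]
    · simp
    · intro j _ h
      simp [Pi.single_eq_of_ne h.symm]
    · simp
  have hsk : ∀ i j, H₀ i (q (X j)) = -H₀ j (q (X i)) := fun i j => by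
    rw [← M.hm j, ← M.hm i, skew M.symp]
  let Φ : PS ι →ₐ[ℂ] FractionRing R := (IsScalarTower.toAlgHom ℂ R _).comp q
  have hΦ : ∀ g, Φ g = 0 ↔ q g = 0 := fun g => FaithfulSMul.algebraMap_eq_zero_iff R _
  obtain ⟨j, hj⟩ := exists_hom φ.toRingHom (Φ.toRingHom.comp (co ι))
    (fun g => (hq g).trans (hΦ _).symm) hK
  replace hj : ∀ g, j (φ g) = Φ (g : PS ι) := hj
  have hspan : ∀ x : Derivation ℂ K K, ∃ ξ : ι → K,
      ∀ k, x (φ (.X k)) = ∑ i, ξ i * φ (Θ i k) := fun x => by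
    obtain ⟨ξ, hξ⟩ := ((hS ι R q m ω H₀ (fun i k => Θ i k) M.pres M.symp M.hm M.th).2 _ Φ hΦ).1
      (fun k => j (x (φ (.X k)))) fun f hf => by
        replace hf := (M.ker f).1 ((hΦ f).1 hf)
        induction hf using Submodule.span_induction with
        | mem f hf =>
          obtain ⟨F, hF, rfl⟩ := hf
          simp only [co_apply, pderiv_coe, ← hj, ← map_mul, ← map_sum]
          rw [← D2.chain, (hker F).2 hF, map_zero, map_zero]
        | zero => simp
        | add f g _ _ h1 h2 => simp only [map_add, add_mul, Finset.sum_add_distrib, h1, h2, add_zero]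
        | smul a f hf h1 =>
          have h2 : Φ f = 0 := (hΦ f).2 ((M.ker f).2 hf)
          simp only [smul_eq_mul, Derivation.leibniz, map_add, map_mul, h2, zero_mul, add_zero,
            mul_assoc, ← Finset.mul_sum, h1, mul_zero]
    exact descend j (fun i k => φ (Θ i k)) _ ξ fun k => by simpa only [hj] using hξ k
  obtain ⟨ω₀, h1, h2⟩ := D2.exists_form (fun k => φ (.X k)) H
    (fun i k => by
      rw [hX, hX, eq_neg_iff_add_eq_zero, ← map_add, hq, MvPolynomial.coe_add, map_add, ← M.th,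
        ← M.th, hsk, neg_add_cancel])
    (fun i k l => by
      have := ham_inv M.symp (M.hm i) (H₀ k) (H₀ l)
      rw [skew M.symp ⁅_, _⁆, M.hm, M.hm, M.hm, Derivation.commutator_apply,
        Derivation.commutator_apply, hsk i l, map_neg] at this
      rw [hX, hX, hX, hH, hH, hH, ← map_add, ← map_add, hq, MvPolynomial.coe_add,
        MvPolynomial.coe_add, D2.coe_vf, D2.coe_vf, D2.coe_vf, map_add, map_add, ← hL, ← hL, ← hL,
        ← M.th, ← M.th, ← M.th]
      linear_combination this)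
    (fun x => (hspan x).imp fun ξ h => D2.der_ext φ hK fun k => by
      rw [h, D2.sum_ap]; simp only [hX])
  refine ⟨ω₀, h1, fun x y ξ h => h2 x y ξ (by simpa only [hX] using h), hspan, fun ξ => ?_⟩
  exact ⟨∑ i, ξ i • H i, fun k => by rw [D2.sum_ap]; simp only [hX]⟩

open D3 in
theorem d3 (hS : S_SPAN) : Nc.S_D3 := by
  intro ι R _ _ _ _ _ q m J ω H Θ M ext K _ _ φ hker v x y ξ hφ hx hy hξ
  have hc' : v.Const := fun c => by simpa using hφ (.C c)
  let a : ι → ℕ := fun _ => 1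
  have ha : ∀ i, 0 < a i := fun _ => one_pos
  let O := alg v hc'
  let κ := FractionRing (PowerSeries O)
  let ψ : MvPolynomial ι ℂ →ₐ[ℂ] O := φ.codRestrict O hφ
  let μ := mu ψ a ha
  let ι₀ : PowerSeries O →ₐ[ℂ] κ := IsScalarTower.toAlgHom ℂ (PowerSeries O) κ
  have hinj : Function.Injective ι₀ := FaithfulSMul.algebraMap_injective (PowerSeries O) κ
  let Φ : PS ι →ₐ[ℂ] κ := ι₀.comp μ
  have hΦ : ∀ g, Φ g = algebraMap _ κ (μ g) := fun _ => rfl
  let V : ValuationSubring κ := W (mx v hc') (tot v hc') (content v hc')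
  have hco : ∀ g n, PowerSeries.coeff n (μ g) = ψ (hc n g) := fun g n => by
    have h2 := mu_poly ψ a ha (isHom_coe (hc_hom n g)) (m := 0) (n := n) (by simp)
    rw [pow_zero, mul_one] at h2
    rw [← coeff_mu_comp ψ a ha g n, ← coe_hc_comp, h2, PowerSeries.coeff_C_mul_X_pow, if_pos rfl]
  have h0 : ∀ g, Φ g = 0 ↔ μ g = 0 := fun g => map_eq_zero_iff ι₀ hinj
  have hk : ∀ g, Φ g = 0 ↔ q g = 0 := fun g => by
    rw [h0, M.ker, mem_hat M.hom, PowerSeries.ext_iff]
    refine forall_congr' fun n => ?_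
    rw [hco, map_zero, ← hker, Subtype.ext_iff]
    rfl
  obtain ⟨S, _, c, g, h, g', h', hS', hW⟩ :=
    ((hS ι R q m ω H (fun i k => Θ i k) M.pres M.symp M.hm M.th).2 κ Φ hk).2 ext V
      fun g => ⟨μ g, 1, by simp, by rw [map_one, mul_one, hΦ]⟩
  let j : K →+* κ := IsFractionRing.lift (A := O)
    (g := (algebraMap (PowerSeries O) κ).comp PowerSeries.C)
    (hinj.comp PowerSeries.C_injective)
  have hj : ∀ z : O, j z = algebraMap _ κ (PowerSeries.C z) := fun z =>
    IsFractionRing.lift_algebraMap _ z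
  set t : κ := algebraMap (PowerSeries O) κ PowerSeries.X with ht
  have ht0 : t ≠ 0 := by
    rw [ht, Ne, FaithfulSMul.algebraMap_eq_zero_iff]
    exact PowerSeries.X_ne_zero
  have hvec : ∀ (z : Derivation ℂ K K) (hz : ∀ u, v.Ge 0 u → v.Ge 0 (z u)) k,
      algebraMap _ κ (cw (res v hc' z hz) (sc ψ a k)) = j (z (φ (.X k))) * t ^ a k := by
    intro z hz k
    rw [sc, cw_mono, map_mul, map_pow, ← hj]
    rfl
  have hch : ∀ (z : Derivation ℂ K K) (hz : ∀ u, v.Ge 0 u → v.Ge 0 (z u)) g,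
      ∑ k, Φ (pderiv ℂ k g) * (j (z (φ (.X k))) * t ^ a k) =
        algebraMap _ κ (cw (res v hc' z hz) (μ g)) := by
    intro z hz g
    rw [mu_chain ψ a p1 ha _ (leib_cw (leib_res v hc' z hz)) (cw_res_alg v hc' z hz), map_sum]
    exact Finset.sum_congr rfl fun k _ => by rw [map_mul, hvec, hΦ]
  have hdq : ∀ (z : Derivation ℂ K K) (hz : ∀ u, v.Ge 0 u → v.Ge 0 (z u)) g h, Φ h ≠ 0 →
      Φ g / Φ h ∈ V → (dq Φ g h ⬝ᵥ fun k => j (z (φ (.X k))) * t ^ a k) ∈ V := by
    intro z hz g h h0 hm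
    rw [dq_dot, hch z hz, hch z hz]
    exact der_mem (α := μ g) (β := μ h) (leib_cw (leib_res v hc' z hz)) h0 hm
  have hΘ : ∀ i k, Φ (Θ i k : PS ι) * t ^ 1 = j (φ (Θ i k)) * t ^ (a i + a k) := fun i k => by
    have := congrArg (algebraMap _ κ)
      (mu_poly ψ a ha (isHom_coe (M.deg i k)) (m := 1) (n := a i + a k) (by norm_num [a]))
    rw [map_mul, map_mul, map_pow, map_pow, ← hj] at this
    exact this
  have h1 := hW (fun i => j (ξ i) * t ^ 1 / t ^ a i) (fun k => j (x (φ (.X k))) * t ^ a k)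
    (fun k => j (y (φ (.X k))) * t ^ a k)
    (fun k => by
      rw [hξ, map_sum, Finset.sum_mul]
      refine Finset.sum_congr rfl fun i _ => ?_
      rw [map_mul]
      exact fl1 _ ht0 (hΘ i k))
    (fun f hf => by rw [hch y hy, (h0 f).1 hf, map_zero, map_zero])
  have h2 : j (∑ i, ξ i * y (φ (.X i))) * t ^ 1 ∈ V := by
    have e : j (∑ i, ξ i * y (φ (.X i))) * t ^ 1 =
        ∑ i, j (ξ i) * t ^ 1 / t ^ a i * (j (y (φ (.X i))) * t ^ a i) := by
      rw [map_sum, Finset.sum_mul]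
      refine Finset.sum_congr rfl fun i _ => ?_
      rw [map_mul]
      exact fl2 _ _ _ _ ht0
    rw [e, h1]
    refine V.toSubring.sum_mem fun s _ => ?_
    obtain ⟨s1, s2, s3, s4, s5⟩ := hS' s
    exact V.toSubring.mul_mem s1 (V.toSubring.sub_mem
      (V.toSubring.mul_mem (hdq x hx _ _ s2 s4) (hdq y hy _ _ s3 s5))
      (V.toSubring.mul_mem (hdq x hx _ _ s3 s5) (hdq y hy _ _ s2 s4)))
  generalize ∑ i, ξ i * y (φ (.X i)) = z at h2 ⊢
  by_contra hz
  have hz0 : z ≠ 0 := fun e => hz (Or.inl e)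
  rw [DV.ge_iff hz0] at hz
  have hz1 : v.Ge 1 z⁻¹ := Or.inr (by rw [v.ord_inv hz0]; omega)
  refine not_mem (u := ⟨z⁻¹, hz1.mono (by omega)⟩) hz1 (w := 1) ?_ h2
  rw [← hj, ← mul_assoc, ← map_mul, inv_mul_cancel₀ hz0, map_one, one_mul]

end Pool.Agent.MP_51db15_ag.Nc
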