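import Pool.Agent.MP_51db15_ag.Nc.Base
import Pool.Agent.MP_51db15_ag.Hy.D4

/-! A normal cone with linear Hamiltonian fields is a conical symplectic variety. -/

set_option linter.unusedSectionVars false

namespace Pool.Agent.MP_51db15_ag.Nc

open MvPolynomial Hy Hy.D4

namespace D4

theorem internal' {ι : Type} [Fintype ι] (a : ι → ℕ) {S : Type} [CommRing S] [Algebra ℂ S]
    (π : MvPolynomial ι ℂ →ₐ[ℂ] S) (hπ : Function.Surjective π)
    (hk : ∀ g, π g = 0 → π (scale a g) = 0) :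
    DirectSum.IsInternal fun e => (weightedHomogeneousSubmodule ℂ a e).map π.toLinearMap := by
  have H : RingHom.ker π.toRingHom ≤ RingHom.ker (π.comp (scale a)).toRingHom := fun g hg =>
    hk g hg
  let T : Module.End ℂ S := (AlgHom.liftOfSurjective π hπ _ H).toLinearMap
  have hT : ∀ g, T (π g) = π (scale a g) := fun g => AlgHom.liftOfSurjective_apply π hπ _ H g
  refine (DirectSum.isInternal_submodule_iff_iSupIndep_and_iSup_eq_top _).2 ⟨?_, ?_⟩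
  · have h2 : Function.Injective fun e : ℕ => (2 : ℂ) ^ e := fun e e' h => by
      have h3 : ((2 ^ e : ℕ) : ℂ) = ((2 ^ e' : ℕ) : ℂ) := by simpa using h
      exact Nat.pow_right_injective le_rfl (Nat.cast_injective h3)
    refine (T.eigenspaces_iSupIndep.comp h2).mono fun e => ?_
    rintro _ ⟨g, hg, rfl⟩
    refine Module.End.mem_eigenspace_iff.2 ?_
    change T (π g) = _ • π g
    rw [hT, scale_hom a hg, map_smul]
  · refine eq_top_iff.2 fun y _ => ?_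
    obtain ⟨g, rfl⟩ := hπ y
    rw [g.as_sum, map_sum]
    exact sum_mem fun α _ => Submodule.mem_iSup_of_mem (Finsupp.weight a α)
      ⟨_, isWeightedHomogeneous_monomial a α _ rfl, rfl⟩

theorem conical' {ι : Type} [Fintype ι] [DecidableEq ι] {K : Type} [Field K] [Algebra ℂ K]
    (φ : MvPolynomial ι ℂ →ₐ[ℂ] K) {J : Ideal (MvPolynomial ι ℂ)} {Θ : Matrix ι ι (MvPolynomial ι ℂ)}
    {a : ι → ℕ} {w : ℕ} (ha : ∀ i, 0 < a i) (hw : 0 < w) (hk : ∀ g, φ g = 0 ↔ g ∈ J)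
    (hfr : ∀ y : K, ∃ a b, y = φ a / φ b)
    (hn : IsIntegrallyClosed (MvPolynomial ι ℂ ⧸ J))
    (hF : ∀ g ∈ J, scale a g ∈ J)
    (hΘ : ∀ i j, IsHom (fun i => (a i : ℚ)) ((a i : ℚ) + a j - w) (Θ i j : PS ι))
    {ω : LinearMap.BilinForm K (Derivation ℂ K K)} (h1 : IsClosedForm ω)
    (h2 : ∀ (x y : Derivation ℂ K K) (ξ : ι → K), (∀ k, x (φ (X k)) = ∑ i, ξ i * φ (Θ i k)) →
      ω x y = ∑ i, ξ i * y (φ (X i)))
    (h3 : ∀ x : Derivation ℂ K K, ∃ ξ : ι → K, ∀ k, x (φ (X k)) = ∑ i, ξ i * φ (Θ i k))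
    (h4 : ∀ ξ : ι → K, ∃ x : Derivation ℂ K K, ∀ k, x (φ (X k)) = ∑ i, ξ i * φ (Θ i k))
    (h5 : ∀ (v : DV K) (x y : Derivation ℂ K K), (∀ z ∈ (φ.range : Set K), v.Ge 0 z) →
      (∀ z, v.Ge 0 z → v.Ge 0 (x z)) → (∀ z, v.Ge 0 z → v.Ge 0 (y z)) → v.Ge 0 (ω x y)) :
    IsConicalSymplectic φ.range ω
      fun e => (weightedHomogeneousSubmodule ℂ a e).map φ.rangeRestrict.toLinearMap := by
  have hs : Function.Surjective φ.rangeRestrict := φ.rangeRestrict_surjective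
  have hf : ∀ y : K, ∃ a ∈ (φ.range : Set K), ∃ b ∈ (φ.range : Set K), b ≠ 0 ∧ y = a / b :=
    fun y => by
      obtain ⟨a, b, e⟩ := hfr y
      by_cases hb : φ b = 0
      · exact ⟨0, zero_mem _, 1, one_mem _, one_ne_zero, by rw [e, hb]; simp⟩
      · exact ⟨_, ⟨a, rfl⟩, _, ⟨b, rfl⟩, hb, e⟩
  have hft : Algebra.FiniteType ℂ φ.range := Algebra.FiniteType.of_surjective _ hs
  have hN : IsNoetherianRing φ.range := Algebra.FiniteType.isNoetherianRing ℂ _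
  have hF' : IsFractionRing φ.range K := IsFractionRing.of_field _ K fun y => by
    obtain ⟨a, ha, b, hb, -, e⟩ := hf y
    exact ⟨⟨a, ha⟩, ⟨b, hb⟩, e⟩
  have hk' : ∀ g, φ.rangeRestrict g = 0 ↔ g ∈ J := fun g => Subtype.ext_iff.trans (hk g)
  have hI : IsIntegrallyClosed φ.range := IsIntegrallyClosed.of_equiv
    ((Ideal.quotEquivOfEq (Ideal.ext fun g => (hk' g).symm)).trans
      (Ideal.quotientKerAlgEquivOfSurjective hs).toRingEquiv)
  have hI' : ∀ y : K, IsIntegral φ.range.toSubring y → y ∈ φ.range.toSubring := fun y hy => by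
    have hy' : IsIntegral φ.range y := hy
    obtain ⟨z, rfl⟩ := (isIntegrallyClosed_iff K).1 hI hy'
    exact z.2
  refine ⟨hft, hF', hI, ⟨h1, fun p hp _ => ⟨fun X Y hX hY => ?_, ?_⟩⟩, fun O hO _ _ X Y hX hY => ?_,
    { one_mem := ⟨1, isWeightedHomogeneous_one ℂ a, map_one φ.rangeRestrict⟩, mul_mem := ?_ },
    internal' a _ hs (fun g hg => (hk' _).2 (hF g ((hk' g).1 hg))), ?_, w, hw, fun c σ hσ X Y X' Y' hX hY => ?_⟩
  · have h6 : ∀ s ∉ p, (s : K) ≠ 0 := fun s hs h => hs (by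
      rw [show s = 0 from Subtype.ext h]; exact p.zero_mem)
    have h7 : ∀ X : Derivation ℂ K K, (∀ a ∈ stalk φ.range p, X a ∈ stalk _ p) →
        ∀ a ∈ φ.range, ∃ s ∈ p.primeCompl.map φ.range.val.toMonoidHom,
          s * X a ∈ φ.range := fun X hX a ha => by
      obtain ⟨b, s, hs, e⟩ := hX a (mem_loc p ha)
      refine ⟨s, ⟨s, hs, rfl⟩, ?_⟩
      rw [e]
      exact (mul_div_cancel₀ (b : K) (h6 s hs)).symm ▸ b.2
    obtain ⟨_, ⟨s, hs, rfl⟩, h⟩ := @regular_of _ _ _ ω _ hf h5 φ.range.toSubring hN hI'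
      (fun _ h => h) (p.primeCompl.map φ.range.val.toMonoidHom)
      (by rintro _ ⟨s, -, rfl⟩; exact s.2) _ _ (h7 X hX) (h7 Y hY)
    exact ⟨⟨_, h⟩, s, hs, (mul_div_cancel_left₀ _ (h6 s hs)).symm⟩
  · rintro _ ⟨⟨_, g, rfl⟩, ⟨_, s, rfl⟩, hs, rfl⟩
    let ξ : ι → K := fun i => (φ s)⁻¹ ^ 2 * (φ s * φ (pderiv i g) - φ g * φ (pderiv i s))
    have hm : ∀ g, φ g ∈ loc φ.range p := fun g => mem_loc p ⟨g, rfl⟩
    have hξ : ∀ i, ξ i ∈ loc φ.range p := fun i => mul_mem (pow_mem (inv_mem_loc p hs) 2)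
      (sub_mem (mul_mem (hm _) (hm _)) (mul_mem (hm _) (hm _)))
    obtain ⟨x, hx⟩ := h4 ξ
    refine ⟨x, loc_der p x ?_, fun Y => ?_⟩
    · rintro _ ⟨h, rfl⟩
      change x (φ h) ∈ _
      rw [Hy.D4.chain]
      exact sum_mem fun k _ => mul_mem (hm _) (hx k ▸ sum_mem fun i _ => mul_mem (hξ i) (hm _))
    · change _ = Y (φ g / φ s)
      rw [h2 x Y ξ hx, Derivation.leibniz_div, Hy.D4.chain φ Y g, Hy.D4.chain φ Y s]
      simp only [smul_eq_mul, Finset.mul_sum, ← Finset.sum_sub_distrib, ξ]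
      exact Finset.sum_congr rfl fun i _ => by ring
  · have : IsFractionRing O K := IsFractionRing.of_field _ K fun y => by
      obtain ⟨a, ha, b, hb, -, e⟩ := hf y
      exact ⟨⟨a, hO ha⟩, ⟨b, hO hb⟩, e⟩
    obtain ⟨s, hs, h6⟩ := regular_of ω _ hf h5 O (fun y hy => by
      obtain ⟨a, rfl⟩ := IsIntegrallyClosed.isIntegral_iff.1 hy
      exact a.2) (fun _ h' => hO h') ⊥ (fun s hs => Submonoid.mem_bot.1 hs ▸ one_mem O)
      (fun a ha => ⟨1, one_mem _, by simpa using hX a ha⟩)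
      (fun a ha => ⟨1, one_mem _, by simpa using hY a ha⟩)
    rwa [Submonoid.mem_bot.1 hs, one_mul] at h6
  · rintro e e' _ _ ⟨g, hg, rfl⟩ ⟨g', hg', rfl⟩
    exact ⟨g * g', IsWeightedHomogeneous.mul hg hg', map_mul φ.rangeRestrict g g'⟩
  · rintro _ ⟨g, hg, rfl⟩
    exact ⟨coeff 0 g, by rw [const a ha hg]; simp⟩
  · have hc : algebraMap ℂ K c ≠ 0 := by simp
    set t := algebraMap ℂ K c with ht
    have h6 : ∀ e g, IsWeightedHomogeneous a g e → σ (φ g) = t ^ e * φ g := fun e g hg => by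
      rw [ht, ← map_pow, ← Algebra.smul_def]
      exact hσ e _ ⟨g, hg, rfl⟩
    have h7 : ∀ i, σ (φ (.X i)) = t ^ a i * φ (.X i) := fun i =>
      h6 _ _ (isWeightedHomogeneous_X ℂ a i)
    have h8 : ∀ i j, t ^ w * σ (φ (Θ i j)) = t ^ a i * t ^ a j * φ (Θ i j) := fun i j => by
      by_cases h0 : Θ i j = 0
      · simp [h0]
      obtain ⟨e, he, hg⟩ := hom_rat a (hΘ i j) h0
      have h9 : w + e = a i + a j := by
        have : ((w + e : ℕ) : ℚ) = ((a i + a j : ℕ) : ℚ) := by push_cast; rw [he]; ring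
        exact_mod_cast this
      rw [h6 e _ hg, ← mul_assoc, ← pow_add, h9, pow_add]
    have h9 : ∀ (Z Z' : Derivation ℂ K K), (∀ y, Z' (σ y) = σ (Z y)) → ∀ i,
        σ (Z (φ (.X i))) = t ^ a i * Z' (φ (.X i)) := fun Z Z' hZ i => by
      rw [← hZ, h7, ht, ← map_pow, ← Algebra.smul_def, Derivation.map_smul, Algebra.smul_def]
    obtain ⟨ξ, hξ⟩ := h3 X
    have h10 : ∀ k, X' (φ (.X k)) = ∑ i, (σ (ξ i) * t ^ a i / t ^ w) * φ (Θ i k) := fun k => by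
      refine mul_left_cancel₀ (pow_ne_zero (a k) hc) ?_
      rw [← h9 X X' hX, hξ, map_sum, Finset.mul_sum]
      refine Finset.sum_congr rfl fun i _ => mul_left_cancel₀ (pow_ne_zero w hc) ?_
      rw [map_mul, mul_left_comm, h8]
      field_simp
    rw [h2 X Y ξ hξ, h2 X' Y' _ h10, map_sum, Algebra.smul_def, map_pow, ← ht, Finset.mul_sum]
    refine Finset.sum_congr rfl fun i _ => ?_
    rw [map_mul, h9 Y Y' hY]
    field_simp

theorem scale_mem {ι : Type} [Fintype ι] {J : Ideal (PP ι)} (hJ : HomI J) {g : PP ι}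
    (hg : g ∈ J) : scale (fun _ => 1) g ∈ J := by
  rw [← sum_homogeneousComponent g, map_sum]
  refine Ideal.sum_mem _ fun n _ => ?_
  rw [scale_hom (fun _ => 1) (e := n) (homogeneousComponent_isHomogeneous n g), smul_eq_C_mul]
  exact Ideal.mul_mem_left _ _ (hJ g hg n)

/-- the function field of the cone -/
theorem exists_field {ι : Type} (J : Ideal (PP ι)) (hp : J.IsPrime) :
    ∃ (K : Type) (_ : Field K) (_ : Algebra ℂ K) (φ : PP ι →ₐ[ℂ] K),
      (∀ g, φ g = 0 ↔ g ∈ J) ∧ ∀ y : K, ∃ a b, y = φ a / φ b := by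
  let S := MvPolynomial ι ℂ ⧸ J
  let φ : MvPolynomial ι ℂ →ₐ[ℂ] FractionRing S :=
    (IsScalarTower.toAlgHom ℂ S (FractionRing S)).comp (Ideal.Quotient.mkₐ ℂ _)
  refine ⟨FractionRing S, inferInstance, inferInstance, φ, fun g =>
    (map_eq_zero_iff _ (IsFractionRing.injective S (FractionRing S))).trans
      Ideal.Quotient.eq_zero_iff_mem, fun y => ?_⟩
  obtain ⟨a, b, -, rfl⟩ := IsFractionRing.div_surjective (A := S) y
  obtain ⟨a, rfl⟩ := Ideal.Quotient.mk_surjective a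
  obtain ⟨b, rfl⟩ := Ideal.Quotient.mk_surjective b
  exact ⟨a, b, rfl⟩

end D4

theorem d4 (d2 : Nc.S_D2) (d3 : Nc.S_D3) : Nc.S_D4 := by
  intro ι R _ _ _ _ _ q m J ω H Θ hM hE hp hn
  obtain ⟨K, _, _, φ, hk, hfr⟩ := D4.exists_field J hp
  obtain ⟨ω₀, h6, h7, h8, h9⟩ := d2 ι R q m J ω H Θ hM K φ hk hfr
  refine ⟨K, _, _, φ, ω₀, _, Ideal.ext hk,
    D4.conical' φ (a := fun _ => 1) (w := 1) (fun _ => one_pos) one_pos hk hfr hn
      (fun g hg => D4.scale_mem hM.hom hg)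
      (fun i j => (isHom_coe (hM.deg i j)).congr (by simp)) h6 h7 h8 h9 fun v x y hv hx hy => ?_,
    fun i => ⟨_, isWeightedHomogeneous_X ℂ (fun _ => 1) i, rfl⟩⟩
  obtain ⟨ξ, hξ⟩ := h8 x
  rw [h7 x y ξ hξ]
  exact d3 ι R q m J ω H Θ hM hE K φ hk v x y ξ (fun g => hv _ ⟨g, rfl⟩) hx hy hξ

end Pool.Agent.MP_51db15_ag.Nc
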