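import Pool.Agent.MP_51db15_ag.Nc.Base
import Pool.Agent.MP_51db15_ag.Hy.NAG
import Pool.Agent.MP_51db15_ag.Hy.NN
import Pool.Agent.MP_51db15_ag.Hy.WP
import Pool.Agent.MP_51db15_ag.Hy.P2

/-! The Jacobian criterion for a pair of primes. -/

namespace Pool.Agent.MP_51db15_ag.Nc

open MvPowerSeries Matrix Hy

namespace Ja

variable {O : Type} [CommRing O] [IsNoetherianRing O] {I J Q : Ideal O}

/-- one denominator for all members -/
theorem unif [Q.IsPrime] (h : ∀ h ∈ J, ∃ s ∉ Q, s * h ∈ I) : ∃ s ∉ Q, ∀ h ∈ J, s * h ∈ I := by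
  classical
  obtain ⟨T, hT⟩ : J.FG := IsNoetherian.noetherian J
  choose! s h1 h2 using h
  have hm : ∀ g ∈ T, g ∈ J := fun g hg => hT ▸ Ideal.subset_span hg
  refine ⟨∏ g ∈ T, s g, Q.primeCompl.prod_mem fun g hg => h1 g (hm g hg), fun g hg => ?_⟩
  rw [← hT] at hg
  induction hg using Submodule.span_induction with
  | mem x hx =>
    rw [← Finset.prod_erase_mul _ _ hx, mul_assoc]
    exact I.mul_mem_left _ (h2 x (hm x hx))
  | zero => rw [mul_zero]; exact I.zero_mem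
  | add x y _ _ hx hy => rw [mul_add]; exact I.add_mem hx hy
  | smul a x _ hx => rw [smul_eq_mul, mul_left_comm]; exact I.mul_mem_left _ hx

theorem nak [Q.IsPrime] (h : ∀ h ∈ J, ∃ s ∈ Q.primeCompl, s * h ∈ I ⊔ Q * J) :
    ∀ h ∈ J, ∃ s ∉ Q, s * h ∈ I := by
  intro g hg
  have : J.map (algebraMap O (Localization.AtPrime Q)) ≤ I.map (algebraMap O _) := by
    refine Submodule.le_of_le_smul_of_le_jacobson_bot (IsNoetherian.noetherian _)
      (I := Q.map (algebraMap O (Localization.AtPrime Q))) ?_ ?_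
    · rw [Localization.AtPrime.map_eq_maximalIdeal]
      exact IsLocalRing.maximalIdeal_le_jacobson _
    · rw [smul_eq_mul, ← Ideal.map_mul, ← Ideal.map_sup]
      exact Ideal.map_le_iff_le_comap.2 fun y hy =>
        (IsLocalization.algebraMap_mem_map_algebraMap_iff Q.primeCompl _ _ _).2 (h y hy)
  exact (IsLocalization.algebraMap_mem_map_algebraMap_iff Q.primeCompl _ _ _).1
    (this (Ideal.mem_map_of_mem _ hg))

omit [IsNoetherianRing O] in
theorem det_ne {ι : Type} [Fintype ι] [DecidableEq ι] [Q.IsPrime] {U W : Matrix ι ι O}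
    (c e : ι → O) (i₀ : ι) (hc : ∀ i, c i ∉ Q) (he : e i₀ = 0)
    (h : ∀ i j, W i j - (c i * U i j - e i * U i₀ j) ∈ Q) (hU : U.det ∉ Q) : W.det ∉ Q := by
  intro hW
  apply hU
  rw [← Ideal.Quotient.eq_zero_iff_mem, RingHom.map_det, ← exists_mulVec_eq_zero_iff] at hW ⊢
  obtain ⟨v, v0, hv⟩ := hW
  refine ⟨v, v0, ?_⟩
  set π := Ideal.Quotient.mk Q
  have c0 : ∀ i, π (c i) ≠ 0 := fun i h => hc i (Ideal.Quotient.eq_zero_iff_mem.1 h)
  have key : ∀ i, π (c i) * (π.mapMatrix U *ᵥ v) i - π (e i) * (π.mapMatrix U *ᵥ v) i₀ = 0 := by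
    intro i
    rw [← show (π.mapMatrix W *ᵥ v) i = 0 from congrFun hv i]
    simp only [mulVec, dotProduct, RingHom.mapMatrix_apply, map_apply, Finset.mul_sum,
      ← Finset.sum_sub_distrib]
    refine Finset.sum_congr rfl fun j _ => ?_
    have h1 : π (W i j) = π (c i * U i j - e i * U i₀ j) := Ideal.Quotient.eq.2 (h i j)
    rw [h1, map_sub, map_mul, map_mul]
    ring
  have k0 : (π.mapMatrix U *ᵥ v) i₀ = 0 := by
    have h1 := key i₀
    rw [he, map_zero, zero_mul, sub_zero] at h1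
    exact (mul_eq_zero.1 h1).resolve_left (c0 i₀)
  funext i
  have h1 := key i
  rw [k0, mul_zero, sub_zero] at h1
  exact (mul_eq_zero.1 h1).resolve_left (c0 i)

theorem main [Algebra ℂ O] {ι : Type} [Fintype ι] [DecidableEq ι] (D : ι → Derivation ℂ O O)
    (hJ : J.IsPrime) (hQ : Q.IsPrime) (hle : J ≤ Q) (hP : Prin J Q) {u : ι → O} {S : Finset ι}
    (hd : (Matrix.of fun i j => D j (u i)).det ∉ Q) (hu : ∀ i ∈ S, u i ∈ Q)
    (hs : ∀ h ∈ Q, ∃ s ∉ Q, s * h ∈ Ideal.span (u '' S)) :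
    ∃ (σ : Finset ι) (w : ι → O) (s : O), (∀ i ∈ σ, w i ∈ J) ∧
      (Matrix.of fun i j => D j (w i)).det ∉ Q ∧ s ∉ J ∧
      ∀ h ∈ J, s * h ∈ Ideal.span (w '' σ) := by
  by_cases hall : ∀ i ∈ S, u i ∈ J
  · obtain ⟨s, s1, s2⟩ := unif (J := J) fun h hh => hs h (hle hh)
    exact ⟨S, u, s, hall, hd, fun h => s1 (hle h), s2⟩
  push Not at hall
  obtain ⟨i₁, hi₁, hn⟩ := hall
  obtain ⟨π, hπ, s₀, hs₀, ha⟩ := hP
  choose! t ht using fun i (hi : i ∈ S) => ha (u i) (hu i hi)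
  have hπJ : π ∉ J := fun h => by
    have h1 := J.add_mem (ht i₁ hi₁) (J.mul_mem_left (t i₁) h)
    rw [sub_add_cancel] at h1
    exact (hJ.mem_or_mem h1).elim (fun h => hs₀ (hle h)) hn
  obtain ⟨i₀, hi₀, ht₀⟩ : ∃ i ∈ S, t i ∉ Q := by
    by_contra hc
    push Not at hc
    have key : ∀ g ∈ Ideal.span (u '' S), ∃ b ∈ Q, s₀ * g - b * π ∈ J := by
      intro g hg
      induction hg using Submodule.span_induction with
      | mem x hx =>
        obtain ⟨i, hi, rfl⟩ := hx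
        exact ⟨t i, hc i hi, ht i hi⟩
      | zero => exact ⟨0, Q.zero_mem, by simp⟩
      | add x y _ _ hx hy =>
        obtain ⟨b, b1, b2⟩ := hx
        obtain ⟨b', b1', b2'⟩ := hy
        exact ⟨b + b', Q.add_mem b1 b1', by convert J.add_mem b2 b2' using 1; ring⟩
      | smul a x _ hx =>
        obtain ⟨b, b1, b2⟩ := hx
        exact ⟨a * b, Q.mul_mem_left a b1, by
          convert J.mul_mem_left a b2 using 1; rw [smul_eq_mul]; ring⟩
    obtain ⟨s₁, s1, s2⟩ := hs π hπ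
    obtain ⟨b, b1, b2⟩ := key _ s2
    have h1 : (s₀ * s₁ - b) * π ∈ J := by convert b2 using 1; ring
    have h2 := Q.add_mem (hle ((hJ.mem_or_mem h1).resolve_right hπJ)) b1
    rw [sub_add_cancel] at h2
    exact (hQ.mem_or_mem h2).elim hs₀ s1
  have hu₀ : u i₀ ∉ J := fun h => by
    have h1 := J.sub_mem (J.mul_mem_left s₀ h) (ht i₀ hi₀)
    rw [sub_sub_cancel] at h1
    exact (hJ.mem_or_mem h1).elim (fun h => ht₀ (hle h)) hπJ
  let w : ι → O := fun i => if i ∈ S.erase i₀ then t i₀ * u i - t i * u i₀ else u i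
  have w1 : ∀ i ∈ S.erase i₀, w i = t i₀ * u i - t i * u i₀ := fun i hi => if_pos hi
  have wJ : ∀ i ∈ S.erase i₀, w i ∈ J := fun i hi => by
    have h1 : s₀ * w i ∈ J := by
      rw [w1 i hi]
      convert J.sub_mem (J.mul_mem_left (t i₀) (ht i (Finset.mem_of_mem_erase hi)))
        (J.mul_mem_left (t i) (ht i₀ hi₀)) using 1
      ring
    exact (hJ.mem_or_mem h1).resolve_left fun h => hs₀ (hle h)
  have IJ : Ideal.span (w '' (S.erase i₀ : Finset ι)) ≤ J :=
    Ideal.span_le.2 (by rintro _ ⟨i, hi, rfl⟩; exact wJ i hi)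
  have key : ∀ g ∈ Ideal.span (u '' S),
      ∃ b, t i₀ * g - u i₀ * b ∈ Ideal.span (w '' (S.erase i₀ : Finset ι)) := by
    intro g hg
    induction hg using Submodule.span_induction with
    | mem x hx =>
      obtain ⟨i, hi, rfl⟩ := hx
      by_cases e : i = i₀
      · exact ⟨t i₀, by rw [e, mul_comm, sub_self]; exact Ideal.zero_mem _⟩
      · have h1 : i ∈ S.erase i₀ := Finset.mem_erase.2 ⟨e, hi⟩
        exact ⟨t i, by rw [mul_comm (u i₀), ← w1 i h1]; exact Ideal.subset_span ⟨i, h1, rfl⟩⟩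
    | zero => exact ⟨0, by simp⟩
    | add x y _ _ hx hy =>
      obtain ⟨b, b2⟩ := hx
      obtain ⟨b', b2'⟩ := hy
      exact ⟨b + b', by convert Ideal.add_mem _ b2 b2' using 1; ring⟩
    | smul a x _ hx =>
      obtain ⟨b, b2⟩ := hx
      exact ⟨a * b, by convert Ideal.mul_mem_left _ a b2 using 1; rw [smul_eq_mul]; ring⟩
  obtain ⟨s, s1, s2⟩ := unif (J := J) (Q := Q) (I := Ideal.span (w '' (S.erase i₀ : Finset ι)))
    (nak fun h hh => by
      obtain ⟨s, s1, s2⟩ := hs h (hle hh)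
      obtain ⟨b, hb⟩ := key _ s2
      have h1 : u i₀ * b ∈ J := by
        have h2 := J.sub_mem (J.mul_mem_left (t i₀) (J.mul_mem_left s hh)) (IJ hb)
        rwa [sub_sub_cancel] at h2
      refine ⟨t i₀ * s, Q.primeCompl.mul_mem ht₀ s1, ?_⟩
      have h3 := Submodule.add_mem_sup hb
        (Ideal.mul_mem_mul (hu i₀ hi₀) ((hJ.mem_or_mem h1).resolve_left hu₀))
      rwa [sub_add_cancel, ← mul_assoc] at h3)
  refine ⟨S.erase i₀, w, s, wJ, ?_, fun h => s1 (hle h), s2⟩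
  refine det_ne (fun i => if i ∈ S.erase i₀ then t i₀ else 1)
    (fun i => if i ∈ S.erase i₀ then t i else 0) i₀ (fun i => ?_) (if_neg (by simp))
    (fun i j => ?_) hd
  · split_ifs
    · exact ht₀
    · exact Q.primeCompl.one_mem
  · simp only [of_apply, w]
    split_ifs with hi
    · have h1 := Q.sub_mem (Q.mul_mem_right (D j (t i₀)) (hu i (Finset.mem_of_mem_erase hi)))
        (Q.mul_mem_right (D j (t i)) (hu i₀ hi₀))
      convert h1 using 1
      simp only [map_sub, Derivation.leibniz, smul_eq_mul]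
      ring
    · simp

end Ja

theorem ja : S_JA := by
  intro ι _ _ J Q hJ hQ hle hP
  obtain ⟨u, S, h1, h2, h3⟩ := nag p3 (nn (wp p3 p2)) ι Q hQ
  exact Ja.main (fun j => pderiv ℂ j) hJ hQ hle hP h1 h2 h3

end Pool.Agent.MP_51db15_ag.Nc
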