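import Pool.Agent.MP_51db15_ag.Nc.Base

/-! Row Jb: homogeneous Jacobian data. -/

namespace Pool.Agent.MP_51db15_ag.Nc

open MvPowerSeries Matrix Hy

namespace Jb

variable {ι : Type} [Fintype ι] [DecidableEq ι]

noncomputable def jac (w : ι → PS ι) : Matrix ι ι (PS ι) := Matrix.of fun i j => pderiv ℂ j (w i)

theorem det_update (w : ι → PS ι) (i : ι) (g : PS ι) :
    (jac (Function.update w i g)).det = vf (fun j => (jac w)ᵀ.adjugate i j) g := by
  have e : jac (Function.update w i g) = (jac w).updateRow i fun j => pderiv ℂ j g := by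
    ext1 k j
    by_cases h : k = i
    · subst h
      simp [jac]
    · simp [jac, h]
  rw [e, ← cramer_transpose_apply, cramer_eq_adjugate_mulVec, vf_apply]
  rfl

theorem step (Q : Ideal (PS ι)) (w : ι → PS ι) (i : ι) (h : (jac w).det ∉ Q) :
    ∃ n, (jac (Function.update w i (hc n (w i) : PS ι))).det ∉ Q := by
  by_contra h1
  push Not at h1
  simp only [det_update] at h1
  rw [← Function.update_eq_self i w, det_update] at h
  refine h (mem_ideal_of_approx Q fun r => ⟨_, Q.sum_mem (t := Finset.range (r + 1))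
    fun k _ => h1 k, ?_⟩)
  rw [← map_sum, ← map_sub, vf_apply]
  exact mem_pow_iff_order.1 (Ideal.sum_mem _ fun j _ => Ideal.mul_mem_left _ _
    (mem_pow_iff_order.2 (le_order_pderiv (order_sub_sum_hc (r + 1) (w i)) j)))

theorem homog (Q : Ideal (PS ι)) (w : ι → PS ι) (h : (jac w).det ∉ Q) (T : Finset ι) :
    ∃ n : ι → ℕ, (jac fun i => if i ∈ T then (hc (n i) (w i) : PS ι) else w i).det ∉ Q := by
  induction T using Finset.induction_on with
  | empty => exact ⟨0, by simpa using h⟩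
  | insert i T hi ih =>
    obtain ⟨n, hn⟩ := ih
    obtain ⟨k, hk⟩ := step Q _ i hn
    refine ⟨Function.update n i k, ?_⟩
    convert hk using 4
    funext j
    by_cases e : j = i
    · subst e
      simp [hi]
    · simp [e]

theorem change {J : Ideal (PS ι)} (hJ : J.IsPrime) (σ : Finset ι) (w w' : ι → PS ι) (s : PS ι)
    (hw : ∀ i ∈ σ, w i ∈ J) (hw' : ∀ i ∈ σ, w' i ∈ J) (hd : (jac w').det ∉ J) (hs : s ∉ J)
    (h : ∀ g ∈ J, s * g ∈ Ideal.span (w '' σ)) :
    ∃ t ∉ J, ∀ g ∈ J, t * g ∈ Ideal.span (w' '' σ) := by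
  choose! c hc using fun a (ha : a ∈ σ) =>
    (Submodule.mem_span_image_finset_iff_exists_fun' (PS ι)).1 (h _ (hw' a ha))
  simp only [smul_eq_mul] at hc
  obtain ⟨B, hB⟩ : ∃ B : Matrix ι ι (PS ι), ∀ (u : ι → PS ι) a, (B *ᵥ u) a =
      if a ∈ σ then ∑ b ∈ σ, c a b * u b else u a := by
    refine ⟨Matrix.of fun a b => if a ∈ σ then (if b ∈ σ then c a b else 0) else
      if a = b then 1 else 0, fun u a => ?_⟩
    by_cases ha : a ∈ σ <;> simp [mulVec, dotProduct, ha]
  have hdet : B.det ∉ J := fun hb => by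
    have e : (Ideal.Quotient.mk J).mapMatrix (diagonal (fun a => if a ∈ σ then s else 1) * jac w') =
        (Ideal.Quotient.mk J).mapMatrix (B * jac fun b => if b ∈ σ then w b else w' b) := by
      ext1 a j
      refine Ideal.Quotient.eq.2 ?_
      have e1 := hB (fun b => pderiv ℂ j (if b ∈ σ then w b else w' b)) a
      rw [diagonal_mul]
      change _ * pderiv ℂ j (w' a) -
        (B *ᵥ fun b => pderiv ℂ j (if b ∈ σ then w b else w' b)) a ∈ J
      rw [e1]
      by_cases ha : a ∈ σ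
      · have e2 := congrArg (pderiv ℂ j) (hc a ha)
        simp only [map_sum, Derivation.leibniz, smul_eq_mul, Finset.sum_add_distrib] at e2
        rw [if_pos ha, if_pos ha, Finset.sum_congr rfl fun b hb => by rw [if_pos hb],
          show s * pderiv ℂ j (w' a) - ∑ b ∈ σ, c a b * pderiv ℂ j (w b) =
            ∑ b ∈ σ, w b * pderiv ℂ j (c a b) - w' a * pderiv ℂ j s by linear_combination -e2]
        exact sub_mem (J.sum_mem fun b hb => J.mul_mem_right _ (hw b hb))
          (J.mul_mem_right _ (hw' a ha))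
      · simp [ha]
    have e3 := congrArg det e
    rw [← RingHom.map_det, ← RingHom.map_det, det_mul, det_mul, det_diagonal,
      Ideal.Quotient.eq_zero_iff_mem.2 (J.mul_mem_right _ hb), Ideal.Quotient.eq_zero_iff_mem] at e3
    rcases hJ.mem_or_mem e3 with h1 | h1
    · obtain ⟨a, -, ha⟩ := Ideal.IsPrime.prod_mem_iff.1 h1
      split_ifs at ha
      · exact hs ha
      · exact hJ.ne_top ((Ideal.eq_top_iff_one _).2 ha)
    · exact hd h1
  have hw2 : ∀ b ∈ σ, B.det * w b ∈ Ideal.span (w' '' σ) := fun b hb => by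
    have e := congrFun (mulVec_mulVec (fun a => if a ∈ σ then w a else 0) B.adjugate B) b
    rw [adjugate_mul, smul_mulVec, one_mulVec, Pi.smul_apply, if_pos hb, smul_eq_mul] at e
    rw [← e]
    refine Ideal.sum_mem _ fun a _ => Ideal.mul_mem_left _ _ ?_
    rw [hB]
    by_cases ha : a ∈ σ
    · rw [if_pos ha, Finset.sum_congr rfl fun b hb => by rw [if_pos hb], hc a ha]
      exact Ideal.mul_mem_left _ _ (Ideal.subset_span ⟨a, ha, rfl⟩)
    · simp [ha]
  refine ⟨B.det * s, fun h1 => (hJ.mem_or_mem h1).elim hdet hs, fun g hg => ?_⟩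
  obtain ⟨d, hd⟩ := (Submodule.mem_span_image_finset_iff_exists_fun' (PS ι)).1 (h g hg)
  rw [mul_assoc, ← hd, Finset.mul_sum]
  refine Ideal.sum_mem _ fun b hb => ?_
  rw [smul_eq_mul, mul_left_comm]
  exact Ideal.mul_mem_left _ _ (hw2 b hb)

omit [DecidableEq ι] in
theorem hc_span (σ : Finset ι) (w : ι → PP ι) (n : ι → ℕ) (hw : ∀ i, (w i).IsHomogeneous (n i))
    {g : PS ι} (hg : g ∈ Ideal.span ((fun i => (w i : PS ι)) '' σ)) (k : ℕ) :
    hc k g ∈ Ideal.span (w '' σ) := by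
  obtain ⟨d, rfl⟩ := (Submodule.mem_span_image_finset_iff_exists_fun' (PS ι)).1 hg
  rw [hc_sum]
  refine Ideal.sum_mem _ fun b hb => ?_
  rw [smul_eq_mul, mul_comm]
  rcases lt_or_ge k (n b) with h | h
  · rw [hc_hom_mul_lt (hw b) h]
    exact zero_mem _
  · obtain ⟨l, rfl⟩ := Nat.exists_eq_add_of_le h
    rw [hc_hom_mul (hw b)]
    exact Ideal.mul_mem_right _ _ (Ideal.subset_span ⟨b, hb, rfl⟩)

omit [DecidableEq ι] in
theorem prin {J Q : Ideal (PP ι)} (hQ : HomI Q) (h : Prin J Q) :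
    Prin (J.map (co ι)) (Q.map (co ι)) := by
  obtain ⟨π, hπ, s, hs, h⟩ := h
  refine ⟨π, Ideal.mem_map_of_mem (co ι) hπ, s, mt (coe_mem_hat hQ).1 hs, fun g hg => ?_⟩
  induction hg using Submodule.span_induction with
  | mem x hx =>
    obtain ⟨F, hF, rfl⟩ := hx
    obtain ⟨a, ha⟩ := h F hF
    have h1 := Ideal.mem_map_of_mem (co ι) ha
    rw [map_sub, map_mul, map_mul] at h1
    exact ⟨a, h1⟩
  | zero => exact ⟨0, by simp⟩
  | add x y _ _ hx hy =>
    obtain ⟨a, ha⟩ := hx
    obtain ⟨b, hb⟩ := hy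
    exact ⟨a + b, by convert add_mem ha hb using 1; ring⟩
  | smul r x _ hx =>
    obtain ⟨a, ha⟩ := hx
    exact ⟨r * a, by convert Ideal.mul_mem_left _ r ha using 1; rw [smul_eq_mul]; ring⟩

end Jb

open Jb in
theorem jb (hA : S_JA) : S_JB := by
  intro ι _ _ J Q hJ hQ iJ iQ hle hP
  have hle' : J.map (co ι) ≤ Q.map (co ι) := Ideal.map_mono hle
  obtain ⟨σ, w, s, hw, hd, hs, h⟩ :=
    hA ι _ _ (hat_prime iJ hJ) (hat_prime iQ hQ) hle' (prin iQ hP)
  obtain ⟨n, hn⟩ := homog _ w hd Finset.univ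
  simp only [Finset.mem_univ, if_true] at hn
  have hw' : ∀ i ∈ σ, hc (n i) (w i) ∈ J := fun i hi => (mem_hat iJ).1 (hw i hi) _
  obtain ⟨t, ht, h1⟩ := change (hat_prime iJ hJ) σ w (fun i => (hc (n i) (w i) : PS ι)) s hw
    (fun i hi => (coe_mem_hat iJ).2 (hw' i hi)) (fun h2 => hn (hle' h2)) hs h
  obtain ⟨e, he⟩ := not_forall.1 (mt (mem_hat iJ).2 ht)
  refine ⟨σ, fun i => hc (n i) (w i), n, hc e t, e, fun i => hc_hom _ _, hw', fun h2 => hn ?_,
    hc_hom _ _, he, fun g hg => ?_⟩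
  · have h3 := Ideal.mem_map_of_mem (co ι) h2
    rw [RingHom.map_det] at h3
    convert h3 using 2
    ext1 i j
    exact pderiv_coe _
  · rw [← MvPolynomial.sum_homogeneousComponent g, Finset.mul_sum]
    refine Ideal.sum_mem _ fun d _ => ?_
    rw [mul_comm, ← hc_hom_mul (MvPolynomial.homogeneousComponent_isHomogeneous d g), mul_comm]
    exact hc_span σ _ n (fun i => hc_hom _ _) (h1 _ ((coe_mem_hat iJ).2 (iJ g hg d))) _

end Pool.Agent.MP_51db15_ag.Nc
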