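import Pool.Agent.MP_51db15_ag.Nc.Base

/-! A derivation that is a multiple of the Euler field to leading order. -/

namespace Pool.Agent.MP_51db15_ag.Nc

open MvPowerSeries Matrix Hy

namespace Jc

section Det

variable {A ι : Type} [CommRing A] {I : Ideal A}

theorem prod_mem (s : Finset ι) {a : ι → A} {n : ι → ℕ} (ha : ∀ i, a i ∈ I ^ n i) :
    ∏ i ∈ s, a i ∈ I ^ ∑ i ∈ s, n i := by
  rw [← Finset.prod_pow_eq_pow_sum]
  exact Ideal.prod_mem_prod fun i _ => ha i

theorem mul_mem {a b : ℕ} {r s : A} (hr : r ∈ I ^ a) (hs : s ∈ I ^ b) {n : ℕ}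
    (h : n ≤ a + b) : r * s ∈ I ^ n :=
  Ideal.pow_le_pow_right h (by rw [pow_add]; exact Ideal.mul_mem_mul hr hs)

theorem prod_sub_mem (s : Finset ι) {a b : ι → A} {n : ι → ℕ} (ha : ∀ i, a i ∈ I ^ n i)
    (hb : ∀ i, b i ∈ I ^ n i) (hab : ∀ i, a i - b i ∈ I ^ (n i + 1)) :
    ∏ i ∈ s, a i - ∏ i ∈ s, b i ∈ I ^ (∑ i ∈ s, n i + 1) := by
  classical
  induction s using Finset.induction_on with
  | empty => simp
  | insert i s hi ih =>
    rw [Finset.prod_insert hi, Finset.prod_insert hi, Finset.sum_insert hi]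
    have e : a i * ∏ j ∈ s, a j - b i * ∏ j ∈ s, b j =
        a i * (∏ j ∈ s, a j - ∏ j ∈ s, b j) + (a i - b i) * ∏ j ∈ s, b j := by ring
    rw [e]
    exact Ideal.add_mem _ (mul_mem (ha i) ih (by omega))
      (mul_mem (hab i) (prod_mem s hb) (by omega))

variable [Fintype ι] [DecidableEq ι]

theorem det_mem {W : Matrix ι ι A} {n c : ι → ℕ} (h : ∀ i j, W i j ∈ I ^ (n i + c j)) :
    W.det ∈ I ^ (∑ i, n i + ∑ j, c j) := by
  rw [Matrix.det_apply']
  refine Ideal.sum_mem _ fun σ _ => Ideal.mul_mem_left _ _ ?_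
  have h1 := prod_mem (I := I) Finset.univ (a := fun i => W (σ i) i)
    (n := fun i => n (σ i) + c i) fun i => h _ _
  rwa [Finset.sum_add_distrib, Equiv.sum_comp σ n] at h1

theorem det_sub_mem {W V : Matrix ι ι A} {n : ι → ℕ} (h1 : ∀ i j, W i j ∈ I ^ n i)
    (h2 : ∀ i j, V i j ∈ I ^ n i) (h3 : ∀ i j, W i j - V i j ∈ I ^ (n i + 1)) :
    W.det - V.det ∈ I ^ (∑ i, n i + 1) := by
  rw [Matrix.det_apply', Matrix.det_apply', ← Finset.sum_sub_distrib]
  refine Ideal.sum_mem _ fun σ _ => ?_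
  rw [← mul_sub]
  refine Ideal.mul_mem_left _ _ ?_
  have h4 := prod_sub_mem (I := I) Finset.univ (a := fun i => W (σ i) i)
    (b := fun i => V (σ i) i) (n := fun i => n (σ i)) (fun i => h1 _ _) (fun i => h2 _ _)
    fun i => h3 _ _
  rwa [Equiv.sum_comp σ n] at h4

theorem det_hom {W : Matrix ι ι (PP ι)} {n : ι → ℕ} (h : ∀ i j, (W i j).IsHomogeneous (n i)) :
    W.det.IsHomogeneous (∑ i, n i) := by
  rw [Matrix.det_apply']
  refine MvPolynomial.IsHomogeneous.sum _ _ _ fun σ _ => ?_
  have h1 := MvPolynomial.IsHomogeneous.prod Finset.univ (fun i => W (σ i) i)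
    (fun i => n (σ i)) fun i _ => h _ _
  rw [Equiv.sum_comp σ n] at h1
  have h2 := (MvPolynomial.isHomogeneous_C ι ((Equiv.Perm.sign σ : ℤ) : ℂ)).mul h1
  rwa [zero_add, map_intCast] at h2

theorem cramer_sub (W : Matrix ι ι A) (z x : ι → A) (k : ι) :
    cramer W z k - W.det * x k = (W.updateCol k (z - W *ᵥ x)).det := by
  have h1 : cramer W (W *ᵥ x) = W.det • x := by
    rw [cramer_eq_adjugate_mulVec, mulVec_mulVec, adjugate_mul, smul_mulVec, one_mulVec]
  rw [← cramer_apply, map_sub, h1]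
  rfl

end Det

variable {ι R : Type} [Fintype ι] [DecidableEq ι] [CommRing R] [Algebra ℂ R]
  {q : PS ι →ₐ[ℂ] R} {m : Ideal R} {J : Ideal (PP ι)}

omit [DecidableEq ι] in
/-- a field that kills enough equations is tangent -/
theorem tangent (hq : Pres q m) (hJ : Cone q m J) (hd : Dom m) {σ : Finset ι} {w : ι → PP ι}
    {dg : ι → ℕ} {G : PP ι} {e : ℕ} (hw : ∀ i, (w i).IsHomogeneous (dg i))
    (hG : G.IsHomogeneous e) (hGJ : G ∉ J) (hs : ∀ h ∈ J, G * h ∈ Ideal.span (w '' σ))
    {u x : ι → PS ι} (hu : ∀ i, ((dg i + 1 : ℕ) : ℕ∞) ≤ (u i).order)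
    (hk : ∀ i ∈ σ, q ((w i : PS ι) - u i) = 0) (hx : ∀ i, q (x i) ∈ m)
    (hv : ∀ i ∈ σ, vf x ((w i : PS ι) - u i) = 0) (g : PS ι) (hg : q g = 0) :
    q (vf x g) = 0 := by
  have key : ∀ (k n : ℕ) (g : PS ι), q g = 0 → (n : ℕ∞) ≤ g.order →
      q (vf x g) ∈ m ^ (n + k) := by
    intro k
    induction k with
    | zero =>
      intro n g _ h2
      rcases n with _ | n
      · simp
      · rw [vf_apply, map_sum]
        refine Ideal.sum_mem _ fun i _ => ?_
        rw [map_mul]
        exact mul_mem (a := 1) (by rw [pow_one]; exact hx i)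
          (hq.q_mem (le_order_pderiv h2 i)) (by omega)
    | succ k ih =>
      intro n g h1 h2
      have h3 : hc n g ∈ J := (hJ.mem n _ (hc_hom n g)).2 (by
        have h4 := hq.q_mem (order_sub_hc h2)
        rwa [map_sub, h1, zero_sub, neg_mem_iff] at h4)
      obtain ⟨B, hB⟩ := (Submodule.mem_span_image_finset_iff_exists_fun' _).1 (hs _ h3)
      let B' : ι → PP ι := fun a => if dg a ≤ e + n then hc (e + n - dg a) (B a : PS ι) else 0
      have h5 : G * hc n g = ∑ a ∈ σ, w a * B' a := by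
        rw [← hc_coe_self (hG.mul (hc_hom n g)), ← hB, ← co_apply, map_sum, hc_sum]
        refine Finset.sum_congr rfl fun a _ => ?_
        rw [smul_eq_mul, mul_comm, map_mul, co_apply, co_apply]
        by_cases h : dg a ≤ e + n
        · have h6 := hc_hom_mul (hw a) (e + n - dg a) (B a : PS ι)
          rw [Nat.add_sub_cancel' h] at h6
          rw [h6]
          simp only [B', if_pos h]
        · rw [hc_hom_mul_lt (hw a) (by omega)]
          simp only [B', if_neg h, mul_zero]
      have h7 : (G : PS ι) * (hc n g : PS ι) = ∑ a ∈ σ, (w a : PS ι) * (B' a : PS ι) := by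
        have h8 := congrArg (co ι) h5
        rw [map_mul, map_sum] at h8
        simpa only [map_mul, co_apply] using h8
      have h9 : (G : PS ι) * g - ∑ a ∈ σ, (B' a : PS ι) * ((w a : PS ι) - u a) =
          (G : PS ι) * (g - (hc n g : PS ι)) + ∑ a ∈ σ, (B' a : PS ι) * u a := by
        rw [mul_sub, h7]
        simp only [mul_sub, Finset.sum_sub_distrib, mul_comm (B' _ : PS ι) (w _ : PS ι)]
        ring
      have h10 : ((e + n + 1 : ℕ) : ℕ∞) ≤
          ((G : PS ι) * g - ∑ a ∈ σ, (B' a : PS ι) * ((w a : PS ι) - u a)).order := by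
        rw [h9, ← mem_pow_iff_order]
        refine Ideal.add_mem _ (mul_mem (mem_pow_iff_order.2 (le_order_coe hG))
          (mem_pow_iff_order.2 (order_sub_hc h2)) (by omega)) (Ideal.sum_mem _ fun a _ => ?_)
        by_cases h : dg a ≤ e + n
        · simp only [B', if_pos h]
          exact mul_mem (mem_pow_iff_order.2 (le_order_coe (hc_hom _ _)))
            (mem_pow_iff_order.2 (hu a)) (by omega)
        · simp [B', if_neg h]
      have h11 := ih _ _ (by
        rw [map_sub, map_mul, h1, mul_zero, map_sum, Finset.sum_eq_zero, sub_zero]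
        intro a ha
        rw [map_mul, hk a ha, mul_zero]) h10
      have h12 : q (vf x ((G : PS ι) * g - ∑ a ∈ σ, (B' a : PS ι) * ((w a : PS ι) - u a))) =
          q (G : PS ι) * q (vf x g) := by
        rw [map_sub, map_sum, map_sub, map_sum, Finset.sum_eq_zero, sub_zero, vf_mul, map_add,
          map_mul, map_mul, h1]
        · ring
        · intro a ha
          rw [vf_mul, hv a ha, map_add, map_mul, map_mul, hk a ha]
          simp
      rw [h12] at h11
      exact hd e _ _ _ (hq.hom_mem hG) (fun h => hGJ ((hJ.mem e G hG).2 h))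
        (Ideal.pow_le_pow_right (by omega) h11)
  refine hq.sep fun k => ?_
  simpa using key k 0 g hg (by simp)

end Jc

open Jc in
theorem jc : S_JC := by
  intro ι R _ _ _ _ _ q m J Q hq hJ hd ⟨σ, w, dg, G, e, hw, hσ, hdet, hG, hGJ, hs⟩
  have h0 : ∀ i, ∃ n, dg i = n + 1 := fun i => by
    refine Nat.exists_eq_succ_of_ne_zero fun h => hdet ?_
    rw [det_eq_zero_of_row_eq_zero i]
    · exact Q.zero_mem
    · intro j
      have h1 := hw i
      rw [h, ← MvPolynomial.totalDegree_zero_iff_isHomogeneous,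
        MvPolynomial.totalDegree_eq_zero_iff_eq_C] at h1
      rw [of_apply, h1, MvPolynomial.pderiv_C]
  choose n hn using h0
  have h2 : ∀ i, ∃ u : PS ι, ((dg i + 1 : ℕ) : ℕ∞) ≤ u.order ∧
      (i ∈ σ → q ((w i : PS ι) - u) = 0) := fun i => by
    by_cases h : i ∈ σ
    · obtain ⟨u, h3, h4⟩ := hq.mem_pow.1 ((hJ.mem _ _ (hw i)).1 (hσ i h))
      exact ⟨u, h3, fun _ => by rw [map_sub, h4, sub_self]⟩
    · exact ⟨0, by simp, fun h' => absurd h' h⟩
  choose u hu hk using h2
  let W : Matrix ι ι (PS ι) := Matrix.of fun i j => pderiv ℂ j ((w i : PS ι) - u i)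
  let V : Matrix ι ι (PP ι) := Matrix.of fun i j => MvPolynomial.pderiv j (w i)
  let z : ι → PS ι := fun i => if i ∈ σ then 0 else (dg i : PS ι) * (w i : PS ι)
  have hV : ∀ i j, (V i j).IsHomogeneous (n i) := fun i j => by
    have h3 := (hw i).pderiv (i := j)
    rwa [hn, Nat.add_sub_cancel] at h3
  have hWV : ∀ i j, W i j = (V i j : PS ι) - pderiv ℂ j (u i) := fun i j => by
    simp only [W, V, of_apply, map_sub, pderiv_coe]
  have hu' : ∀ i j, q (pderiv ℂ j (u i)) ∈ m ^ (n i + 1) := fun i j =>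
    hq.q_mem (le_order_pderiv (by rw [← hn]; exact hu i) j)
  have hW : ∀ i j, q (W i j) ∈ m ^ n i := fun i j => by
    rw [hWV, map_sub]
    exact Ideal.sub_mem _ (hq.hom_mem (hV i j)) (Ideal.pow_le_pow_right (by omega) (hu' i j))
  have hX : ∀ k, q (X k) ∈ m ^ 1 := fun k => by rw [pow_one]; exact hq.X_mem k
  have h4 : q W.det - q (V.det : PS ι) ∈ m ^ (∑ i, n i + 1) := by
    rw [← co_apply, RingHom.map_det, AlgHom.map_det, AlgHom.map_det]
    refine det_sub_mem hW (fun i j => hq.hom_mem (hV i j)) fun i j => ?_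
    change q (W i j) - q (V i j : PS ι) ∈ _
    rw [hWV, map_sub, sub_sub_cancel_left, neg_mem_iff]
    exact hu' i j
  have h5 : ∀ i, q ((z - W *ᵥ fun k => X k) i) ∈ m ^ (n i + 2) := fun i => by
    have h6 := congrArg (co ι) (hw i).sum_X_mul_pderiv
    rw [map_sum, nsmul_eq_mul, map_mul, map_natCast] at h6
    simp only [map_mul, co_apply, MvPolynomial.coe_X] at h6
    have h7 : (z - W *ᵥ fun k => X k) i =
        (z i - (dg i : PS ι) * (w i : PS ι)) + ∑ j, pderiv ℂ j (u i) * X j := by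
      rw [← h6]
      simp only [Pi.sub_apply, mulVec, dotProduct, hWV, sub_mul, Finset.sum_sub_distrib, V,
        of_apply, mul_comm (X _ : PS ι)]
      ring
    rw [h7, map_add, map_sum]
    refine Ideal.add_mem _ ?_ (Ideal.sum_mem _ fun j _ => ?_)
    · by_cases h : i ∈ σ
      · simp only [z, if_pos h, zero_sub, map_neg, neg_mem_iff, map_mul]
        refine Ideal.mul_mem_left _ _ ?_
        have h8 := (hJ.mem _ _ (hw i)).1 (hσ i h)
        rwa [hn] at h8
      · simp [z, if_neg h]
    · rw [map_mul]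
      exact mul_mem (hu' i j) (hX j) le_rfl
  have h9 : ∀ k, q (cramer W z k) - q (V.det : PS ι) * q (X k) ∈ m ^ (∑ i, n i + 2) := fun k => by
    have h10 : q (cramer W z k - W.det * X k) ∈ m ^ (∑ i, n i + 2) := by
      rw [cramer_sub W z (fun k => X k) k, AlgHom.map_det]
      have h11 := det_mem (I := m)
        (W := q.mapMatrix (W.updateCol k (z - W *ᵥ fun k => X k))) (n := n)
        (c := Pi.single k 2) fun i j => by
          change q (W.updateCol k _ i j) ∈ _
          by_cases h : j = k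
          · subst h
            rw [updateCol_self, Pi.single_eq_same]
            exact h5 i
          · rw [updateCol_ne h, Pi.single_eq_of_ne h]
            exact hW i j
      rwa [Finset.sum_pi_single', if_pos (Finset.mem_univ k)] at h11
    have h12 := Ideal.add_mem _ h10 (mul_mem h4 (hX k) le_rfl)
    rw [map_sub, map_mul] at h12
    convert h12 using 1
    ring
  obtain ⟨E, hE⟩ := hq.exists_der (x := cramer W z) (tangent hq hJ hd hw hG hGJ hs hu hk
    (fun k => by
      have h10 := Ideal.add_mem _ (Ideal.pow_le_self (by omega) (h9 k))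
        (m.mul_mem_left (q (V.det : PS ι)) (hq.X_mem k))
      rwa [sub_add_cancel] at h10)
    fun i hi => by
      have h10 := congrFun (mulVec_cramer W z) i
      simp only [z, Pi.smul_apply, if_pos hi, smul_zero] at h10
      rw [← h10, vf_apply]
      exact Finset.sum_congr rfl fun j _ => mul_comm _ _)
  refine ⟨∑ i, n i, V.det, E, hdet, det_hom hV, fun y hy => ?_⟩
  obtain ⟨g, hg, rfl⟩ := hq.mem_iff.1 hy
  obtain ⟨a, -, rfl⟩ := exists_sum_X_mul (r := 0) (g := g)
    (mem_pow_iff_order.1 (by rw [zero_add, pow_one]; exact mem_max_iff.2 hg))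
  have hsh : Sh m (∑ i, n i) E := hq.sh fun k => by
    have h10 := Ideal.add_mem _ (Ideal.pow_le_pow_right (Nat.le_succ _) (h9 k))
      (mul_mem (hq.hom_mem (det_hom hV)) (hX k) le_rfl)
    rwa [sub_add_cancel, ← hE.X] at h10
  rw [map_sum, map_sum, Finset.mul_sum, ← Finset.sum_sub_distrib]
  refine Ideal.sum_mem _ fun k _ => ?_
  have h13 : E (q (X k * a k)) - q (V.det : PS ι) * q (X k * a k) =
      q (a k) * (q (cramer W z k) - q (V.det : PS ι) * q (X k)) + q (X k) * E (q (a k)) := by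
    rw [map_mul, Derivation.leibniz, hE.X, smul_eq_mul, smul_eq_mul]
    ring
  rw [h13]
  refine Ideal.add_mem _ (Ideal.mul_mem_left _ _ (h9 k)) (mul_mem (hX k) (b := ∑ i, n i + 1) ?_
    (by omega))
  rw [hq.chain]
  exact Ideal.sum_mem _ fun j _ => Ideal.mul_mem_left _ _ (hsh.X hq j)

end Pool.Agent.MP_51db15_ag.Nc
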