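import Pool.Agent.MP_51db15_ag.Nc.Base
import Pool.Agent.MP_51db15_ag.Hy.JORD1
import Pool.Agent.MP_51db15_ag.Hy.JORD2
import Pool.Agent.MP_51db15_ag.Hy.P2

/-! The semisimple part of a dilating field; the order of the form. -/

set_option linter.unusedSectionVars false

namespace Pool.Agent.MP_51db15_ag.Nc

open MvPowerSeries Matrix Hy

namespace Js

variable {ι R : Type} [Fintype ι] [DecidableEq ι] [CommRing R] [Algebra ℂ R]
  {q : PS ι →ₐ[ℂ] R} {m : Ideal R} {ω : Frm R} {c : ι → ℂ} {S : Der R}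

theorem q_C (e : ℂ) (g : PS ι) : q (C e * g) = algebraMap ℂ R e * q g := by
  rw [map_mul, show (C e : PS ι) = algebraMap ℂ _ e from rfl, AlgHom.commutes]

theorem der_C (D : Der R) (e : ℂ) (r : R) : D (algebraMap ℂ R e * r) = algebraMap ℂ R e * D r := by
  rw [← Algebra.smul_def, ← Algebra.smul_def, Derivation.map_smul]

theorem comp_eul (e : ℂ) (g : PS ι) :
    comp c e (vf (fun i => C (c i) * X i) g) = C e * comp c e g := by
  have h := comp_vf (a := c) (e := 0) (v := fun i => (C (c i) * X i : PS ι))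
    (fun i => ((isHom_X i).C_mul _).congr (add_zero _).symm) e g
  rw [zero_add] at h
  rw [h, JORD2.euler (isHom_comp e g)]

theorem S_hom (hS : Lf q (fun i => C (c i) * X i) S) {e : ℂ} {g : PS ι} (hg : IsHom c e g) :
    S (q g) = algebraMap ℂ R e * q g := by
  rw [hS, JORD2.euler hg, q_C]

/-- the commutator with a homogeneous field -/
theorem lie_S (h : Pres q m) (hS : Lf q (fun i => C (c i) * X i) S) {D : Der R} {e : ℂ}
    (hD : ∀ i, ∃ g, IsHom c (c i + e) g ∧ D (q (X i)) = q g) :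
    ⁅S, D⁆ = algebraMap ℂ R e • D := h.der_ext fun i => by
  obtain ⟨g, hg, e1⟩ := hD i
  rw [Derivation.commutator_apply, S_hom hS (isHom_X i), der_C, Derivation.smul_apply, e1,
    S_hom hS hg, map_add, smul_eq_mul]
  ring

theorem lie_smul' (s : R) (X : Der R) : ⁅S, s • X⁆ = S s • X + s • ⁅S, X⁆ := by
  ext z
  simp only [Derivation.commutator_apply, Derivation.smul_apply, Derivation.add_apply,
    smul_eq_mul, Derivation.leibniz]
  ring

/-- the defect of being dilating, linear in the first argument -/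
noncomputable def bt (ω : Frm R) (S Y : Der R) : Der R →ₗ[R] R where
  toFun X := S (ω X Y) - ω ⁅S, X⁆ Y - ω X ⁅S, Y⁆ - ω X Y
  map_add' X X' := by
    simp only [lie_add, map_add, LinearMap.add_apply]
    ring
  map_smul' s X := by
    simp only [lie_smul', map_add, map_smul, LinearMap.add_apply, LinearMap.smul_apply,
      smul_eq_mul, Derivation.leibniz, RingHom.id_apply]
    ring

theorem der_down (h : Pres q m) (D : Der R) {r : ℕ} {g : PS ι} (hg : g ∈ JORD2.mm ι (r + 1)) :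
    D (q g) ∈ m ^ r := by
  obtain ⟨x, hx⟩ := h.exists_lf D
  rw [hx]
  exact h.q_mem' (JORD2.vf_mem x hg)

theorem mem_sup (h : Pres q m) {r : ℕ} {g : PS ι} (hg : q g ∈ m ^ r) :
    g ∈ RingHom.ker q ⊔ JORD2.mm ι r := by
  obtain ⟨g', h1, h2⟩ := h.mem_pow.1 hg
  exact JORD2.sup_iff.2 ⟨g - g', by rw [RingHom.mem_ker, map_sub, h2, sub_self],
    by rwa [sub_sub_cancel]⟩

theorem core [IsDomain R] (hS : S_SPAN) (h : Pres q m) (hω : IsSymplecticForm ω) {ξ : Der R}
    (hξ : IsDilating ω ξ) {v : ι → PS ι} (hv : Lf q v ξ) (h0 : ∀ i, constantCoeff (v i) = 0)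
    (h1 : ∀ i, IsHom c (c i) (v i)) (h2 : IsNilpotent (lin v - diagonal c)) :
    ∃ S : Der R, Gr q c ∧ Lf q (fun i => C (c i) * X i) S ∧ IsDilating ω S := by
  have hI : ∀ g ∈ RingHom.ker q, vf v g ∈ RingHom.ker q := fun g hg => hv.ker hg
  obtain ⟨k1, k2⟩ := (jord2 ι v c h0 h1 h2).2 _ hI
  obtain ⟨S, hL⟩ := h.exists_der (x := fun i => C (c i) * X i) fun f hf =>
    mem_of_comp_mem (a := c) (RingHom.ker q) fun e => by
      rw [comp_eul]
      exact Ideal.mul_mem_left _ _ (k1 f hf e)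
  refine ⟨S, k1, hL, ?_⟩
  choose H hH using hω.2.2
  have sk : ∀ r s, H r s = -H s r := fun r s => by rw [← hH s (H r), skew hω, hH]
  have li : ∀ r s, ξ (H r s) = H (ξ r) s - H r s + H r (ξ s) := fun r s => by
    have e : ⁅ξ, H r⁆ - (H (ξ r) - H r) = 0 := nondeg hω fun Y => by
      simp only [map_sub, LinearMap.sub_apply, lie_ham hξ (hH r), hH, sub_self]
    rw [← Derivation.sub_apply, ← sub_eq_zero.1 e, Derivation.commutator_apply, sub_add_cancel]
  choose B hB using fun x y : PS ι => h.surj (H (q x) (q y))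
  have hh : ∀ i j, q (B (X i) (X j)) = q (comp c (c i + (c j - 1)) (B (X i) (X j))) := by
    intro i j
    rw [← sub_eq_zero, ← map_sub]
    refine k2 _ _ fun r => ?_
    have hs : ∀ (e : ℂ) {J : Ideal (PS ι)}, (∀ x ∈ J.restrictScalars ℂ, JORD2.op v x ∈
        J.restrictScalars ℂ) → ∀ x ∈ J.restrictScalars ℂ,
        (JORD2.op v - e • 1) x ∈ J.restrictScalars ℂ :=
      fun e J hJ x hx => sub_mem (hJ x hx) (Submodule.smul_mem _ e hx)
    have hm : ∀ x ∈ (JORD2.mm ι (r + 1)).restrictScalars ℂ,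
        JORD2.op v x ∈ (JORD2.mm ι (r + 1)).restrictScalars ℂ :=
      fun x hx => JORD2.vf_up h0 (Or.inl hx)
    obtain ⟨M, hM⟩ := JORD2.hom_nil h0 h1 h2 (isHom_X i) (r + 1)
    obtain ⟨N, hN⟩ := JORD2.hom_nil h0 h1 h2 (isHom_X j) (r + 1)
    refine ⟨M + N, JORD2.sup_iff.1 ?_⟩
    rw [JORD2.iter]
    refine JORD2.bil (a := JORD2.op v - c i • 1) (b := JORD2.op v - c j • 1)
      (hs _ (JORD2.stab h0 hI r)) B (fun x y => Submodule.mem_sup_left ?_) _ _ _ M N rfl
      fun s t hst => mem_sup h ?_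
    · change q _ = 0
      have e1 : H (q (vf v x - C (c i) * x)) (q y) =
          H (ξ (q x)) (q y) - algebraMap ℂ R (c i) * H (q x) (q y) := by
        rw [sk, map_sub, q_C, map_sub, der_C, ← hv, sk (ξ (q x)), sk (q x)]
        ring
      simp only [JORD2.op_sub]
      rw [map_sub q, map_sub q, hB, hB, e1]
      simp only [map_sub q, hB, q_C, ← hv _, li]
      simp only [map_sub, map_add, map_one, der_C]
      ring
    · rw [hB]
      rcases hst with h3 | h3
      · rw [sk]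
        exact neg_mem (der_down h _ (JORD2.st' (hs _ hm) hM h3))
      · exact der_down h _ (JORD2.st' (hs _ hm) hN h3)
  have hl : ∀ i, ⁅S, H (q (X i))⁆ = algebraMap ℂ R (c i - 1) • H (q (X i)) := fun i =>
    lie_S h hL fun j => ⟨_, (isHom_comp _ _).congr (by ring), (hB _ _).symm.trans (hh i j)⟩
  intro D Y
  obtain ⟨s, hs, η, e⟩ := (hS ι R q m ω (fun i => H (q (X i))) (fun i k => B (X i) (X k)) h hω
    (fun i Y => hH _ Y) fun i k => (hB _ _).symm).1 D
  have b0 : ∀ i, bt ω S Y (H (q (X i))) = 0 := fun i => by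
    change S (ω _ Y) - ω ⁅S, _⁆ Y - ω _ ⁅S, Y⁆ - ω _ Y = 0
    rw [hl, map_smul, LinearMap.smul_apply, hH, hH, Derivation.commutator_apply,
      S_hom hL (isHom_X i), der_C, map_sub, map_one, smul_eq_mul]
    ring
  have b1 : s * bt ω S Y D = 0 := by
    rw [← smul_eq_mul, ← map_smul, e, map_sum]
    exact Finset.sum_eq_zero fun i _ => by rw [map_smul, b0, smul_zero]
  exact sub_eq_zero.1 ((mul_eq_zero.1 b1).resolve_left hs)

theorem wt_re (α : ι →₀ ℕ) :
    Finsupp.weight (fun i => (c i).re) α = (Finsupp.weight c α).re := by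
  simp [Finsupp.weight_apply, Finsupp.sum, Complex.re_sum]

theorem gr_re (hG : Gr q c) : Gr q fun i => (c i).re := fun g hg t =>
  mem_of_comp_mem (a := c) (RingHom.ker q) fun e => by
    have h1 : IsHom (fun i => (c i).re) e.re (comp c e g) := fun α hα => by
      rw [wt_re, isHom_comp e g α hα]
    rw [comp_comm]
    by_cases h : t = e.re
    · rw [h, h1.comp_self]
      exact hG g hg e
    · rw [h1.comp_ne h]
      exact zero_mem _

theorem fil_order {b : ι → ℝ} {k : ℕ} {t : ℝ} {g : PS ι} (h : Fil b k t g) :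
    (k : ℕ∞) ≤ g.order :=
  nat_le_order fun α hα => by
    by_contra h1
    rcases h α h1 with h2 | h2 <;> omega

theorem deg_ge {k : ℕ} {g : PS ι} (h : (k : ℕ∞) ≤ g.order) {α : ι →₀ ℕ} (hα : coeff α g ≠ 0) :
    k ≤ Finsupp.degree α := by
  exact_mod_cast h.trans (order_le hα)

theorem exists_fil (b : ι → ℝ) (k : ℕ) :
    ∃ t : ℝ, ∀ i (g : PS ι), (k : ℕ∞) ≤ g.order → Fil b k (b i + t) g := by
  obtain ⟨t, ht⟩ := ((Finsupp.finite_of_degree_le (σ := ι) k).image
    (Finsupp.weight b)).bddAbove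
  obtain ⟨u, hu⟩ := (Set.finite_range b).bddBelow
  refine ⟨t - u, fun i g hg α hα => (deg_ge hg hα).lt_or_eq.imp id fun h => ⟨h, ?_⟩⟩
  have h1 := ht ⟨α, h.ge, rfl⟩
  have h2 := hu ⟨i, rfl⟩
  linarith

theorem sum_ap (T : Finset ℂ) (F : ℂ → Der R) (r : R) : (∑ e ∈ T, F e) r = ∑ e ∈ T, F e r := by
  have h := map_sum (Derivation.coeFnAddMonoidHom (R := ℂ) (A := R) (M := R)) F T
  exact (congrFun h r).trans (Finset.sum_apply _ _ _)

/-- decomposition of a field into homogeneous fields -/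
theorem decomp (h : Pres q m) (hG : Gr q c) {k : ℕ} {D : Der R} (hD : Sh m k D) :
    ∃ (T : Finset ℂ) (x : ℂ → ι → PS ι) (F : ℂ → Der R), Sh m (k + 1) (D - ∑ e ∈ T, F e) ∧
      ∀ e, Lf q (x e) (F e) ∧ ∀ i, IsHom c (c i + e) (x e i) ∧
        ((k + 1 : ℕ) : ℕ∞) ≤ (x e i).order := by
  classical
  obtain ⟨x, h1, h2⟩ := h.exists_lf' (hD.X h)
  have h3 : ∀ e, ∃ F : Der R, Lf q (fun i => comp c (c i + e) (x i)) F := fun e =>
    h.exists_der fun f hf => mem_of_comp_mem (a := c) (RingHom.ker q) fun e' => by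
      obtain ⟨d, rfl⟩ : ∃ d, e' = e + d := ⟨e' - e, by ring⟩
      rw [comp_vf (fun i => isHom_comp _ _), vf_comp (isHom_comp d f)]
      exact hG _ (h2.ker (hG f hf d)) _
  choose F hF using h3
  obtain ⟨E, hE⟩ := exists_comp_approx (F := ℂ) (a := c) (k + 1 + 1)
  refine ⟨Finset.univ.biUnion fun i => E.image (· - c i), _, F, h.sh fun i => ?_,
    fun e => ⟨hF e, fun i => ⟨isHom_comp _ _, (h1 i).trans (order_le_order_comp _ _)⟩⟩⟩
  have h4 := hE ((Finset.univ.biUnion fun i => E.image (· - c i)).image (c i + ·))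
    (fun e he => Finset.mem_image.2 ⟨e - c i, Finset.mem_biUnion.2 ⟨i, Finset.mem_univ _,
      Finset.mem_image_of_mem _ he⟩, by ring⟩) (x i)
  rw [Finset.sum_image fun _ _ _ _ => add_left_cancel] at h4
  have h5 := h.q_mem h4
  rw [map_sub, map_sum] at h5
  rw [Derivation.sub_apply, h2.X, sum_ap]
  simpa only [(hF _).X] using h5

end Js

open Js

theorem js (hS : S_SPAN) : S_JS := by
  intro ι R _ _ _ _ _ q m ω ξ h hω hξ hm
  obtain ⟨v, v1, v2⟩ := h.exists_lf' (D := ξ) (n := 1) fun i => by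
    rw [pow_one]
    exact hm _ (h.X_mem i)
  obtain ⟨ψ, c, -, h1, h2⟩ := jord1 p3 p2 ι (fun _ => 0) v
    (fun i => one_le_order_iff_constCoeff_eq_zero.1 (by simpa using v1 i))
    fun i α _ => by simp [Finsupp.weight_apply]
  have h' := h.comp ψ.symm
  have hv : Lf (q.comp (ψ.symm : PS ι →ₐ[ℂ] PS ι)) (fun i => ψ (vf v (ψ.symm (X i)))) ξ :=
    h'.lf fun i => by simp [v2 _]
  obtain ⟨S, k1, k2, k3⟩ := core hS h' hω hξ hv
    (fun i => h'.const.1 (by rw [← hv.X]; exact hm _ (h'.X_mem i))) h1 h2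
  exact ⟨_, c, S, h', k1, k2, k3⟩

theorem a1 (hV : S_VAL) : S_A1 := by
  intro ι R _ _ _ _ _ q m ω c S h hd hx hG hS hξ
  have V := hV ι R q m ω _ h hd (gr_re hG) hx
  have s0 : ∀ (k l : ℕ) (D E : Der R), Sh m k D → Sh m l E → ω D E ∈ m ^ (k + l) := by
    intro k l D E hD hE
    obtain ⟨x, x1, x2⟩ := h.exists_lf' (hD.X h)
    obtain ⟨y, y1, y2⟩ := h.exists_lf' (hE.X h)
    obtain ⟨t, ht⟩ := exists_fil (fun i => (c i).re) (k + 1)
    obtain ⟨u, hu⟩ := exists_fil (fun i => (c i).re) (l + 1)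
    obtain ⟨g, g1, g2⟩ := V x y D E k l t u x2 y2 (fun i => ht i _ (x1 i)) fun i => hu i _ (y1 i)
    exact h.mem_pow.2 ⟨g, fil_order g1, g2⟩
  intro k l D E hD hE
  obtain ⟨T, x, F, d1, d2⟩ := decomp h hG hD
  obtain ⟨T', y, F', e1, e2⟩ := decomp h hG hE
  have fil : ∀ (n : ℕ) (e : ℂ) (g : PS ι) (i : ι), IsHom c (c i + e) g ∧ (n : ℕ∞) ≤ g.order →
      Fil (fun i => (c i).re) n ((c i).re + e.re) g := fun n e g i hg α hα =>
    (deg_ge hg.2 hα).lt_or_eq.imp id fun h => ⟨h, by rw [wt_re, hg.1 α hα, Complex.add_re]⟩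
  have key : ∀ e e', ω (F e) (F' e') ∈ m ^ (k + l + 1) := by
    intro e e'
    obtain ⟨g, g1, g2⟩ := V (x e) (y e') (F e) (F' e') k l e.re e'.re (d2 e).1 (e2 e').1
      (fun i => fil _ _ _ i ((d2 e).2 i)) fun i => fil _ _ _ i ((e2 e').2 i)
    have k1 := hξ (F e) (F' e')
    rw [lie_S h hS fun i => ⟨_, ((d2 e).2 i).1, (d2 e).1.X i⟩,
      lie_S h hS fun i => ⟨_, ((e2 e').2 i).1, (e2 e').1.X i⟩, map_smul, map_smul,
      LinearMap.smul_apply, ← g2, hS, smul_eq_mul, smul_eq_mul] at k1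
    have k2 : q (vf (fun i => C (c i) * X i) g - C (e + e' + 1) * g) = 0 := by
      rw [map_sub, q_C, map_add, map_add, map_one]
      linear_combination k1
    have k3 : g - comp c (e + e' + 1) g ∈ RingHom.ker q :=
      mem_of_comp_mem (a := c) _ fun e1 => by
        rw [comp_sub]
        by_cases h1 : e1 = e + e' + 1
        · rw [h1, (isHom_comp _ g).comp_self, sub_self]
          exact zero_mem _
        · have h2 := hG _ k2 e1
          rw [comp_sub, comp_eul, comp_C_mul, ← sub_mul, ← map_sub, q_C] at h2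
          rw [(isHom_comp _ g).comp_ne h1, sub_zero]
          exact (mul_eq_zero.1 h2).resolve_left
            ((map_ne_zero (algebraMap ℂ R)).2 (sub_ne_zero.2 h1))
    rw [RingHom.mem_ker, map_sub, sub_eq_zero] at k3
    rw [← g2, k3]
    refine h.q_mem (nat_le_order fun α hα => ?_)
    by_contra h1
    have h2 := isHom_comp _ g α h1
    rw [coeff_comp, if_pos h2] at h1
    rcases g1 α h1 with h3 | h3
    · omega
    · have h4 := h3.2
      rw [wt_re, h2, Complex.add_re, Complex.add_re, Complex.one_re] at h4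
      linarith
  have sF : ∀ e, Sh m k (F e) := fun e => h.sh fun i => by
    rw [(d2 e).1.X]
    exact h.q_mem ((d2 e).2 i).2
  have e3 : ω D E = ω (D - ∑ e ∈ T, F e) E + ∑ e ∈ T,
      (ω (F e) (E - ∑ e' ∈ T', F' e') + ∑ e' ∈ T', ω (F e) (F' e')) := by
    simp only [map_sub, map_sum, LinearMap.sub_apply, LinearMap.sum_apply, sub_add_cancel]
  rw [e3]
  refine add_mem ?_ (sum_mem fun e _ => add_mem (s0 k (l + 1) _ _ (sF e) e1)
    (sum_mem fun e' _ => key e e'))
  rw [add_right_comm]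
  exact s0 (k + 1) l _ _ d1 hE

end Pool.Agent.MP_51db15_ag.Nc
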