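import Pool.Agent.MP_51db15_ag.Nc.Base
import Pool.Agent.MP_51db15_ag.Hy.P2
import Pool.Agent.MP_51db15_ag.Hy.JORD1
import Pool.Agent.MP_51db15_ag.Hy.JORD2

/-! Linearisation of a field that is the identity to first order; linear Hamiltonian fields. -/

set_option linter.unusedSectionVars false

namespace Pool.Agent.MP_51db15_ag.Nc

open MvPowerSeries Matrix Hy

namespace Lin

open JORD1 (Od mem_Od Od_iff Od_mono Od_one)

variable {ι : Type} [Fintype ι] [DecidableEq ι]

theorem wt (α : ι →₀ ℕ) : Finsupp.weight (fun _ : ι => (1 : ℂ)) α = (Finsupp.degree α : ℕ) := by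
  simp [Finsupp.weight_apply, Finsupp.sum, Finsupp.degree]

theorem hc_comp (n : ℕ) (g : PS ι) : (hc n g : PS ι) = comp (fun _ : ι => (1 : ℂ)) (n : ℂ) g := by
  ext α
  rw [MvPolynomial.coeff_coe, coeff_hc, coeff_comp, wt]
  simp only [Nat.cast_inj]

/-- the Euler formula -/
theorem coeff_eul (g : PS ι) (α : ι →₀ ℕ) :
    coeff α (vf (fun i => X i) g) = (Finsupp.degree α : ℕ) * coeff α g := by
  have h1 := comp_vf (a := fun _ : ι => (1 : ℂ)) (e := 0) (v := fun i => (X i : PS ι))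
    (fun i => (isHom_X i).congr (add_zero _).symm) (Finsupp.degree α : ℕ) g
  have h2 := JORD2.euler (isHom_comp (a := fun _ : ι => (1 : ℂ)) (Finsupp.degree α : ℕ) g)
  simp only [map_one, one_mul] at h2
  have h3 := congrArg (coeff α) (h1.trans h2)
  rwa [zero_add, coeff_C_mul, coeff_comp, coeff_comp, if_pos (wt α), if_pos (wt α)] at h3

theorem est {u : ι → PS ι} (hu : ∀ i, u i ∈ Od 2) {n : ℕ} {g : PS ι} (hg : g ∈ Od n) :
    vf (fun i => X i + u i) g - (n : ℂ) • g ∈ Od (n + 1) := by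
  have h1 : vf u g ∈ Od (n + 1) := by
    rw [vf_apply]
    refine Submodule.sum_mem _ fun i _ => Od_iff.2 (mem_pow_iff_order.1 ?_)
    have h2 := mem_pow_iff_order.2 (Od_iff.1 (hu i))
    rcases n with _ | n
    · exact Ideal.mul_mem_right _ _ (Ideal.pow_le_pow_right (by omega) h2)
    · exact mul_mem_pow h2 (mem_pow_iff_order.2 (le_order_pderiv (Od_iff.1 hg) i)) (by omega)
  have h2 : vf (fun i => X i) g - (n : ℂ) • g ∈ Od (n + 1) := mem_Od.2 fun α hα => by
    rw [map_sub, map_smul, coeff_eul, smul_eq_mul]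
    rcases (by omega : Finsupp.degree α = n ∨ Finsupp.degree α < n) with h | h
    · rw [h, sub_self]
    · rw [mem_Od.1 hg α h, mul_zero, mul_zero, sub_self]
  rw [show (fun i => X i + u i) = (fun i => X i) + u from rfl, vf_add, add_sub_right_comm]
  exact add_mem h2 h1

theorem eigen {u : ι → PS ι} (hu : ∀ i, u i ∈ Od 2) (i : ι) :
    ∃ y, y - X i ∈ Od 2 ∧ vf (fun i => X i + u i) y = y := by
  let T : Module.End ℂ (PS ι) := JORD2.op (fun i => X i + u i) - 1
  have hT : ∀ g, T g = vf (fun i => X i + u i) g - g := fun _ => rfl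
  have ho : ∀ r, ∀ g ∈ Od r, T g ∈ Od r := fun r g hg => by
    have := add_mem (Od_mono (Nat.le_succ r) (est hu hg)) (Submodule.smul_mem _ (r : ℂ) hg)
    rw [sub_add_cancel] at this
    exact sub_mem this hg
  have h1 : T (X i) ∈ Od 2 := by
    rw [hT, vf_X, add_sub_cancel_left]
    exact hu i
  have inj : ∀ r, ∀ w ∈ Od 2, T w ∈ Od (r + 2) → w ∈ Od (r + 2) := fun r w hw => by
    induction r with
    | zero => exact fun _ => hw
    | succ r ih =>
      intro h
      have h2 := sub_mem h (est hu (ih (Od_mono (by omega) h)))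
      have h3 : T w - (vf (fun i => X i + u i) w - ((r + 2 : ℕ) : ℂ) • w) =
          ((r + 1 : ℕ) : ℂ) • w := by
        rw [hT]
        push_cast
        module
      rw [h3] at h2
      exact (Submodule.smul_mem_iff _ (Nat.cast_ne_zero.2 (Nat.succ_ne_zero r))).1 h2
  have inj' : ∀ r M, ∀ w ∈ Od 2, (T ^ M) w ∈ Od (r + 2) → w ∈ Od (r + 2) := fun r M => by
    induction M with
    | zero => exact fun w _ h => h
    | succ M ih =>
      intro w hw h
      rw [pow_succ, Module.End.mul_apply] at h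
      exact inj r w hw (ih _ (ho 2 w hw) h)
  obtain ⟨y, -, h2, h3⟩ := JORD1.lift T Set.univ (fun g _ _ _ => trivial) ho (l := X i)
    (fun _ _ => trivial) (M₀ := 1) (by rwa [pow_one])
  refine ⟨y, h2, sub_eq_zero.1 ((hT y).symm.trans ?_)⟩
  have h4 : T y ∈ Od 2 := by
    have := add_mem (ho 2 _ h2) h1
    rwa [← map_add, sub_add_cancel] at this
  ext α
  obtain ⟨M, hM⟩ := h3 (Finsupp.degree α + 2)
  refine mem_Od.1 (inj' (Finsupp.degree α) M _ h4 ?_) α (by omega)
  rw [← Module.End.mul_apply, ← pow_succ, pow_succ', Module.End.mul_apply]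
  exact ho _ _ hM

theorem near (ψ : PS ι →ₐ[ℂ] PS ι) (h : ∀ i, ψ (X i) - X i ∈ Od 2) (n : ℕ) :
    ∀ g : PS ι, (n : ℕ∞) ≤ g.order → ((n + 1 : ℕ) : ℕ∞) ≤ (ψ g - g).order := by
  induction n with
  | zero =>
    intro g _
    exact Od_iff.1 (Od_one.2 (by rw [map_sub, (p3.1 ℂ ι ι ψ).1 g, sub_self]))
  | succ n ih =>
    intro g hg
    obtain ⟨a, ha, rfl⟩ := exists_sum_X_mul hg
    rw [map_sum, ← Finset.sum_sub_distrib]
    refine mem_pow_iff_order.1 (Ideal.sum_mem _ fun i _ => ?_)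
    rw [map_mul, show ψ (X i) * ψ (a i) - X i * a i =
      (ψ (X i) - X i) * ψ (a i) + X i * (ψ (a i) - a i) by ring]
    exact add_mem (mul_mem_pow (mem_pow_iff_order.2 (Od_iff.1 (h i)))
        (mem_pow_iff_order.2 ((ha i).trans ((p3.1 ℂ ι ι ψ).2.1 _))) (by omega))
      (mul_mem_pow (mem_pow_iff_order.2 (Od_iff.1 (JORD1.X_Od i)))
        (mem_pow_iff_order.2 (ih _ (ha i))) (by omega))

theorem lin_X : lin (fun i : ι => (X i : PS ι)) = 1 := by
  ext i j
  exact (congrFun (JORD1.lam_X i) j).trans (by rw [Pi.single_apply, one_apply]; simp [eq_comm])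

end Lin

open Lin JORD1 in
theorem linz : S_LIN := by
  intro ι R _ _ _ _ _ q m J ξ hq hc' hξ
  choose u hu1 hu2 using fun i => hq.mem_pow.1 (hξ _ (hq.X_mem i))
  have hu : ∀ i, u i ∈ Od 2 := fun i => Od_iff.2 (hu1 i)
  have hl : Lf q (fun i => X i + u i) ξ := hq.lf fun i => by rw [map_add, hu2, add_sub_cancel]
  choose y hy1 hy2 using eigen hu
  obtain ⟨ψ, hψ⟩ := p2 ℂ ι y (fun i => Od_one.1 (by
    have := add_mem (Od_mono one_le_two (hy1 i)) (X_Od i)
    rwa [sub_add_cancel] at this)) (by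
      have e : lin y = lin fun i : ι => (X i : PS ι) := by
        ext i j
        have := lam_Od (hy1 i)
        rw [map_sub, sub_eq_zero] at this
        exact congrFun this j
      rw [e, lin_X, det_one]
      exact one_ne_zero)
  have h1 : ∀ g, ξ (q (ψ g)) = q (ψ (vf (fun i => X i) g)) := fun g => by
    rw [hl]
    congr 1
    have h2 : ∀ j, pderiv ℂ j (ψ g) = ∑ i, ψ (pderiv ℂ i g) * pderiv ℂ j (ψ (X i)) :=
      (p3.1 ℂ ι ι (ψ : PS ι →ₐ[ℂ] PS ι)).2.2.1 g
    rw [vf_apply, vf_apply, map_sum]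
    simp only [h2, Finset.mul_sum]
    rw [Finset.sum_comm]
    refine Finset.sum_congr rfl fun i _ => ?_
    rw [map_mul, hψ]
    conv_rhs => rw [← hy2 i, vf_apply, Finset.sum_mul]
    exact Finset.sum_congr rfl fun j _ => by ring
  have h2 : ∀ g, q (ψ g) = 0 → ∀ n, q (ψ (hc n g : PS ι)) = 0 := fun g hg n => by
    rw [hc_comp]
    exact ((jord2 ι (fun i => X i) (fun _ => 1) (fun i => constantCoeff_X i) (fun i => isHom_X i)
      (by rw [lin_X, diagonal_one, sub_self]; exact IsNilpotent.zero)).2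
      (RingHom.ker (q.comp (ψ : PS ι →ₐ[ℂ] PS ι))) fun h hh => by
        change q (ψ _) = 0
        rw [← h1, show q (ψ h) = 0 from hh, map_zero]).1 g hg _
  have h3 : ∀ n (g : PS ι), q (ψ (hc n g : PS ι)) - q (hc n g : PS ι) ∈ m ^ (n + 1) := fun n g => by
    rw [← map_sub]
    exact hq.q_mem (near (ψ : PS ι →ₐ[ℂ] PS ι) (fun i => by
      change ψ (X i) - X i ∈ _
      rw [hψ]
      exact hy1 i) n _ (le_order_coe (hc_hom n g)))
  refine ⟨ψ, fun g => ⟨fun hg => (mem_hat hc'.hom).2 fun n => (hc'.mem n _ (hc_hom n g)).2 ?_,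
    fun hg => ?_⟩, h1⟩
  · have := h3 n g
    rwa [h2 g hg, zero_sub, neg_mem_iff] at this
  · refine mem_ideal_of_approx (RingHom.ker (q.comp (ψ : PS ι →ₐ[ℂ] PS ι))) fun r =>
      ⟨_, Ideal.sum_mem _ fun n _ => ?_, order_sub_sum_hc r g⟩
    have h4 := add_mem (h3 n g) ((hc'.mem n _ (hc_hom n g)).1 ((mem_hat hc'.hom).1 hg n))
    rw [sub_add_cancel] at h4
    obtain ⟨g', h5, h6⟩ := (hq.comp ψ).mem_pow.1 h4
    have h7 := h2 ((hc n g : PS ι) - g') (by rw [map_sub, map_sub, ← h6]; exact sub_self _) n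
    rwa [hc_sub, hc_eq_zero h5, sub_zero, hc_coe_self (hc_hom n g)] at h7

open Lin in
theorem th : Nc.S_TH := by
  intro ι R _ _ _ _ _ q m J ω ξ hq hJ hk hω hl hξ
  choose H hH using fun i => hω.2.2 (q (X i))
  choose g hg using fun i j => hq.surj (H i (q (X j)))
  refine ⟨H, fun i j => hc 1 (g i j), hq, hJ, hk, hω, hH, fun i j => ?_, fun i j => hc_hom _ _⟩
  have h1 : ⁅ξ, H i⁆ = 0 := nondeg hω fun Y => by rw [lie_ham hξ (hH i), hl.X, sub_self]
  have h2 : q (vf (fun i => X i) (g i j) - g i j) = 0 := by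
    have h3 := congrArg (fun D : Der R => D (q (X j))) h1
    simp only [Derivation.commutator_apply, hl.X, Derivation.zero_apply] at h3
    rw [map_sub, ← hl, hg, h3]
  rw [← hg, ← sub_eq_zero, ← map_sub, hk, mem_hat hJ]
  intro n
  rw [hc_sub, hc_coe, MvPolynomial.homogeneousComponent_of_mem (hc_hom 1 (g i j))]
  split_ifs with h
  · rw [h, sub_self]
    exact J.zero_mem
  · have h4 := J.mul_mem_left (MvPolynomial.C ((n : ℂ) - 1)⁻¹) ((mem_hat hJ).1 ((hk _).1 h2) n)
    have h5 : (n : ℂ) - 1 ≠ 0 := sub_ne_zero.2 (by exact_mod_cast h)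
    convert h4 using 1
    ext α
    rw [sub_zero, MvPolynomial.coeff_C_mul, coeff_hc, coeff_hc]
    split_ifs with h6
    · rw [map_sub, coeff_eul, h6]
      field_simp
    · rw [mul_zero]

end Pool.Agent.MP_51db15_ag.Nc
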