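import Pool.Agent.MP_51db15_ag.Nc.Base
import Pool.Agent.MP_51db15_ag.Hy.KAE

/-! The Hamiltonian fields of the coordinates span the tangent space generically. -/

set_option linter.unusedSectionVars false

namespace Pool.Agent.MP_51db15_ag.Nc

open MvPowerSeries Matrix Hy

namespace SpanA

/-- a vector orthogonal to the kernel of a matrix is a combination of the rows -/
theorem rows {K ι : Type} [Field K] [Fintype ι] [DecidableEq ι] (M : ι → ι → K) (y : ι → K)
    (h : ∀ z : ι → K, (∀ i, M i ⬝ᵥ z = 0) → y ⬝ᵥ z = 0) :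
    ∃ ξ : ι → K, ∀ k, y k = ∑ i, ξ i * M i k := by
  have h1 := mem_span_of_iInf_ker_le_ker (L := fun i => dotProductBilin K K (M i))
    (K := dotProductBilin K K y) fun z hz => h z fun i => (Submodule.mem_iInf _).1 hz i
  obtain ⟨ξ, hξ⟩ := (Submodule.mem_span_range_iff_exists_fun K).1 h1
  refine ⟨ξ, fun k => ?_⟩
  have h2 := LinearMap.congr_fun hξ (Pi.single k 1)
  simpa using h2.symm

/-- change of the field -/
theorem base {K κ ι A : Type} [Field K] [Field κ] [Fintype ι] (ψ : K →+* κ) (M : ι → ι → K)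
    (G : A → ι → K) (h : ∀ y : ι → K, (∀ a, ∑ k, G a k * y k = 0) →
      ∃ ξ : ι → K, ∀ k, y k = ∑ i, ξ i * M i k) (y : ι → κ)
    (hy : ∀ a, ∑ k, ψ (G a k) * y k = 0) : ∃ ξ : ι → κ, ∀ k, y k = ∑ i, ξ i * ψ (M i k) := by
  classical
  let := ψ.toAlgebra
  have hs : ∀ (c : K) (z : κ), ψ c * z = c • z := fun c z => (Algebra.smul_def c z).symm
  let b := Module.Basis.ofVectorSpace K κ
  choose ξ hξ using fun e => h (fun k => b.repr (y k) e) fun a => by
    have h1 := congrArg (b.coord e) (hy a)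
    simpa [hs] using h1
  let S := Finset.univ.biUnion fun k => (b.repr (y k)).support
  refine ⟨fun i => ∑ e ∈ S, ξ e i • b e, fun k => ?_⟩
  have h2 : y k = ∑ e ∈ S, b.repr (y k) e • b e := by
    conv_lhs => rw [← b.linearCombination_repr (y k), Finsupp.linearCombination_apply]
    exact Finsupp.sum_of_support_subset _
      (Finset.subset_biUnion_of_mem (fun k => (b.repr (y k)).support) (Finset.mem_univ k)) _
      fun e _ => zero_smul _ _
  rw [h2]
  simp only [hξ, Finset.sum_smul, Finset.sum_mul]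
  rw [Finset.sum_comm]
  refine Finset.sum_congr rfl fun i _ => Finset.sum_congr rfl fun e _ => ?_
  rw [mul_comm _ (ψ _), hs, smul_smul, mul_comm]

variable {ι R : Type} [Fintype ι] [DecidableEq ι] [CommRing R] [IsDomain R] [Algebra ℂ R]
  {q : PS ι →ₐ[ℂ] R} {m : Ideal R} {ω : Frm R} {H : ι → Der R} {Θ : ι → ι → PS ι}

/-- clearing denominators -/
theorem den (y : ι → FractionRing R) :
    ∃ (s : R) (x : ι → R), s ≠ 0 ∧ ∀ k, algebraMap R _ (x k) = algebraMap R _ s * y k := by
  obtain ⟨s, hs⟩ := IsLocalization.exist_integer_multiples_of_finite (nonZeroDivisors R) y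
  choose x hx using hs
  exact ⟨s, x, nonZeroDivisors.ne_zero s.2, fun k => by rw [hx, Algebra.smul_def]⟩

theorem dsum (D : ι → Der R) (r : R) : (∑ i, D i) r = ∑ i, D i r := by
  induction (Finset.univ : Finset ι) using Finset.induction_on with
  | empty => simp
  | insert i S hi ih => rw [Finset.sum_insert hi, Finset.sum_insert hi, Derivation.add_apply, ih]

theorem orth (hP : Pres q m) (hH : Hm q ω H) (hΘ : ∀ i k, H i (q (X k)) = q (Θ i k))
    (η x : ι → R) (hη : ∀ k, ∑ i, η i * q (Θ i k) = 0)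
    (hx : ∀ f, q f = 0 → ∑ k, q (pderiv ℂ k f) * x k = 0) : ∑ i, η i * x i = 0 := by
  choose x' hx' using fun k => hP.surj (x k)
  obtain ⟨D, hD⟩ := hP.exists_der (x := x') fun f hf => by
    rw [vf_apply, map_sum, ← hx f hf]
    exact Finset.sum_congr rfl fun k _ => by rw [map_mul, hx', mul_comm]
  have h0 : ∑ i, η i • H i = 0 := hP.der_ext fun k => by
    simp only [dsum, Derivation.smul_apply, smul_eq_mul, hΘ, hη,
      Derivation.zero_apply]
  have h1 : ω (∑ i, η i • H i) D = 0 := by rw [h0, map_zero, LinearMap.zero_apply]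
  simpa only [map_sum, map_smul, LinearMap.sum_apply, LinearMap.smul_apply, smul_eq_mul, hH _ D,
    hD.X, hx'] using h1

theorem spanK (hP : Pres q m) (hω : IsSymplecticForm ω) (hH : Hm q ω H)
    (hΘ : ∀ i k, H i (q (X k)) = q (Θ i k)) (y : ι → FractionRing R)
    (hy : ∀ f : RingHom.ker q, ∑ k, algebraMap R _ (q (pderiv ℂ k f.1)) * y k = 0) :
    ∃ ξ : ι → FractionRing R, ∀ k, y k = ∑ i, ξ i * algebraMap R _ (q (Θ i k)) := by
  have inj := IsFractionRing.injective R (FractionRing R)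
  have sk : ∀ i k, q (Θ i k) = -q (Θ k i) := fun i k => by
    rw [← hΘ, ← hΘ, ← hH, ← hH, skew hω]
  refine rows _ y fun z hz => ?_
  obtain ⟨s, x, hs, hx⟩ := den y
  obtain ⟨t, η, ht, hη⟩ := den z
  have h1 := orth hP hH hΘ η x (fun k => inj ?_) fun f hf => inj ?_
  · have h2 := congrArg (algebraMap R (FractionRing R)) h1
    have h3 : algebraMap R (FractionRing R) (s * t) * (y ⬝ᵥ z) = 0 := by
      rw [map_zero, map_sum] at h2
      rw [← h2, dotProduct, Finset.mul_sum]
      exact Finset.sum_congr rfl fun k _ => by rw [map_mul, map_mul, hx, hη]; ring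
    exact (mul_eq_zero.1 h3).resolve_left fun h4 =>
      mul_ne_zero hs ht (inj (h4.trans (map_zero _).symm))
  · rw [map_zero, map_sum, ← mul_zero (-algebraMap R (FractionRing R) t), ← hz k, dotProduct,
      Finset.mul_sum]
    exact Finset.sum_congr rfl fun i _ => by rw [map_mul, hη, sk i k, map_neg]; ring
  · rw [map_zero, map_sum, ← mul_zero (algebraMap R (FractionRing R) s), ← hy ⟨f, hf⟩,
      Finset.mul_sum]
    exact Finset.sum_congr rfl fun i _ => by rw [map_mul, hx]; ring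

end SpanA

open SpanA KAE in
theorem span : S_SPAN := by
  intro ι R _ _ _ _ _ q m ω H Θ hP hω hH hΘ
  have inj := IsFractionRing.injective R (FractionRing R)
  refine ⟨fun Y => ?_, fun κ _ _ Φ hΦ => ?_⟩
  · obtain ⟨ξ, hξ⟩ := spanK hP hω hH hΘ (fun k => algebraMap R _ (Y (q (X k)))) fun f => by
      have h1 := hP.chain Y f.1
      rw [show q f.1 = 0 from f.2, map_zero] at h1
      simp only [← map_mul]
      rw [← map_sum, ← h1, map_zero]
    obtain ⟨s, η, hs, hη⟩ := den ξ
    refine ⟨s, hs, η, hP.der_ext fun k => inj ?_⟩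
    simp only [dsum, Derivation.smul_apply, smul_eq_mul, hΘ, map_sum, map_mul, hη,
      hξ, Finset.mul_sum, mul_assoc]
  let φ' : R →+* κ := q.toRingHom.liftOfSurjective hP.surj ⟨Φ.toRingHom, fun g hg => (hΦ g).2 hg⟩
  have hφ' : ∀ g, φ' (q g) = Φ g := fun g =>
    RingHom.liftOfSurjective_comp_apply q.toRingHom hP.surj _ g
  have hinj : Function.Injective φ' := (injective_iff_map_eq_zero φ').2 fun a ha => by
    obtain ⟨g, rfl⟩ := hP.surj a
    exact (hΦ g).1 (hφ' g ▸ ha)
  let j := algebraMap R (FractionRing R)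
  let ψ : FractionRing R →+* κ := IsFractionRing.lift hinj
  have hψ : ∀ g, ψ (j (q g)) = Φ g := fun g =>
    (IsFractionRing.lift_algebraMap hinj _).trans (hφ' g)
  have hspan : ∀ y, Tan Φ y → ∃ ξ : ι → κ, ∀ k, y k = ∑ i, ξ i * Φ (Θ i k) := fun y hy => by
    simpa only [hψ] using base ψ (fun i k => j (q (Θ i k)))
      (fun (f : RingHom.ker q) k => j (q (pderiv ℂ k f.1))) (spanK hP hω hH hΘ) y fun f => by
        simpa only [hψ] using hy f.1 ((hΦ _).2 f.2)
  refine ⟨hspan, fun hE V hV => ?_⟩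
  obtain ⟨n, c, y, z, hm, hsum⟩ := hE (V.comap ψ) fun a => by
    obtain ⟨g, rfl⟩ := hP.surj a
    rw [ValuationSubring.mem_comap]
    exact hψ g ▸ hV g
  have hfr : ∀ w : FractionRing R, ∃ a b, Φ b ≠ 0 ∧ w = j (q a) / j (q b) := fun w => by
    obtain ⟨a, b, hb, h⟩ := IsFractionRing.div_surjective R w
    obtain ⟨a, rfl⟩ := hP.surj a
    obtain ⟨b, rfl⟩ := hP.surj b
    exact ⟨a, b, fun h0 => nonZeroDivisors.ne_zero hb ((hΦ b).1 h0), h.symm⟩
  choose H' hH' using fun i => ext_der (H i)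
  replace hH' : ∀ i a, H' i (j a) = j (H i a) := hH'
  have hL : ∀ i, Lf q (Θ i) (H i) := fun i => hP.lf fun k => (hΘ i k).symm
  have hd : ∀ i a b, Φ b ≠ 0 →
      ψ (H' i (j (q a) / j (q b))) = dq Φ a b ⬝ᵥ fun k => Φ (Θ i k) := by
    intro i a b hb
    rw [← dfr_eq, Derivation.leibniz_div, hH', hH', hL, hL, dfr]
    simp only [smul_eq_mul, map_mul, map_sub, map_pow, map_inv₀, hψ]
    field_simp
  choose a b hb hab using fun s => hfr (y s)
  choose a' b' hb' hab' using fun s => hfr (z s)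
  refine ⟨Fin n, inferInstance, fun s => ψ (c s), a, b, a', b', fun s => ⟨(hm s).1, hb s, hb' s,
    ?_, ?_⟩, fun ξ x w hx hw => ?_⟩
  · rw [← hψ, ← hψ, ← map_div₀, ← hab]
    exact (hm s).2.1
  · rw [← hψ, ← hψ, ← map_div₀, ← hab']
    exact (hm s).2.2
  · obtain ⟨ζ, hζ⟩ := hspan w hw
    simp only [dot_comb _ ξ x (fun i k => Φ (Θ i k)) hx, dot_comb _ ζ w (fun i k => Φ (Θ i k)) hζ]
    have h1 := bil (fun s => -ψ (c s)) (fun s i => dq Φ (a s) (b s) ⬝ᵥ fun k => Φ (Θ i k))
      (fun s i => dq Φ (a' s) (b' s) ⬝ᵥ fun k => Φ (Θ i k)) ξ ζ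
    simp only [neg_mul, Finset.sum_neg_distrib, neg_neg] at h1
    rw [← h1]
    refine Finset.sum_congr rfl fun i _ => ?_
    rw [hζ i]
    refine congrArg _ (Finset.sum_congr rfl fun l _ => congrArg _ ?_)
    have h := congrArg ψ (hsum (H i) (H l) (H' i) (H' l) (hH' i) (hH' l))
    rw [hH, hΘ, map_sum] at h
    refine (hψ _).symm.trans (h.trans (Finset.sum_congr rfl fun s _ => ?_))
    rw [map_mul, map_sub, map_mul, map_mul, hab, hab', hd _ _ _ (hb s), hd _ _ _ (hb s),
      hd _ _ _ (hb' s), hd _ _ _ (hb' s)]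

end Pool.Agent.MP_51db15_ag.Nc
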