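import Pool.Agent.MP_51db15_ag.Nc.Base

/-! The valuation of rank two given by the order and a real weight. -/

set_option linter.unusedSectionVars false

namespace Pool.Agent.MP_51db15_ag.Nc

open MvPowerSeries Matrix Hy

namespace Val

abbrev G : Type := ℤ ×ₗ ℝ

variable {ι R : Type} [Fintype ι] [CommRing R] [Algebra ℂ R] {b : ι → ℝ}

/-- the value of a monomial -/
noncomputable def wt (b : ι → ℝ) (α : ι →₀ ℕ) : G :=
  toLex ((Finsupp.degree α : ℕ), -Finsupp.weight b α)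

theorem wt_add (α β : ι →₀ ℕ) : wt b (α + β) = wt b α + wt b β := by
  simp only [wt, map_add, ← toLex_add, Prod.mk_add_mk, Nat.cast_add, neg_add]

theorem wt_zero : wt b 0 = 0 := by simp [wt]

theorem wt_lt {α β : ι →₀ ℕ} (h : Finsupp.degree α < Finsupp.degree β) : wt b α < wt b β :=
  Prod.Lex.toLex_lt_toLex.2 (Or.inl (by simpa using h))

theorem wt_nonneg (α : ι →₀ ℕ) : 0 ≤ wt b α := by
  rcases eq_or_ne α 0 with rfl | h
  · exact wt_zero.ge
  · rw [← wt_zero (b := b)]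
    exact (wt_lt (by
      rw [map_zero]
      exact Nat.pos_of_ne_zero fun e => h ((Finsupp.degree_eq_zero_iff α).1 e))).le

theorem wt_eq {α β : ι →₀ ℕ} (h : wt b α = wt b β) :
    Finsupp.degree α = Finsupp.degree β ∧ Finsupp.weight b α = Finsupp.weight b β := by
  simpa [wt] using h

/-- the values of the monomials of `g` satisfy `P` -/
def Sp (b : ι → ℝ) (P : G → Prop) (g : PS ι) : Prop := ∀ α, coeff α g ≠ 0 → P (wt b α)

theorem fil_iff {k : ℕ} {t : ℝ} {g : PS ι} :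
    Fil b k t g ↔ Sp b (fun γ => toLex ((k : ℤ), -t) ≤ γ) g := by
  simp only [Fil, Sp, wt, Prod.Lex.toLex_le_toLex, Nat.cast_lt, Nat.cast_inj, neg_le_neg_iff]

variable {P Q T : G → Prop} {g h : PS ι}

theorem Sp.mono (hg : Sp b P g) (e : ∀ γ, P γ → Q γ) : Sp b Q g := fun α hα => e _ (hg α hα)

theorem Sp.add (hg : Sp b P g) (hh : Sp b P h) : Sp b P (g + h) := fun α hα => by
  by_cases e : coeff α g = 0
  · exact hh α (by rwa [map_add, e, zero_add] at hα)
  · exact hg α e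

theorem Sp.neg (hg : Sp b P g) : Sp b P (-g) := fun α hα => hg α (by simpa using hα)

theorem Sp.zero : Sp b P (0 : PS ι) := fun α hα => by simp at hα

theorem Sp.mul (hg : Sp b P g) (hh : Sp b Q h) (e : ∀ γ δ, P γ → Q δ → T (γ + δ)) :
    Sp b T (g * h) := fun α hα => by
  classical
  rw [coeff_mul] at hα
  obtain ⟨p, hp, h1⟩ := Finset.exists_ne_zero_of_sum_ne_zero hα
  rw [← Finset.HasAntidiagonal.mem_antidiagonal.1 hp, wt_add]
  exact e _ _ (hg _ (left_ne_zero_of_mul h1)) (hh _ (right_ne_zero_of_mul h1))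

theorem Sp.vf {x : ι → PS ι} {κ γ : G}
    (hx : ∀ i, Sp b (fun δ => wt b (Finsupp.single i 1) + κ ≤ δ) (x i))
    (hg : Sp b (fun δ => γ ≤ δ) g) : Sp b (fun δ => γ + κ ≤ δ) (vf x g) := by
  rw [vf_apply]
  refine Finset.sum_induction _ _ (fun _ _ => Sp.add) Sp.zero fun i _ => ?_
  refine (hx i).mul (Q := fun δ => γ ≤ δ + wt b (Finsupp.single i 1)) (fun α hα => ?_)
    fun u v hu hv => ?_
  · rw [coeff_pderiv] at hα
    rw [← wt_add]
    exact hg _ (left_ne_zero_of_mul hα)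
  · calc γ + κ ≤ v + wt b (Finsupp.single i 1) + κ := add_le_add_left hv κ
      _ = wt b (Finsupp.single i 1) + κ + v := by abel
      _ ≤ u + v := add_le_add_left hu v

variable {q : PS ι →ₐ[ℂ] R} {m : Ideal R} {r s : R} {γ δ : G}

/-- images of such series -/
def Im (q : PS ι →ₐ[ℂ] R) (b : ι → ℝ) (P : G → Prop) (r : R) : Prop := ∃ g, Sp b P g ∧ q g = r

theorem Im.mono (hr : Im q b P r) (e : ∀ γ, P γ → Q γ) : Im q b Q r :=
  hr.imp fun _ h => ⟨h.1.mono e, h.2⟩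

theorem Im.add (hr : Im q b P r) (hs : Im q b P s) : Im q b P (r + s) := by
  obtain ⟨g, hg, rfl⟩ := hr
  obtain ⟨h, hh, rfl⟩ := hs
  exact ⟨_, hg.add hh, map_add _ _ _⟩

theorem Im.neg (hr : Im q b P r) : Im q b P (-r) := by
  obtain ⟨g, hg, rfl⟩ := hr
  exact ⟨_, hg.neg, map_neg _ _⟩

theorem Im.sub (hr : Im q b P r) (hs : Im q b P s) : Im q b P (r - s) := by
  rw [sub_eq_add_neg]; exact hr.add hs.neg

theorem Im.zero : Im q b P 0 := ⟨0, Sp.zero, map_zero _⟩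

theorem Im.mul (hr : Im q b P r) (hs : Im q b Q s) (e : ∀ γ δ, P γ → Q δ → T (γ + δ)) :
    Im q b T (r * s) := by
  obtain ⟨g, hg, rfl⟩ := hr
  obtain ⟨h, hh, rfl⟩ := hs
  exact ⟨_, hg.mul hh e, map_mul _ _ _⟩

abbrev Ge (q : PS ι →ₐ[ℂ] R) (b : ι → ℝ) (γ : G) : R → Prop := Im q b fun δ => γ ≤ δ

abbrev Gt (q : PS ι →ₐ[ℂ] R) (b : ι → ℝ) (γ : G) : R → Prop := Im q b fun δ => γ < δ

/-- the value of `r` is exactly `γ` -/
def Ex (q : PS ι →ₐ[ℂ] R) (b : ι → ℝ) (γ : G) (r : R) : Prop := Ge q b γ r ∧ ¬ Gt q b γ r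

theorem Ge.mul (hr : Ge q b γ r) (hs : Ge q b δ s) {ε : G} (e : ε = γ + δ) : Ge q b ε (r * s) :=
  Im.mul hr hs fun _ _ h1 h2 => e ▸ add_le_add h1 h2

theorem Ge.le (hr : Ge q b γ r) (e : δ ≤ γ) : Ge q b δ r := Im.mono hr fun _ => e.trans

theorem Ex.le (hr : Ex q b γ r) (h : Ge q b δ r) : δ ≤ γ :=
  not_lt.1 fun e => hr.2 (Im.mono h fun _ => e.trans_le)

theorem Ex.ne (hr : Ex q b γ r) : r ≠ 0 := fun e => hr.2 (e ▸ Im.zero)

theorem ge_zero (hq : Pres q m) (r : R) : Ge q b 0 r :=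
  (hq.surj r).imp fun _ h => ⟨fun α _ => wt_nonneg α, h⟩

theorem ex_one [Nontrivial R] (hq : Pres q m) : Ex q b 0 1 := by
  refine ⟨ge_zero hq 1, fun ⟨g, hg, e⟩ => ?_⟩
  have h1 : q g ∈ m := hq.const.2 (by
    by_contra h
    exact (hg 0 h).ne' wt_zero)
  exact hq.nonunit.1 h1 (e ▸ isUnit_one)

theorem exists_ex (hq : Pres q m) (hr : r ≠ 0) : ∃ γ, Ex q b γ r := by
  obtain ⟨n, hn⟩ : ∃ n, r ∉ m ^ n := by
    by_contra h
    push Not at h
    exact hr (hq.sep h)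
  have fin := Finsupp.finite_of_degree_le (σ := ι) n
  obtain ⟨α, hα, mx⟩ := Set.exists_max_image {α | Finsupp.degree α ≤ n ∧ Ge q b (wt b α) r} (wt b)
    (fin.subset fun _ h => h.1) ⟨0, by simp, wt_zero (b := b) ▸ ge_zero hq r⟩
  refine ⟨_, hα.2, fun ⟨g, hg, e⟩ => ?_⟩
  obtain ⟨β, hβ, mn⟩ := Set.exists_min_image {β | Finsupp.degree β ≤ n ∧ coeff β g ≠ 0} (wt b)
    (fin.subset fun _ h => h.1) (by
      by_contra h
      refine hn (e ▸ hq.q_mem (nat_le_order fun β hβ => ?_))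
      by_contra h1
      exact h ⟨β, hβ.le, h1⟩)
  refine (hg β hβ.2).not_ge (mx β ⟨hβ.1, g, fun β' h => ?_, e⟩)
  rcases le_or_gt (Finsupp.degree β') n with h1 | h1
  · exact mn β' ⟨h1, h⟩
  · exact (wt_lt (hβ.1.trans_lt h1)).le

theorem gt_iff (hq : Pres q m) (hG : Gr q b) {α : ι →₀ ℕ} (hg : Sp b (fun δ => δ = wt b α) g) :
    Gt q b (wt b α) (q g) ↔ q g ∈ m ^ (Finsupp.degree α + 1) := by
  constructor
  · rintro ⟨u, hu, e⟩
    have h1 := hG (g - u) (by rw [map_sub, e, sub_self]) (Finsupp.weight b α)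
    rw [comp_sub, IsHom.comp_self fun β hβ => (wt_eq (hg β hβ)).2, map_sub, sub_eq_zero] at h1
    rw [h1]
    refine hq.q_mem (nat_le_order fun β hβ => ?_)
    rw [coeff_comp]
    split_ifs with h2
    · by_contra h3
      have := Prod.Lex.toLex_lt_toLex.1 (hu β h3)
      simp only [h2, lt_self_iff_false, and_false, or_false, Nat.cast_lt] at this
      omega
    · rfl
  · intro h
    obtain ⟨u, hu, e⟩ := hq.mem_pow.1 h
    refine ⟨u, fun β hβ => wt_lt ?_, e⟩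
    by_contra h1
    exact hβ (coeff_of_lt_order (lt_of_lt_of_le (by exact_mod_cast (by omega)) hu))

theorem Ex.init (hq : Pres q m) (hG : Gr q b) (hr : Ex q b γ r) :
    ∃ (α : ι →₀ ℕ) (g : PS ι), γ = wt b α ∧ Sp b (fun δ => δ = wt b α) g ∧ Gt q b γ (r - q g) ∧
      q g ∈ m ^ Finsupp.degree α ∧ q g ∉ m ^ (Finsupp.degree α + 1) := by
  classical
  obtain ⟨⟨g, hg, rfl⟩, h2⟩ := hr
  let g0 : PS ι := fun α => if wt b α = γ then coeff α g else 0
  have c : ∀ α, coeff α g0 = if wt b α = γ then coeff α g else 0 := fun _ => rfl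
  obtain ⟨α, hα⟩ : ∃ α, wt b α = γ := by
    by_contra h
    exact h2 ⟨g, fun α hα => (hg α hα).lt_of_ne fun e => h ⟨α, e.symm⟩, rfl⟩
  have h3 : Sp b (fun δ => δ = wt b α) g0 := fun β hβ => by
    by_contra h
    exact hβ (by rw [c, if_neg (hα ▸ h)])
  have h4 : Gt q b γ (q g - q g0) := ⟨g - g0, fun β hβ => by
    rw [map_sub, c] at hβ
    split_ifs at hβ with h
    · exact absurd (sub_self _) hβ
    · exact (hg β (by rwa [sub_zero] at hβ)).lt_of_ne' h, map_sub _ _ _⟩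
  refine ⟨α, g0, hα.symm, h3, h4, hq.q_mem (nat_le_order fun β hβ => ?_), fun h => h2 ?_⟩
  · by_contra h
    exact hβ.ne (wt_eq (h3 β h)).1
  · have := Im.add h4 (hα ▸ (gt_iff hq hG h3).2 h)
    rwa [sub_add_cancel] at this

theorem Ex.mul (hq : Pres q m) (hD : Dom m) (hG : Gr q b) (hr : Ex q b γ r) (hs : Ex q b δ s) :
    Ex q b (γ + δ) (r * s) := by
  refine ⟨hr.1.mul hs.1 rfl, fun h => ?_⟩
  obtain ⟨α, g, rfl, g1, g2, g3, g4⟩ := hr.init hq hG
  obtain ⟨β, u, rfl, u1, u2, -, u4⟩ := hs.init hq hG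
  have h1 : Gt q b (wt b α + wt b β) ((r - q g) * s) :=
    Im.mul g2 hs.1 fun _ _ => add_lt_add_of_lt_of_le
  have h2 : Gt q b (wt b α + wt b β) (q g * (s - q u)) :=
    Im.mul ⟨g, g1, rfl⟩ u2 fun _ _ e => add_lt_add_of_le_of_lt e.ge
  have h3 : Gt q b _ _ := (Im.sub h h1).sub h2
  rw [show r * s - (r - q g) * s - q g * (s - q u) = q (g * u) by rw [map_mul]; ring,
    ← wt_add, gt_iff hq hG (g1.mul u1 fun _ _ e e' => by rw [e, e', wt_add]), map_mul,
    map_add, add_assoc] at h3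
  exact u4 (hD _ _ _ _ g3 g4 h3)

variable [IsDomain R]

/-- elements of the fraction field of value at least `γ` -/
def W (q : PS ι →ₐ[ℂ] R) (b : ι → ℝ) (γ : G) (z : FractionRing R) : Prop :=
  ∃ δ a s, Ge q b (δ + γ) a ∧ Ex q b δ s ∧ z * algebraMap R _ s = algebraMap R _ a

variable {z w : FractionRing R}

theorem W.neg (hz : W q b γ z) : W q b γ (-z) := by
  obtain ⟨δ, a, s, h1, h2, h3⟩ := hz
  exact ⟨δ, -a, s, Im.neg h1, h2, by rw [neg_mul, h3, map_neg]⟩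

theorem W.add (hq : Pres q m) (hD : Dom m) (hG : Gr q b) (hz : W q b γ z) (hw : W q b γ w) :
    W q b γ (z + w) := by
  obtain ⟨δ, a, s, h1, h2, h3⟩ := hz
  obtain ⟨δ', a', s', h1', h2', h3'⟩ := hw
  refine ⟨δ + δ', a * s' + a' * s, s * s', Im.add (h1.mul h2'.1 (by abel)) (h1'.mul h2.1 (by abel)),
    h2.mul hq hD hG h2', ?_⟩
  simp only [map_add, map_mul, ← h3, ← h3']
  ring

theorem W.mul (hq : Pres q m) (hD : Dom m) (hG : Gr q b) (hz : W q b γ z) (hw : W q b δ w) {ε : G}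
    (e : ε = γ + δ) : W q b ε (z * w) := by
  obtain ⟨δ, a, s, h1, h2, h3⟩ := hz
  obtain ⟨δ', a', s', h1', h2', h3'⟩ := hw
  refine ⟨δ + δ', a * a', s * s', h1.mul h1' (by rw [e]; abel), h2.mul hq hD hG h2', ?_⟩
  simp only [map_mul, ← h3, ← h3']
  ring

theorem W.of (hq : Pres q m) (hr : Ge q b γ r) : W q b γ (algebraMap R _ r) :=
  ⟨0, r, 1, by rwa [zero_add], ex_one hq, by rw [map_one, mul_one]⟩

theorem W.ge (hq : Pres q m) (hD : Dom m) (hG : Gr q b) (h : W q b γ (algebraMap R _ r)) :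
    Ge q b γ r := by
  obtain ⟨δ, a, s, h1, h2, h3⟩ := h
  rw [← map_mul] at h3
  obtain rfl := IsFractionRing.injective R (FractionRing R) h3
  rcases eq_or_ne r 0 with rfl | hr
  · exact Im.zero
  · obtain ⟨ε, h4⟩ := exists_ex (b := b) hq hr
    have := (h4.mul hq hD hG h2).le h1
    rw [add_comm δ] at this
    exact h4.1.le (le_of_add_le_add_right this)

theorem W.der (hq : Pres q m) (hD : Dom m) (hG : Gr q b) {D : Der R} {x : ι → PS ι} {κ : G}
    (hx : ∀ i, Sp b (fun δ => wt b (Finsupp.single i 1) + κ ≤ δ) (x i)) (hl : Lf q x D)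
    {D' : Derivation ℂ (FractionRing R) (FractionRing R)}
    (h' : ∀ r, D' (algebraMap R _ r) = algebraMap R _ (D r)) (hz : W q b 0 z) :
    W q b κ (D' z) := by
  have k : ∀ γ r, Ge q b γ r → Ge q b (γ + κ) (D r) := by
    rintro γ _ ⟨g, hg, rfl⟩
    exact ⟨_, Sp.vf hx hg, (hl g).symm⟩
  obtain ⟨δ, a, s, h1, h2, h3⟩ := hz
  refine ⟨δ + δ, s * D a - a * D s, s * s, Im.sub (h2.1.mul (k _ _ h1) (by abel))
    (h1.mul (k _ _ h2.1) (by abel)), h2.mul hq hD hG h2, ?_⟩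
  have h4 := congrArg D' h3
  rw [Derivation.leibniz, h', h', smul_eq_mul, smul_eq_mul] at h4
  simp only [map_sub, map_mul, ← h3, ← h4]
  ring

/-- the valuation ring -/
def V (hq : Pres q m) (hD : Dom m) (hG : Gr q b) : ValuationSubring (FractionRing R) where
  carrier := {z | W q b 0 z}
  mul_mem' hz hw := W.mul hq hD hG hz hw (add_zero 0).symm
  one_mem' := by simpa using W.of hq (ge_zero (b := b) hq 1)
  add_mem' := W.add hq hD hG
  zero_mem' := by simpa using W.of hq (ge_zero (b := b) hq 0)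
  neg_mem' := W.neg
  mem_or_inv_mem' z := by
    obtain ⟨a, s, hs, rfl⟩ := IsFractionRing.div_surjective R z
    have inj := IsFractionRing.injective R (FractionRing R)
    rcases eq_or_ne a 0 with rfl | ha
    · left
      simpa using W.of hq (ge_zero (b := b) hq 0)
    obtain ⟨γ, h1⟩ := exists_ex (b := b) hq ha
    obtain ⟨δ, h2⟩ := exists_ex (b := b) hq (nonZeroDivisors.ne_zero hs)
    rcases le_total γ δ with h | h
    · exact Or.inr ⟨γ, s, a, h2.1.le (by rwa [add_zero]), h1, by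
        rw [inv_div, div_mul_cancel₀ _ ((map_ne_zero_iff _ inj).2 ha)]⟩
    · exact Or.inl ⟨δ, a, s, h1.1.le (by rwa [add_zero]), h2,
        div_mul_cancel₀ _ ((map_ne_zero_iff _ inj).2 h2.ne)⟩

theorem fil_sp {k : ℕ} {t : ℝ} {i : ι} (h : Fil b (k + 1) (b i + t) g) :
    Sp b (fun δ => wt b (Finsupp.single i 1) + toLex ((k : ℤ), -t) ≤ δ) g := by
  refine (fil_iff.1 h).mono fun γ e => le_of_eq_of_le ?_ e
  simp [wt, Finsupp.weight_single, ← toLex_add, add_comm]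

end Val

open Val in
theorem val : S_VAL := by
  intro ι R _ _ _ _ _ q m ω b hq hD hG hE x y D E k l t u hx hy fx fy
  obtain ⟨n, c, v, w, h1, h2⟩ := hE (V hq hD hG) fun r => W.of hq (ge_zero hq r)
  obtain ⟨D', hD'⟩ := ext_der D
  obtain ⟨E', hE'⟩ := ext_der E
  have a := fun z => W.der hq hD hG (z := z) (fun i => fil_sp (fx i)) hx hD'
  have a' := fun z => W.der hq hD hG (z := z) (fun i => fil_sp (fy i)) hy hE'
  have e : toLex (((k + l : ℕ) : ℤ), -(t + u)) = toLex ((k : ℤ), -t) + toLex ((l : ℤ), -u) := by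
    simp [← toLex_add, add_comm]
  have h3 : W q b (toLex (((k + l : ℕ) : ℤ), -(t + u))) (algebraMap R _ (ω D E)) := by
    rw [h2 D E D' E' hD' hE']
    refine Finset.sum_induction _ _ (fun _ _ => W.add hq hD hG)
      (by simpa using W.of hq (r := 0) Im.zero) fun s _ => ?_
    refine W.mul hq hD hG (h1 s).1 ?_ (zero_add _).symm
    rw [sub_eq_add_neg]
    exact W.add hq hD hG (W.mul hq hD hG (a _ (h1 s).2.1) (a' _ (h1 s).2.2) e)
      (W.mul hq hD hG (a _ (h1 s).2.2) (a' _ (h1 s).2.1) e).neg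
  obtain ⟨g, hg, e'⟩ := h3.ge hq hD hG
  exact ⟨g, fil_iff.2 hg, e'⟩

end Pool.Agent.MP_51db15_ag.Nc
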