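import Pool.Agent.MP_51db15_ag.Nc.Glue
import Pool.Agent.MP_51db15_ag.Nc.Span
import Pool.Agent.MP_51db15_ag.Nc.Js
import Pool.Agent.MP_51db15_ag.Nc.Val
import Pool.Agent.MP_51db15_ag.Nc.Ja
import Pool.Agent.MP_51db15_ag.Nc.Jb
import Pool.Agent.MP_51db15_ag.Nc.Jc
import Pool.Agent.MP_51db15_ag.Nc.D23
import Pool.Agent.MP_51db15_ag.Nc.Lin

/-! All steps, without hypotheses. -/

namespace Pool.Agent.MP_51db15_ag.Nc.Fin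

theorem rJS : S_JS := Nc.js Nc.span

theorem rA1 : Nc.S_A1 := Nc.a1 Nc.val

theorem rH0 : S_H0 := Nc.h0 (Nc.jb Nc.ja) Nc.jc

theorem rD4 : Nc.S_D4 := Nc.d4 (Nc.d2 Nc.span) (Nc.d3 Nc.span)

end Pool.Agent.MP_51db15_ag.Nc.Fin
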