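import Pool.Agent.MP_51db15_ag.Nc.Base

/-! The corrected dilating field acts as the identity on the cotangent space. -/

namespace Pool.Agent.MP_51db15_ag.Nc

open MvPowerSeries Matrix Hy

theorem h1 : S_H1 := by
  intro ι R _ _ _ _ _ q m ω ξ E d Δ h hP hD hω hpos hξ hall h1 h2 hE hh hH
  obtain ⟨Xh, hXh⟩ := hω.2.2 h
  have hξ' : IsDilating ω (ξ - Xh) := fun Y Z => by
    have e1 := hξ Y Z
    have e2 := ham_inv hω hXh Y Z
    rw [sub_lie, sub_lie, map_sub, map_sub, LinearMap.sub_apply, Derivation.sub_apply]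
    linear_combination e1 - e2
  have hH' : ω (ξ - Xh) E ∈ m ^ (d + 2) := by
    have e : ω (ξ - Xh) E = (ω ξ E - Δ * h) - (E h - Δ * h) := by
      rw [map_sub, LinearMap.sub_apply, hXh]; ring
    rw [e]
    exact sub_mem hH (hE h hh)
  refine ⟨ξ - Xh, hξ', fun x hx => ?_⟩
  generalize ξ - Xh = ζ at hξ' hH'
  have m1 : ∀ (D : Der R), ∀ y ∈ m, D y ∈ m := fun D y hy => by
    simpa using hall D 1 y (by simpa using hy)
  obtain ⟨Xx, hXx⟩ := hω.2.2 x
  have e1 := cartan hω hξ' E Xx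
  rw [skew hω E Xx, skew hω ζ Xx, hXx, hXx, map_neg] at e1
  have hΔ : Xx Δ ∈ m ^ d := hall Xx d Δ h1
  have hZ : Sh m (2 * d + 1) (Δ • ⁅E, Xx⁆ + Xx Δ • E) := hP.sh fun k => by
    have a1 := hE _ (m1 Xx _ (hP.X_mem k))
    have a2 := hE _ (hP.X_mem k)
    have a3 : Xx (E (q (X k)) - Δ * q (X k)) ∈ m ^ (d + 2) := hall Xx _ _ a2
    have e : (Δ • ⁅E, Xx⁆ + Xx Δ • E) (q (X k)) =
        Δ * ((E (Xx (q (X k))) - Δ * Xx (q (X k))) - Xx (E (q (X k)) - Δ * q (X k))) +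
          Xx Δ * (E (q (X k)) - Δ * q (X k)) := by
      simp only [Derivation.add_apply, Derivation.smul_apply, Derivation.commutator_apply, map_sub,
        Derivation.leibniz, smul_eq_mul]
      ring
    rw [e]
    exact add_mem (mul_mem_pow h1 (sub_mem a1 a3) (by omega)) (mul_mem_pow hΔ a2 (by omega))
  have a4 := hpos 0 _ ζ _ (hall ζ) hZ
  rw [map_add, map_smul, map_smul, smul_eq_mul, smul_eq_mul] at a4
  have a5 : ω ζ ⁅E, Xx⁆ ∈ m ^ (d + 2) := hD d (d + 2) Δ _ h1 h2 (by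
    have := sub_mem (Ideal.pow_le_pow_right (by omega : d + (d + 2) ≤ 0 + (2 * d + 1) + 1) a4)
      (mul_mem_pow hΔ hH' (le_refl (d + (d + 2))))
    rwa [add_sub_cancel_right] at this)
  have a6 : E (ζ x - x) ∈ m ^ (d + 2) := by
    have e : E (ζ x - x) = -Xx (ω ζ E) - ω ζ ⁅E, Xx⁆ := by
      rw [map_sub]; linear_combination e1
    rw [e]
    exact sub_mem (neg_mem (hall Xx _ _ hH')) a5
  refine hD d 2 Δ _ h1 h2 ?_
  have := sub_mem a6 (hE _ (sub_mem (m1 ζ x hx) hx))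
  rwa [sub_sub_cancel] at this

end Pool.Agent.MP_51db15_ag.Nc
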