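import Pool.Agent.MP_51db15_ag.Nc.H0
import Pool.Agent.MP_51db15_ag.Nc.H1

/-! The steps give the theorem. -/

namespace Pool.Agent.MP_51db15_ag.Nc

open MvPowerSeries Hy

theorem glue (js : S_JS) (a1 : Nc.S_A1) (h0 : S_H0) (li : S_LIN) (th : Nc.S_TH) (d4 : Nc.S_D4)
    {ι : Type} [Fintype ι] [DecidableEq ι] (I : Ideal (PS ι)) [IsDomain (PS ι ⧸ I)]
    [IsDomain (PP ι ⧸ tangentCone I)] [hn : IsIntegrallyClosed (PP ι ⧸ tangentCone I)]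
    (ω : Frm (PS ι ⧸ I)) (hω : IsSymplecticForm ω) (hV : ExtR ω)
    (hm : ∀ (D : Der (PS ι ⧸ I)) (r : PS ι ⧸ I), ¬ IsUnit r → ¬ IsUnit (D r))
    (ξ : Der (PS ι ⧸ I)) (hξ : IsDilating ω ξ) :
    ∃ ψ : PS ι ≃ₐ[ℂ] PS ι, ((tangentCone I).map (co ι)).map ψ = I ∧
      ∃ (K : Type) (_ : Field K) (_ : Algebra ℂ K) (φ : PP ι →ₐ[ℂ] K)
        (ω₀ : LinearMap.BilinForm K (Derivation ℂ K K)) (𝒢 : ℕ → Submodule ℂ φ.range),
        RingHom.ker φ = tangentCone I ∧ IsConicalSymplectic φ.range ω₀ 𝒢 ∧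
          ∀ i, φ.rangeRestrict (.X i) ∈ 𝒢 1 := by
  let q : PS ι →ₐ[ℂ] PS ι ⧸ I := Ideal.Quotient.mkₐ ℂ I
  have hP : Pres q ((IsLocalRing.maximalIdeal (PS ι)).map q) :=
    ⟨Ideal.Quotient.mkₐ_surjective ℂ I, rfl⟩
  generalize (IsLocalRing.maximalIdeal (PS ι)).map q = m at hP
  have hI : RingHom.ker q = I := Ideal.Quotient.mkₐ_ker ℂ I
  have hC : Cone q m (tangentCone I) := by
    have h := hP.cone
    rwa [hI] at h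
  have hp : (tangentCone I).IsPrime := (Ideal.Quotient.isDomain_iff_prime _).1 inferInstance
  have hD := hC.dom hP hp
  have m1 : ∀ (D : Der (PS ι ⧸ I)), ∀ x ∈ m, D x ∈ m := fun D x hx =>
    hP.nonunit.2 (hm D x (hP.nonunit.1 hx))
  have hall : ∀ D : Der (PS ι ⧸ I), Sh m 0 D := fun D => hP.sh fun i => by
    simpa using m1 D _ (hP.X_mem i)
  obtain ⟨q', c, S, b1, b2, b3, b4⟩ := js ι _ q m ω ξ hP hω hξ (m1 ξ)
  have hpos := a1 ι _ q' m ω c S b1 hD hV b2 b3 b4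
  obtain ⟨d, δ, E, c1, c2, h, c3, c4⟩ := h0 ι _ q m _ ω ξ hP hC hp hn hpos (hall ξ)
  obtain ⟨ζ, e1, e2⟩ := h1 ι _ q m ω ξ E d _ h hP hD hω hpos hξ hall (hP.hom_mem c2.1)
    (fun h => c1 ((hC.mem d δ c2.1).2 h)) c2.2 c3 c4
  obtain ⟨ψ, f1, f2⟩ := li ι _ q m _ ζ hP hC e2
  obtain ⟨H, Θ, hM⟩ := th ι _ (q.comp (ψ : PS ι →ₐ[ℂ] PS ι)) m _ ω ζ (hP.comp ψ) hC.hom f1 hω f2 e1
  refine ⟨ψ, Ideal.ext fun g => ?_, d4 ι _ _ m _ ω H Θ hM hV hp hn⟩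
  have hq : ∀ g, q g = 0 ↔ g ∈ I := fun g => Ideal.Quotient.eq_zero_iff_mem
  rw [Ideal.mem_map_iff_of_surjective ψ ψ.surjective]
  constructor
  · rintro ⟨x, hx, rfl⟩
    exact (hq _).1 ((f1 x).2 hx)
  · intro hg
    exact ⟨ψ.symm g, (f1 _).1 (by rw [ψ.apply_symm_apply]; exact (hq g).2 hg),
      ψ.apply_symm_apply g⟩

end Pool.Agent.MP_51db15_ag.Nc
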