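import Pool.Agent.MP_51db15_ag.Nc.D4

/-! The Hamiltonian function of the difference of the dilating field and the Euler field. -/

set_option linter.unusedSectionVars false

namespace Pool.Agent.MP_51db15_ag.Nc

open MvPolynomial Hy

namespace H0

variable {ι : Type} [Fintype ι]

/-- the Euler operator -/
noncomputable def eu : PP ι →ₗ[ℂ] PP ι :=
  ∑ k, LinearMap.mulLeft ℂ (X k) ∘ₗ (pderiv k).toLinearMap

theorem eu_apply (g : PP ι) : eu g = ∑ k, X k * pderiv k g := by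
  simp [eu, LinearMap.sum_apply]

theorem eu_hom {n : ℕ} {g : PP ι} (h : g.IsHomogeneous n) : eu g = (n : ℂ) • g := by
  rw [eu_apply, h.sum_X_mul_pderiv, Nat.cast_smul_eq_nsmul]

theorem eu_mul (a b : PP ι) : eu (a * b) = a * eu b + b * eu a := by
  simp only [eu_apply, Derivation.leibniz, smul_eq_mul, Finset.mul_sum, ← Finset.sum_add_distrib]
  exact Finset.sum_congr rfl fun k _ => by ring

theorem comp_eu (n : ℕ) (g : PP ι) :
    homogeneousComponent n (eu g) = (n : ℂ) • homogeneousComponent n g := by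
  have h : ∀ k, homogeneousComponent n (eu (homogeneousComponent k g)) =
      (n : ℂ) • homogeneousComponent n (homogeneousComponent k g) := fun k => by
    rw [eu_hom (homogeneousComponent_isHomogeneous k g), map_smul,
      homogeneousComponent_of_mem (homogeneousComponent_mem k g)]
    split_ifs with h
    · rw [h]
    · simp
  conv_lhs => rw [← sum_homogeneousComponent g]
  conv_rhs => rw [← sum_homogeneousComponent g]
  simp only [map_sum, h, Finset.smul_sum]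

theorem eu_mem {J : Ideal (PP ι)} (hJ : HomI J) {g : PP ι} (hg : g ∈ J) : eu g ∈ J := by
  rw [← sum_homogeneousComponent g, map_sum]
  refine Ideal.sum_mem _ fun n _ => ?_
  rw [eu_hom (homogeneousComponent_isHomogeneous n g), smul_eq_C_mul]
  exact Ideal.mul_mem_left _ _ (hJ g hg n)

theorem of_smul {Q : Ideal (PP ι)} {c : ℂ} (hc : c ≠ 0) {g : PP ι} (h : c • g ∈ Q) : g ∈ Q := by
  have := Ideal.mul_mem_left Q (C c⁻¹) h
  rwa [← smul_eq_C_mul, smul_smul, inv_mul_cancel₀ hc, one_smul] at this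

theorem homI_of_eu {Q : Ideal (PP ι)} (hQ : ∀ g ∈ Q, eu g ∈ Q) : HomI Q := by
  have key : ∀ N : ℕ, ∀ g ∈ Q, (∀ n, N ≤ n → homogeneousComponent n g = 0) →
      ∀ n, homogeneousComponent n g ∈ Q := by
    intro N
    induction N with
    | zero => intro g _ h n; rw [h n n.zero_le]; exact Q.zero_mem
    | succ N ih =>
      intro g hg h
      have e : ∀ n, homogeneousComponent n (eu g - (N : ℂ) • g) =
          ((n : ℂ) - N) • homogeneousComponent n g := fun n => by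
        rw [map_sub, comp_eu, map_smul, sub_smul]
      have h1 := ih (eu g - (N : ℂ) • g)
        (sub_mem (hQ g hg) (by rw [smul_eq_C_mul]; exact Ideal.mul_mem_left _ _ hg))
        (fun n hn => by
          rw [e]
          rcases hn.lt_or_eq with h2 | h2
          · rw [h n h2, smul_zero]
          · rw [h2, sub_self, zero_smul])
      have h2 : ∀ n, n ≠ N → homogeneousComponent n g ∈ Q := fun n hn =>
        of_smul (sub_ne_zero.2 (by exact_mod_cast hn)) (e n ▸ h1 n)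
      intro n
      by_cases hn : n ∈ Finset.range (g.totalDegree + 1)
      · by_cases h3 : n = N
        · have h4 := sub_mem hg (Ideal.sum_mem Q
            (t := (Finset.range (g.totalDegree + 1)).erase n) (f := fun k => homogeneousComponent k g)
            fun k hk => h2 k (h3 ▸ Finset.ne_of_mem_erase hk))
          nth_rewrite 1 [← sum_homogeneousComponent g] at h4
          rwa [← Finset.add_sum_erase _ _ hn, add_sub_cancel_right] at h4
        · exact h2 n h3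
      · rw [homogeneousComponent_eq_zero n g (by simpa using hn)]
        exact Q.zero_mem
  exact fun g hg => key (g.totalDegree + 1) g hg fun n hn => homogeneousComponent_eq_zero n g hn

theorem unif {A : Type} [CommRing A] [IsNoetherianRing A] {Q P N : Ideal A} (hP : P.IsPrime)
    (h : ∀ x ∈ Q, ∃ s ∉ P, s * x ∈ N) : ∃ s ∉ P, ∀ x ∈ Q, s * x ∈ N := by
  classical
  obtain ⟨T, rfl⟩ := IsNoetherian.noetherian Q
  choose! s h1 h2 using h
  refine ⟨∏ x ∈ T, s x, fun h3 => ?_, fun x hx => ?_⟩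
  · obtain ⟨x, hx, h4⟩ := Ideal.IsPrime.prod_mem_iff.1 h3
    exact h1 x (Submodule.subset_span hx) h4
  · induction hx using Submodule.span_induction with
    | mem x hx =>
      rw [← Finset.prod_erase_mul _ _ hx, mul_assoc]
      exact Ideal.mul_mem_left _ _ (h2 x (Submodule.subset_span hx))
    | zero => simp
    | add x y _ _ hx hy => rw [mul_add]; exact add_mem hx hy
    | smul a x _ hx => rw [smul_eq_mul, mul_left_comm]; exact Ideal.mul_mem_left _ _ hx

section Div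

variable {K : Type} [Field K] [Algebra ℂ K] (φ : PP ι →ₐ[ℂ] K) {v : DV K}

/-- the centre of a valuation -/
def ctr (hv : ∀ g, v.Ge 0 (φ g)) : Ideal (PP ι) where
  carrier := {g | v.Ge 1 (φ g)}
  add_mem' ha hb := by rw [Set.mem_ofPred_eq, map_add]; exact ha.add hb
  zero_mem' := by rw [Set.mem_ofPred_eq, map_zero]; exact DV.ge_zero 1
  smul_mem' c g hg := by
    rw [Set.mem_ofPred_eq, smul_eq_mul, map_mul]; exact DV.Ge.mul_left (hv c) hg

theorem mem_ctr {hv : ∀ g, v.Ge 0 (φ g)} {g : PP ι} : g ∈ ctr φ hv ↔ v.Ge 1 (φ g) := Iff.rfl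

theorem ctr_prime (hv : ∀ g, v.Ge 0 (φ g)) : (ctr φ hv).IsPrime :=
  ⟨(Ideal.ne_top_iff_one _).2 (by rw [mem_ctr, map_one]; exact DV.not_ge_one_one),
    fun {a b} h => DV.ge_one_mul (hv a) (hv b) (by rwa [mem_ctr, map_mul] at h)⟩

theorem ctr_prin {J : Ideal (PP ι)} (hk : ∀ g, φ g = 0 ↔ g ∈ J) (hd : IsDiv (φ.range : Set K) v)
    (hv : ∀ g, v.Ge 0 (φ g)) : Prin J (ctr φ hv) := by
  obtain ⟨π, h0, h1⟩ := v.unif
  obtain ⟨_, ⟨a, rfl⟩, _, ⟨s, rfl⟩, s0, s1, e⟩ := hd.2 π (Or.inr (by omega))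
  change φ s ≠ 0 at s0
  change v.ord (φ s) = 0 at s1
  change π = φ a / φ s at e
  have a0 : φ a ≠ 0 := fun h => h0 (by rw [e, h, zero_div])
  have a1 : v.ord (φ a) = 1 := by rw [e, v.ord_div a0 s0, s1, sub_zero] at h1; exact h1
  obtain ⟨t, t1, t2⟩ := unif (Q := ctr φ hv) (N := Ideal.span {a} ⊔ J) (ctr_prime φ hv)
    fun x hx => by
      have h2 : v.Ge 0 (φ x / φ a) := by simpa [a1] using DV.Ge.div ((mem_ctr φ).1 hx) a0
      obtain ⟨_, ⟨b, rfl⟩, _, ⟨u, rfl⟩, u0, u1, e'⟩ := hd.2 _ h2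
      change φ u ≠ 0 at u0
      change φ x / φ a = φ b / φ u at e'
      refine ⟨u, DV.not_ge_of_unit u0 u1, Submodule.mem_sup.2 ⟨b * a,
        Ideal.mem_span_singleton'.2 ⟨b, rfl⟩, u * x - b * a, (hk _).1 ?_, by ring⟩⟩
      rw [div_eq_div_iff a0 u0] at e'
      rw [map_sub, map_mul, map_mul, ← e']
      ring
  refine ⟨a, Or.inr a1.ge, t, t1, fun x hx => ?_⟩
  obtain ⟨y, hy, z, hz, e'⟩ := Submodule.mem_sup.1 (t2 x hx)
  obtain ⟨b, rfl⟩ := Ideal.mem_span_singleton'.1 hy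
  exact ⟨b, by rw [← e', add_sub_cancel_left]; exact hz⟩

theorem ctr_hom {J : Ideal (PP ι)} (hJ : HomI J) (hk : ∀ g, φ g = 0 ↔ g ∈ J)
    (hfr : ∀ y : K, ∃ a b, y = φ a / φ b) (hd : IsDiv (φ.range : Set K) v)
    (hv : ∀ g, v.Ge 0 (φ g)) {d : ℕ} {δ : PP ι} (h1 : δ.IsHomogeneous d) (h2 : φ δ ≠ 0)
    (h3 : v.Ge 1 (φ δ)) : HomI (ctr φ hv) := by
  obtain ⟨D, hD⟩ := lift (PP ι) K φ (φ.toLinearMap ∘ₗ eu) hfr
    (fun a b => by
      change φ (eu (a * b)) = φ a * φ (eu b) + φ b * φ (eu a)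
      rw [eu_mul, map_add, map_mul, map_mul])
    (fun a ha => (hk _).2 (eu_mem hJ ((hk a).1 ha)))
  replace hD : ∀ a, D (φ a) = φ (eu a) := hD
  have hc : v.Const := fun c => by simpa using hv (C c)
  have h4 := Hy.D4.div_der hd D (by rintro _ ⟨g, rfl⟩; exact (hD g).symm ▸ hv (eu g))
  refine homI_of_eu fun g hg => ?_
  rw [mem_ctr, ← hD]
  refine DV.der_ge_of_log hc D h4 h2 (by have := h3.le h2; omega) ?_ hg
  rw [hD, eu_hom h1, map_smul, smul_div_assoc, div_self h2]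
  exact hc.smul _ DV.ge_one

end Div

section Lift

variable {R : Type} [CommRing R] [Algebra ℂ R] {q : PS ι →ₐ[ℂ] R} {m : Ideal R}
  {J : Ideal (PP ι)} {ω : Frm R} {ξ : Der R}

theorem el_sh (hP : Pres q m) {d : ℕ} {δ : PP ι} {E : Der R} (h : EL q m d δ E) : Sh m d E :=
  hP.sh fun k => by
    have h1 := add_mem (Ideal.pow_le_pow_right (by omega : d + 1 ≤ d + 2) (h.2 _ (hP.X_mem k)))
      (mul_mem_pow (hP.hom_mem h.1) (pow_one m ▸ hP.X_mem k : _ ∈ m ^ 1) (le_refl (d + 1)))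
    rwa [sub_add_cancel] at h1

theorem indep (hP : Pres q m) (hC : Cone q m J) (hp : Pos m ω) (hξ : Sh m 0 ξ) {d d' : ℕ}
    {δ δ' η η' : PP ι} {E E' : Der R} (h : EL q m d δ E) (h' : EL q m d' δ' E')
    (a : η.IsHomogeneous (d + 1)) (b : ω ξ E - q (η : PS ι) ∈ m ^ (d + 2))
    (a' : η'.IsHomogeneous (d' + 1)) (b' : ω ξ E' - q (η' : PS ι) ∈ m ^ (d' + 2)) :
    δ' * η - δ * η' ∈ J := by
  have hZ : Sh m (d + d' + 1) (q (δ' : PS ι) • E - q (δ : PS ι) • E') := hP.sh fun k => by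
    have e : (q (δ' : PS ι) • E - q (δ : PS ι) • E') (q (MvPowerSeries.X k)) =
        q (δ' : PS ι) * (E (q (MvPowerSeries.X k)) - q (δ : PS ι) * q (MvPowerSeries.X k)) -
          q (δ : PS ι) * (E' (q (MvPowerSeries.X k)) - q (δ' : PS ι) * q (MvPowerSeries.X k)) := by
      simp only [Derivation.sub_apply, Derivation.smul_apply, smul_eq_mul]
      ring
    rw [e]
    exact sub_mem (mul_mem_pow (hP.hom_mem h'.1) (h.2 _ (hP.X_mem k)) (by omega))
      (mul_mem_pow (hP.hom_mem h.1) (h'.2 _ (hP.X_mem k)) (by omega))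
  have h1 := hp 0 _ ξ _ hξ hZ
  rw [map_sub, map_smul, map_smul, smul_eq_mul, smul_eq_mul] at h1
  have h2 : (δ' * η).IsHomogeneous (d + d' + 1) := by
    have := h'.1.mul a
    rwa [show d' + (d + 1) = d + d' + 1 by omega] at this
  refine (hC.mem (d + d' + 1) _ (h2.sub (h.1.mul a'))).2 ?_
  have e : q ((δ' * η - δ * η' : PP ι) : PS ι) =
      (q (δ' : PS ι) * ω ξ E - q (δ : PS ι) * ω ξ E') - q (δ' : PS ι) * (ω ξ E - q (η : PS ι)) +
        q (δ : PS ι) * (ω ξ E' - q (η' : PS ι)) := by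
    rw [← co_apply, map_sub, map_mul, map_mul, map_sub, map_mul, map_mul]
    simp only [co_apply]
    ring
  rw [e]
  exact add_mem (sub_mem (Ideal.pow_le_pow_right (by omega) h1)
    (mul_mem_pow (hP.hom_mem h'.1) b (by omega))) (mul_mem_pow (hP.hom_mem h.1) b' (by omega))

end Lift

end H0

open H0 in
theorem h0 (jb : S_JB) (jc : S_JC) : S_H0 := by
  intro ι R _ _ _ _ _ q m J ω ξ hP hC hp hn hpos hξ
  have hD := hC.dom hP hp
  have key : ∀ Q : Ideal (PP ι), Q.IsPrime → HomI Q → J ≤ Q → Prin J Q →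
      ∃ (d : ℕ) (δ η : PP ι) (E : Der R), δ ∉ Q ∧ EL q m d δ E ∧ η.IsHomogeneous (d + 1) ∧
        ω ξ E - q (η : PS ι) ∈ m ^ (d + 2) := fun Q h1 h2 h3 h4 => by
    obtain ⟨d, δ, E, h5, h6⟩ := jc ι R q m J Q hP hC hD (jb ι J Q hp h1 hC.hom h2 h3 h4)
    have h7 := hpos 0 d ξ E hξ (el_sh hP h6)
    rw [zero_add] at h7
    obtain ⟨η, h8, h9⟩ := hP.exists_in h7
    exact ⟨d, δ, η, E, h5, h6, h8, h9⟩
  obtain ⟨d, δ, η, E, a1, a2, a3, a4⟩ := key J hp hC.hom le_rfl
    ⟨0, J.zero_mem, 1, (Ideal.ne_top_iff_one J).1 hp.ne_top, fun h hh => ⟨0, by simpa using hh⟩⟩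
  obtain ⟨K, _, _, φ, hk, hfr⟩ := D4.exists_field J hp
  have δ0 : φ δ ≠ 0 := fun h => a1 ((hk δ).1 h)
  have hs : Function.Surjective φ.rangeRestrict := φ.rangeRestrict_surjective
  have hf : ∀ y : K, ∃ a ∈ φ.range.toSubring, ∃ b ∈ φ.range.toSubring, b ≠ 0 ∧ y = a / b :=
    fun y => by
      obtain ⟨a, b, e⟩ := hfr y
      by_cases hb : φ b = 0
      · exact ⟨0, zero_mem _, 1, one_mem _, one_ne_zero, by rw [e, hb]; simp⟩
      · exact ⟨_, ⟨a, rfl⟩, _, ⟨b, rfl⟩, hb, e⟩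
  have hft : Algebra.FiniteType ℂ φ.range := Algebra.FiniteType.of_surjective _ hs
  have hN : IsNoetherianRing φ.range := Algebra.FiniteType.isNoetherianRing ℂ _
  have hF' : IsFractionRing φ.range K := IsFractionRing.of_field _ K fun y => by
    obtain ⟨a, ha, b, hb, -, e⟩ := hf y
    exact ⟨⟨a, ha⟩, ⟨b, hb⟩, e⟩
  have hk' : ∀ g, φ.rangeRestrict g = 0 ↔ g ∈ J := fun g => Subtype.ext_iff.trans (hk g)
  have hI : IsIntegrallyClosed φ.range := IsIntegrallyClosed.of_equiv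
    ((Ideal.quotEquivOfEq (Ideal.ext fun g => (hk' g).symm)).trans
      (Ideal.quotientKerAlgEquivOfSurjective hs).toRingEquiv)
  have hI' : ∀ y : K, IsIntegral φ.range.toSubring y → y ∈ φ.range.toSubring := fun y hy => by
    have hy' : IsIntegral φ.range y := hy
    obtain ⟨z, rfl⟩ := (isIntegrallyClosed_iff K).1 hI hy'
    exact z.2
  have hy : φ η / φ δ ∈ φ.range.toSubring := by
    by_contra hy
    obtain ⟨v, hv, -, b1, b2⟩ := @krull K _ φ.range.toSubring hN hI' hf ⊥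
      (fun s hs => Submonoid.mem_bot.1 hs ▸ one_mem _) (φ η / φ δ) (φ δ) ⟨δ, rfl⟩ δ0
      (by rw [mul_div_cancel₀ _ δ0]; exact ⟨η, rfl⟩)
      (fun s hs => by rwa [Submonoid.mem_bot.1 hs, one_mul])
    have hv' : ∀ g, v.Ge 0 (φ g) := fun g => hv.1 _ ⟨g, rfl⟩
    obtain ⟨d', δ', η', E', c1, c2, c3, c4⟩ := key (ctr φ hv') (ctr_prime φ hv')
      (ctr_hom φ hC.hom hk hfr hv hv' a2.1 δ0 b1)
      (fun g hg => by rw [mem_ctr, (hk g).2 hg]; exact DV.ge_zero 1) (ctr_prin φ hk hv hv')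
    obtain ⟨c5, c6⟩ := DV.unit_of_not_ge (hv' δ') c1
    have c7 := (hk _).2 (indep hP hC hpos hξ a2 c2 a3 a4 c3 c4)
    rw [map_sub, map_mul, map_mul, sub_eq_zero] at c7
    refine b2 ?_
    rw [show φ η / φ δ = φ η' / φ δ' by rw [div_eq_div_iff δ0 c5]; linear_combination c7]
    exact (hv' η').div_unit c5 c6
  obtain ⟨p, e⟩ := hy
  change φ p = φ η / φ δ at e
  have b1 : δ * p - η ∈ J := (hk _).1 (by rw [map_sub, map_mul, e, mul_div_cancel₀ _ δ0, sub_self])
  have b2 := hC.hom _ b1 (d + 1)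
  rw [map_sub, homogeneousComponent_eq_self a3, ← hc_coe, coe_mul, hc_hom_mul a2.1] at b2
  have b3 := (hC.mem (d + 1) _ ((a2.1.mul (hc_hom 1 _)).sub a3)).1 b2
  refine ⟨d, δ, E, a1, a2, q (hc 1 (p : PS ι) : PS ι), pow_one m ▸ hP.hom_mem (hc_hom 1 _), ?_⟩
  rw [← co_apply, map_sub, map_mul, map_sub, map_mul] at b3
  have := sub_mem a4 b3
  simp only [co_apply] at this
  rwa [show ∀ a b c : R, a - b - (c - b) = a - c from fun a b c => by ring] at this

end Pool.Agent.MP_51db15_ag.Nc
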