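import Pool.Agent.MP_51db15_ag.Nc.Stmt
import Pool.Agent.MP_51db15_ag.Hy.Rows
import Pool.Agent.MP_51db15_ag.Hy.Base

/-! Germs with a normal tangent cone: internal definitions and the statements of the steps. -/

namespace Pool.Agent.MP_51db15_ag.Nc

open MvPowerSeries Matrix Hy

abbrev PP (ι : Type) : Type := MvPolynomial ι ℂ

abbrev Der (R : Type) [CommRing R] [Algebra ℂ R] : Type := Derivation ℂ R R

abbrev Frm (R : Type) [CommRing R] [Algebra ℂ R] : Type := LinearMap.BilinForm R (Derivation ℂ R R)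

section Defs

variable {ι R : Type} [Fintype ι] [CommRing R] [Algebra ℂ R]

/-- polynomials as series -/
noncomputable abbrev co (ι : Type) : PP ι →+* PS ι := MvPolynomial.coeToMvPowerSeries.ringHom

/-- the homogeneous component of degree `n`, as a polynomial -/
noncomputable def hc (n : ℕ) (g : PS ι) : PP ι :=
  MvPolynomial.homogeneousComponent n (truncTotal (n + 1) g)

/-- a presentation of the complete local ring `R` with maximal ideal `m` -/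
structure Pres (q : PS ι →ₐ[ℂ] R) (m : Ideal R) : Prop where
  surj : Function.Surjective q
  mx : m = (IsLocalRing.maximalIdeal (PS ι)).map q

/-- homogeneous ideal -/
def HomI (J : Ideal (PP ι)) : Prop := ∀ F ∈ J, ∀ n, MvPolynomial.homogeneousComponent n F ∈ J

/-- `J` is the ideal of the tangent cone -/
structure Cone (q : PS ι →ₐ[ℂ] R) (m : Ideal R) (J : Ideal (PP ι)) : Prop where
  hom : HomI J
  mem : ∀ (d : ℕ) (F : PP ι), F.IsHomogeneous d → (F ∈ J ↔ q (F : PS ι) ∈ m ^ (d + 1))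

/-- the derivation raises the order by `k` -/
def Sh (m : Ideal R) (k : ℕ) (X : Der R) : Prop := ∀ n, ∀ r ∈ m ^ n, X r ∈ m ^ (n + k)

/-- the associated graded ring is a domain -/
def Dom (m : Ideal R) : Prop := ∀ (k l : ℕ) (r s : R), r ∈ m ^ k → r ∉ m ^ (k + 1) →
  r * s ∈ m ^ (k + l) → s ∈ m ^ l

/-- the form extends to all valuation rings -/
def ExtR [IsDomain R] (ω : Frm R) : Prop :=
  ∀ V : ValuationSubring (FractionRing R), (∀ r : R, algebraMap _ _ r ∈ V) → KaehlerOn ω V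

/-- the form has order at least one -/
def Pos (m : Ideal R) (ω : Frm R) : Prop :=
  ∀ (k l : ℕ) (X Y : Der R), Sh m k X → Sh m l Y → ω X Y ∈ m ^ (k + l + 1)

/-- the field with components `x` lifts the derivation `D` -/
def Lf (q : PS ι →ₐ[ℂ] R) (x : ι → PS ι) (D : Der R) : Prop := ∀ g, D (q g) = q (vf x g)

/-- Hamiltonian fields of the coordinates -/
def Hm (q : PS ι →ₐ[ℂ] R) (ω : Frm R) (H : ι → Der R) : Prop := ∀ i Y, ω (H i) Y = Y (q (X i))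

/-- the kernel is graded by the weights `c` -/
def Gr {M : Type} [AddCommGroup M] (q : PS ι →ₐ[ℂ] R) (c : ι → M) : Prop :=
  ∀ g, q g = 0 → ∀ e, q (comp c e g) = 0

/-- order at least `k`, and weight at most `t` in degree `k` -/
def Fil (b : ι → ℝ) (k : ℕ) (t : ℝ) (g : PS ι) : Prop := ∀ α, coeff α g ≠ 0 →
  k < Finsupp.degree α ∨ (k = Finsupp.degree α ∧ Finsupp.weight b α ≤ t)

/-- `E` is `δ` times the Euler field, to leading order -/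
def EL (q : PS ι →ₐ[ℂ] R) (m : Ideal R) (d : ℕ) (δ : PP ι) (E : Der R) : Prop :=
  δ.IsHomogeneous d ∧ ∀ y ∈ m, E y - q (δ : PS ι) * y ∈ m ^ (d + 2)

/-- tangent vectors with values in a field -/
def Tan {κ : Type} [Field κ] [Algebra ℂ κ] (Φ : PS ι →ₐ[ℂ] κ) (y : ι → κ) : Prop :=
  ∀ f, Φ f = 0 → ∑ k, Φ (pderiv ℂ k f) * y k = 0

/-- working form of the extension property -/
def KW {κ : Type} [Field κ] [Algebra ℂ κ] (Φ : PS ι →ₐ[ℂ] κ) (Θ : ι → ι → PS ι)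
    (V : ValuationSubring κ) : Prop :=
  ∃ (S : Type) (_ : Fintype S) (c : S → κ) (a b a' b' : S → PS ι),
    (∀ s, c s ∈ V ∧ Φ (b s) ≠ 0 ∧ Φ (b' s) ≠ 0 ∧ Φ (a s) / Φ (b s) ∈ V ∧
      Φ (a' s) / Φ (b' s) ∈ V) ∧
    ∀ ξ x y : ι → κ, (∀ k, x k = ∑ i, ξ i * Φ (Θ i k)) → Tan Φ y →
      ∑ i, ξ i * y i = ∑ s, c s * (dq Φ (a s) (b s) ⬝ᵥ x * dq Φ (a' s) (b' s) ⬝ᵥ y -
        dq Φ (a' s) (b' s) ⬝ᵥ x * dq Φ (a s) (b s) ⬝ᵥ y)

/-- `Q` is principal modulo `J`, locally at `Q` -/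
def Prin {A : Type} [CommRing A] (J Q : Ideal A) : Prop :=
  ∃ π ∈ Q, ∃ s ∉ Q, ∀ h ∈ Q, ∃ a, s * h - a * π ∈ J

/-- homogeneous Jacobian data of `J` at `Q` -/
def JD [DecidableEq ι] (J Q : Ideal (PP ι)) : Prop :=
  ∃ (σ : Finset ι) (w : ι → PP ι) (dg : ι → ℕ) (G : PP ι) (e : ℕ),
    (∀ i, (w i).IsHomogeneous (dg i)) ∧ (∀ i ∈ σ, w i ∈ J) ∧
    (Matrix.of fun i j => MvPolynomial.pderiv j (w i)).det ∉ Q ∧ G.IsHomogeneous e ∧ G ∉ J ∧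
    ∀ h ∈ J, G * h ∈ Ideal.span (w '' σ)

/-- the germ is the completion of the cone `J`, with polynomial Hamiltonian fields -/
structure Mod (q : PS ι →ₐ[ℂ] R) (m : Ideal R) (J : Ideal (PP ι)) (ω : Frm R) (H : ι → Der R)
    (Θ : Matrix ι ι (PP ι)) : Prop where
  pres : Pres q m
  hom : HomI J
  ker : ∀ g, q g = 0 ↔ g ∈ J.map (co ι)
  symp : IsSymplecticForm ω
  hm : Hm q ω H
  th : ∀ i j, H i (q (X j)) = q (Θ i j : PS ι)
  deg : ∀ i j, (Θ i j).IsHomogeneous 1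

end Defs

/-- the Hamiltonian fields span the tangent space generically -/
def S_SPAN : Prop := ∀ (ι R : Type) [Fintype ι] [DecidableEq ι] [CommRing R] [IsDomain R]
  [Algebra ℂ R] (q : PS ι →ₐ[ℂ] R) (m : Ideal R) (ω : Frm R) (H : ι → Der R)
  (Θ : ι → ι → PS ι), Pres q m → IsSymplecticForm ω → Hm q ω H →
  (∀ i k, H i (q (X k)) = q (Θ i k)) →
  (∀ Y : Der R, ∃ s : R, s ≠ 0 ∧ ∃ η : ι → R, s • Y = ∑ i, η i • H i) ∧
  ∀ (κ : Type) [Field κ] [Algebra ℂ κ] (Φ : PS ι →ₐ[ℂ] κ), (∀ g, Φ g = 0 ↔ q g = 0) →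
    (∀ y, Tan Φ y → ∃ ξ : ι → κ, ∀ k, y k = ∑ i, ξ i * Φ (Θ i k)) ∧
    (ExtR ω → ∀ V : ValuationSubring κ, (∀ g, Φ g ∈ V) → KW Φ Θ V)

/-- the semisimple part of a dilating field -/
def S_JS : Prop := ∀ (ι R : Type) [Fintype ι] [DecidableEq ι] [CommRing R] [IsDomain R]
  [Algebra ℂ R] (q : PS ι →ₐ[ℂ] R) (m : Ideal R) (ω : Frm R) (ξ : Der R), Pres q m →
  IsSymplecticForm ω → IsDilating ω ξ → (∀ x ∈ m, ξ x ∈ m) →
  ∃ (q' : PS ι →ₐ[ℂ] R) (c : ι → ℂ) (S : Der R), Pres q' m ∧ Gr q' c ∧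
    Lf q' (fun i => C (c i) * X i) S ∧ IsDilating ω S

/-- the valuation of rank two -/
def S_VAL : Prop := ∀ (ι R : Type) [Fintype ι] [DecidableEq ι] [CommRing R] [IsDomain R]
  [Algebra ℂ R] (q : PS ι →ₐ[ℂ] R) (m : Ideal R) (ω : Frm R) (b : ι → ℝ), Pres q m → Dom m →
  Gr q b → ExtR ω → ∀ (x y : ι → PS ι) (D E : Der R) (k l : ℕ) (t u : ℝ), Lf q x D → Lf q y E →
  (∀ i, Fil b (k + 1) (b i + t) (x i)) → (∀ i, Fil b (l + 1) (b i + u) (y i)) →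
  ∃ g, Fil b (k + l) (t + u) g ∧ q g = ω D E

/-- the form has order at least one -/
def S_A1 : Prop := ∀ (ι R : Type) [Fintype ι] [DecidableEq ι] [CommRing R] [IsDomain R]
  [Algebra ℂ R] (q : PS ι →ₐ[ℂ] R) (m : Ideal R) (ω : Frm R) (c : ι → ℂ) (S : Der R), Pres q m →
  Dom m → ExtR ω → Gr q c → Lf q (fun i => C (c i) * X i) S → IsDilating ω S → Pos m ω

/-- Jacobian criterion for a pair of primes -/
def S_JA : Prop := ∀ (ι : Type) [Fintype ι] [DecidableEq ι] (J Q : Ideal (PS ι)), J.IsPrime →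
  Q.IsPrime → J ≤ Q → Prin J Q →
  ∃ (σ : Finset ι) (w : ι → PS ι) (s : PS ι), (∀ i ∈ σ, w i ∈ J) ∧
    (Matrix.of fun i j => pderiv ℂ j (w i)).det ∉ Q ∧ s ∉ J ∧
    ∀ h ∈ J, s * h ∈ Ideal.span (w '' σ)

/-- homogeneous form -/
def S_JB : Prop := ∀ (ι : Type) [Fintype ι] [DecidableEq ι] (J Q : Ideal (PP ι)), J.IsPrime →
  Q.IsPrime → HomI J → HomI Q → J ≤ Q → Prin J Q → JD J Q

/-- lift of the Euler field -/
def S_JC : Prop := ∀ (ι R : Type) [Fintype ι] [DecidableEq ι] [CommRing R] [IsDomain R]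
  [Algebra ℂ R] (q : PS ι →ₐ[ℂ] R) (m : Ideal R) (J Q : Ideal (PP ι)), Pres q m → Cone q m J →
  Dom m → JD J Q → ∃ (d : ℕ) (δ : PP ι) (E : Der R), δ ∉ Q ∧ EL q m d δ E

/-- the missing Hamiltonian function -/
def S_H0 : Prop := ∀ (ι R : Type) [Fintype ι] [DecidableEq ι] [CommRing R] [IsDomain R]
  [Algebra ℂ R] (q : PS ι →ₐ[ℂ] R) (m : Ideal R) (J : Ideal (PP ι)) (ω : Frm R) (ξ : Der R),
  Pres q m → Cone q m J → J.IsPrime → IsIntegrallyClosed (PP ι ⧸ J) → Pos m ω → Sh m 0 ξ →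
  ∃ (d : ℕ) (δ : PP ι) (E : Der R), δ ∉ J ∧ EL q m d δ E ∧
    ∃ h ∈ m, ω ξ E - q (δ : PS ι) * h ∈ m ^ (d + 2)

/-- the corrected dilating field is the identity on the cotangent space -/
def S_H1 : Prop := ∀ (ι R : Type) [Fintype ι] [DecidableEq ι] [CommRing R] [IsDomain R]
  [Algebra ℂ R] (q : PS ι →ₐ[ℂ] R) (m : Ideal R) (ω : Frm R) (ξ E : Der R) (d : ℕ) (Δ h : R),
  Pres q m → Dom m → IsSymplecticForm ω → Pos m ω → IsDilating ω ξ → (∀ D : Der R, Sh m 0 D) →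
  Δ ∈ m ^ d → Δ ∉ m ^ (d + 1) → (∀ y ∈ m, E y - Δ * y ∈ m ^ (d + 2)) → h ∈ m →
  ω ξ E - Δ * h ∈ m ^ (d + 2) → ∃ ξ' : Der R, IsDilating ω ξ' ∧ ∀ x ∈ m, ξ' x - x ∈ m ^ 2

/-- linearisation -/
def S_LIN : Prop := ∀ (ι R : Type) [Fintype ι] [DecidableEq ι] [CommRing R] [IsDomain R]
  [Algebra ℂ R] (q : PS ι →ₐ[ℂ] R) (m : Ideal R) (J : Ideal (PP ι)) (ξ : Der R), Pres q m →
  Cone q m J → (∀ x ∈ m, ξ x - x ∈ m ^ 2) →
  ∃ ψ : PS ι ≃ₐ[ℂ] PS ι, (∀ g, q (ψ g) = 0 ↔ g ∈ J.map (co ι)) ∧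
    ∀ g, ξ (q (ψ g)) = q (ψ (vf (fun i => X i) g))

/-- linear Hamiltonian fields -/
def S_TH : Prop := ∀ (ι R : Type) [Fintype ι] [DecidableEq ι] [CommRing R] [IsDomain R]
  [Algebra ℂ R] (q : PS ι →ₐ[ℂ] R) (m : Ideal R) (J : Ideal (PP ι)) (ω : Frm R) (ξ : Der R),
  Pres q m → HomI J → (∀ g, q g = 0 ↔ g ∈ J.map (co ι)) → IsSymplecticForm ω →
  Lf q (fun i => X i) ξ → IsDilating ω ξ → ∃ H Θ, Mod q m J ω H Θ

/-- the rational form on the cone -/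
def S_D2 : Prop := ∀ (ι R : Type) [Fintype ι] [DecidableEq ι] [CommRing R] [IsDomain R]
  [Algebra ℂ R] (q : PS ι →ₐ[ℂ] R) (m : Ideal R) (J : Ideal (PP ι)) (ω : Frm R) (H : ι → Der R)
  (Θ : Matrix ι ι (PP ι)), Mod q m J ω H Θ → ∀ (K : Type) [Field K] [Algebra ℂ K]
  (φ : PP ι →ₐ[ℂ] K), (∀ g, φ g = 0 ↔ g ∈ J) → (∀ y : K, ∃ a b, y = φ a / φ b) →
  ∃ ω₀ : LinearMap.BilinForm K (Derivation ℂ K K), IsClosedForm ω₀ ∧
    (∀ (x y : Derivation ℂ K K) (ξ : ι → K), (∀ k, x (φ (.X k)) = ∑ i, ξ i * φ (Θ i k)) →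
      ω₀ x y = ∑ i, ξ i * y (φ (.X i))) ∧
    (∀ x : Derivation ℂ K K, ∃ ξ : ι → K, ∀ k, x (φ (.X k)) = ∑ i, ξ i * φ (Θ i k)) ∧
    ∀ ξ : ι → K, ∃ x : Derivation ℂ K K, ∀ k, x (φ (.X k)) = ∑ i, ξ i * φ (Θ i k)

/-- regularity along a discrete valuation of the cone -/
def S_D3 : Prop := ∀ (ι R : Type) [Fintype ι] [DecidableEq ι] [CommRing R] [IsDomain R]
  [Algebra ℂ R] (q : PS ι →ₐ[ℂ] R) (m : Ideal R) (J : Ideal (PP ι)) (ω : Frm R) (H : ι → Der R)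
  (Θ : Matrix ι ι (PP ι)), Mod q m J ω H Θ → ExtR ω → ∀ (K : Type) [Field K] [Algebra ℂ K]
  (φ : PP ι →ₐ[ℂ] K), (∀ g, φ g = 0 ↔ g ∈ J) →
  ∀ (v : DV K) (x y : Derivation ℂ K K) (ξ : ι → K), (∀ g, v.Ge 0 (φ g)) →
    (∀ z, v.Ge 0 z → v.Ge 0 (x z)) → (∀ z, v.Ge 0 z → v.Ge 0 (y z)) →
    (∀ k, x (φ (.X k)) = ∑ i, ξ i * φ (Θ i k)) → v.Ge 0 (∑ i, ξ i * y (φ (.X i)))

/-- the cone is conical symplectic -/
def S_D4 : Prop := ∀ (ι R : Type) [Fintype ι] [DecidableEq ι] [CommRing R] [IsDomain R]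
  [Algebra ℂ R] (q : PS ι →ₐ[ℂ] R) (m : Ideal R) (J : Ideal (PP ι)) (ω : Frm R) (H : ι → Der R)
  (Θ : Matrix ι ι (PP ι)), Mod q m J ω H Θ → ExtR ω → J.IsPrime →
  IsIntegrallyClosed (PP ι ⧸ J) →
  ∃ (K : Type) (_ : Field K) (_ : Algebra ℂ K) (φ : PP ι →ₐ[ℂ] K)
    (ω₀ : LinearMap.BilinForm K (Derivation ℂ K K)) (𝒢 : ℕ → Submodule ℂ φ.range),
    RingHom.ker φ = J ∧ IsConicalSymplectic φ.range ω₀ 𝒢 ∧ ∀ i, φ.rangeRestrict (.X i) ∈ 𝒢 1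

end Pool.Agent.MP_51db15_ag.Nc
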