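import Pool.Agent.MP_51db15_ag.Hy.Stmt
import Mathlib.RingTheory.MvPowerSeries.Order
import Mathlib.RingTheory.MvPolynomial.Homogeneous

/-! The tangent cone of a formal germ and dilating vector fields. -/

namespace Pool.Agent.MP_51db15_ag.Nc

/-- The ideal of the tangent cone of the germ `ℂ⟦x⟧ / I`: generated by the homogeneous polynomials
`F` that agree with an element of `I` up to terms of higher order. -/
noncomputable def tangentCone {ι : Type} (I : Ideal (MvPowerSeries ι ℂ)) : Ideal (MvPolynomial ι ℂ) :=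
  Ideal.span {F | ∃ d : ℕ, F.IsHomogeneous d ∧
    ∃ f ∈ I, (d : ℕ∞) < (f - (F : MvPowerSeries ι ℂ)).order}

/-- The Lie derivative of `ω` along `ξ` is `ω`. -/
def IsDilating {R : Type} [CommRing R] [Algebra ℂ R]
    (ω : LinearMap.BilinForm R (Derivation ℂ R R)) (ξ : Derivation ℂ R R) : Prop :=
  ∀ X Y : Derivation ℂ R R, ξ (ω X Y) - ω ⁅ξ, X⁆ Y - ω X ⁅ξ, Y⁆ = ω X Y

end Pool.Agent.MP_51db15_ag.Nc
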